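import Mathlib
import Pool.Agent.Helper55.BLD.Defs
import Pool.Agent.Helper55.BLD.LGOps

/-!
Definitions for the version with a set of special vertices: pins of several kinds.  Everything that
does not depend on the kind of the pins is taken from the namespace `BLD`.
-/

set_option autoImplicit false

namespace Pool.Agent.Helper55.BLE

open Pool.Agent.Helper70.BLB
open Pool.Agent.Helper55.BLD

/-- Elementary operations on a row of sites `0, 1, 2, ...`, with pins of the kinds `b : B`. -/
inductive OpP (B : Type)
  /-- identify the current vertices at sites `i` and `i + 1` -/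
  | J (i : ℕ)
  /-- put an edge between the current vertices at sites `i` and `i + 1` -/
  | H (i : ℕ)
  /-- replace the vertex at site `i` by a new vertex -/
  | D (i : ℕ)
  /-- replace the vertex at site `i` by a new vertex adjacent to the old one -/
  | V (i : ℕ)
  /-- pin the vertex at site `i` to the state `b` -/
  | P (b : B) (i : ℕ)

section Val

variable {B : Type}

/-- Operations allowed in the transfer: the only pins are those at site `1`. -/
def OpP.ok (m : ℕ) : OpP B → Prop
  | .J i => i + 1 ≤ m
  | .H i => i + 1 ≤ m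
  | .D i => 1 ≤ i ∧ i ≤ m
  | .V i => 1 ≤ i ∧ i ≤ m
  | .P _ i => i = 1

/-- The value of an operation in a ring with Temperley-Lieb generators and pins. -/
def OpP.val {R : Type*} [Ring R] (d dinv : R) (e : ℕ → R) (P : B → ℕ → R) : OpP B → R
  | .J i => dinv * e (2 * i + 1)
  | .H i => 1 - dinv * e (2 * i + 1)
  | .D i => d * e (2 * i)
  | .V i => d * e (2 * i) - 1
  | .P b i => P b i

/-- The value of a list of operations. -/
def WP {R : Type*} [Ring R] (d dinv : R) (e : ℕ → R) (P : B → ℕ → R) (ops : List (OpP B)) : R :=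
  (ops.map (OpP.val d dinv e P)).prod

theorem WP_append {R : Type*} [Ring R] (d dinv : R) (e : ℕ → R) (P : B → ℕ → R)
    (a b : List (OpP B)) : WP d dinv e P (a ++ b) = WP d dinv e P a * WP d dinv e P b := by
  unfold WP
  rw [List.map_append, List.prod_append]

theorem WP_nil {R : Type*} [Ring R] (d dinv : R) (e : ℕ → R) (P : B → ℕ → R) :
    WP d dinv e P [] = 1 := by simp [WP]

theorem WP_cons {R : Type*} [Ring R] (d dinv : R) (e : ℕ → R) (P : B → ℕ → R) (o : OpP B)
    (b : List (OpP B)) : WP d dinv e P (o :: b) = o.val d dinv e P * WP d dinv e P b := by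
  simp [WP]

end Val

section Words

variable {B V : Type} (G : SimpleGraph V)

open Classical in
/-- Vertical step at site `i` from label `a` to label `b`. -/
noncomputable def vopP (B : Type) {V : Type} (G : SimpleGraph V) (i : ℕ) (a b : Option V) :
    List (OpP B) :=
  if a = b ∧ a ≠ none then [] else if ladj G a b then [OpP.V i] else [OpP.D i]

open Classical in
/-- Horizontal operation between sites `i` and `i + 1` with labels `a` and `b`. -/
noncomputable def hopP (B : Type) {V : Type} (G : SimpleGraph V) (i : ℕ) (a b : Option V) :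
    List (OpP B) :=
  if a = b ∧ a ≠ none then [OpP.J i] else if ladj G a b then [OpP.H i] else []

/-- The pin inserted at a point. -/
def pinP (i : ℕ) : Option B → List (OpP B)
  | some b => [OpP.P b i]
  | none => []

/-- Vertical operations from row `j` to row `j + 1` at the sites `1, ..., k`, with the pins of row
`j + 1`. -/
noncomputable def stepW (L : ℕ → ℕ → Option V) (S : ℕ → ℕ → Option B) (j : ℕ) :
    ℕ → List (OpP B)
  | 0 => []
  | (k + 1) => stepW L S j k ++
      (vopP B G (k + 1) (L (k + 1) j) (L (k + 1) (j + 1)) ++ pinP (k + 1) (S (k + 1) (j + 1)))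

/-- Horizontal operations of row `j` between the sites `0, ..., k`. -/
noncomputable def horW (B : Type) {V : Type} (G : SimpleGraph V) (L : ℕ → ℕ → Option V) (j : ℕ) :
    ℕ → List (OpP B)
  | 0 => []
  | (k + 1) => horW B G L j k ++ hopP B G k (L k j) (L (k + 1) j)

/-- The rows `1, ..., t` with sites `1, ..., k`. -/
noncomputable def bodyW (L : ℕ → ℕ → Option V) (S : ℕ → ℕ → Option B) (k : ℕ) :
    ℕ → List (OpP B)
  | 0 => []
  | (t + 1) => bodyW L S k t ++ (stepW G L S t k ++ horW B G L (t + 1) k)

end Words

/-- Temperley-Lieb relations with additional boundary generators `b i`; `b b0` is the pin to the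
state of the root. -/
structure BRel {R : Type*} [Ring R] {B : Type} (d dinv : R) (e : ℕ → R) (b : B → R) (b0 : B) :
    Prop where
  tl : TLRel d e
  dd : d * dinv = 1
  dc : ∀ x, d * x = x * d
  dic : ∀ x, dinv * x = x * dinv
  bb : ∀ i, b i * b i = b i
  bne : ∀ i j, i ≠ j → b i * b j = 0
  be : ∀ i, i ≠ b0 → b i * e 1 = 0
  eb : ∀ i, i ≠ b0 → e 1 * b i = 0
  be0 : b b0 * e 1 = e 1
  eb0 : e 1 * b b0 = e 1
  ebe : ∀ i, e 2 * b i * e 2 = dinv * e 2
  bc : ∀ i j, 3 ≤ j → b i * e j = e j * b i

/-- The submonoid generated by `d`, `dinv`, `0`, the `b i` and `e 1, ..., e k`. -/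
def TLB {R : Type*} [Ring R] {B : Type} (d dinv : R) (e : ℕ → R) (b : B → R) (k : ℕ) :
    Submonoid R :=
  Submonoid.closure (({d, dinv, 0} ∪ Set.range b) ∪ {x | ∃ i, 1 ≤ i ∧ i ≤ k ∧ x = e i})

/-- Relations of the pins. -/
structure PinRel {R : Type*} [Ring R] {B : Type} (d dinv : R) (e : ℕ → R) (P : B → ℕ → R)
    (b0 : B) : Prop where
  dc : ∀ x, d * x = x * d
  dic : ∀ x, dinv * x = x * dinv
  idem : ∀ b i, P b i * P b i = P b i
  comm : ∀ b i k, 1 ≤ k → k ≠ 2 * i → P b i * e k = e k * P b i
  commP : ∀ b i b' i', P b i * P b' i' = P b' i' * P b i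
  move : ∀ b i, 1 ≤ i → P b i * e (2 * i + 1) = P b (i + 1) * e (2 * i + 1)
  move0 : P b0 1 * e 1 = e 1

section Heights

variable {A B : Type} [DecidableEq A]

/-- The pin of site `i` to the leaf `lv b`. -/
noncomputable def gP (lv : B → A) (b : B) (i : ℕ) : Module.End ℝ ((ℕ → A) → ℝ) where
  toFun φ := fun h => if h (2 * i) = lv b then φ h else 0
  map_add' φ ψ := by
    funext h
    simp only [Pi.add_apply]
    split_ifs <;> simp
  map_smul' a φ := by
    funext h
    simp only [Pi.smul_apply, smul_eq_mul, RingHom.id_apply]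
    split_ifs <;> simp

/-- The properties of the graph of heights: `lv b` are leaves at `c`, vertex heights (`vt`) have
at most two neighbours, `g` is a vertex height with neighbours `c` and `f`. -/
structure HGood (nb : A → Finset A) (S : A → ℝ) (δ : ℝ) (vt : A → Prop) (lv : B → A)
    (c g f : A) : Prop extends Eig nb S δ where
  hδ : 2 ≤ δ
  nlv : ∀ b, nb (lv b) = {c}
  linj : Function.Injective lv
  vlv : ∀ b, vt (lv b)
  vnb : ∀ a, vt a → ∀ b ∈ nb a, ¬ vt b
  fnb : ∀ a, ¬ vt a → ∀ b ∈ nb a, vt b
  card : ∀ a, vt a → (nb a).card ≤ 2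
  ng : nb g = {c, f}
  cf : c ≠ f
  gl : ∀ b, g ≠ lv b

end Heights

section Colours

variable (C : Type) [Fintype C] [DecidableEq C] {B : Type}

/-- The pin of site `i` to the image of the colour of site `0` under `τ b`. -/
noncomputable def cPn (τ : B → C → C) (b : B) (i : ℕ) : Module.End ℝ ((ℕ → C) → ℝ) where
  toFun ψ := fun c => if c i = τ b (c 0) then ψ c else 0
  map_add' φ ψ := by
    funext h
    simp only [Pi.add_apply]
    split_ifs <;> simp
  map_smul' a φ := by
    funext h
    simp only [Pi.smul_apply, smul_eq_mul, RingHom.id_apply]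
    split_ifs <;> simp

/-- Value of an operation in the colouring representation. -/
noncomputable def cvalP (τ : B → C → C) : OpP B → Module.End ℝ ((ℕ → C) → ℝ)
  | .J i => cJ C i
  | .H i => 1 - cJ C i
  | .D i => cD C i
  | .V i => cD C i - 1
  | .P b i => cPn C τ b i

/-- Value of a list of operations in the colouring representation. -/
noncomputable def cWP (τ : B → C → C) (ops : List (OpP B)) : Module.End ℝ ((ℕ → C) → ℝ) :=
  (ops.map (cvalP C τ)).prod

/-- The maps `τ b`, evaluated at a colour, are different; `τ b0` is the identity. -/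
structure TauOK {C B : Type} (τ : B → C → C) (b0 : B) : Prop where
  id0 : ∀ x, τ b0 x = x
  ne : ∀ b b' x, b ≠ b' → τ b x ≠ τ b' x

end Colours

/-- Hypothesis on the pins `π` of the vertices and the classes: the root is pinned to `b0`,
adjacent pinned vertices have different pins, `cl` is a two-colouring of the other vertices. -/
structure PiOK {V B : Type} (G : SimpleGraph V) (r : V) (b0 : B) (π : V → Option B)
    (cl : V → Bool) : Prop where
  root : π r = some b0
  pin : ∀ u v b, G.Adj u v → π u = some b → π v ≠ some b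
  cls : ∀ u v, G.Adj u v → π u = none → π v = none → cl u ≠ cl v

/-- The pinned vertices different from the root have a point in column `1`. -/
def Contact {V B : Type} (π : V → Option B) (r : V) (K R : ℕ) (L : ℕ → ℕ → Option V) : Prop :=
  1 ≤ K ∧ ∀ v, v ≠ r → π v ≠ none → ∃ j, 1 ≤ j ∧ j ≤ R ∧ L 1 j = some v

open Classical in
/-- Pins at the points of column `1` labelled by a pinned vertex. -/
noncomputable def S0 {V B : Type} (π : V → Option B) (R : ℕ) (L : ℕ → ℕ → Option V) (i j : ℕ) :
    Option B :=
  if i = 1 ∧ 1 ≤ j ∧ j ≤ R then (L i j).bind π else none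

open Classical in
/-- Pins at all points labelled by a pinned vertex. -/
noncomputable def S1 {V B : Type} (π : V → Option B) (K R : ℕ) (L : ℕ → ℕ → Option V) (i j : ℕ) :
    Option B :=
  if 1 ≤ i ∧ i ≤ K ∧ 1 ≤ j ∧ j ≤ R then (L i j).bind π else none

/-- The set `T` of special vertices, apart from the root, touches column `1`. -/
def ContT {V : Type} (T : Finset V) (r : V) (K R : ℕ) (L : ℕ → ℕ → Option V) : Prop :=
  1 ≤ K ∧ ∀ t ∈ T, t ≠ r → ∃ j, 1 ≤ j ∧ j ≤ R ∧ L 1 j = some t

end Pool.Agent.Helper55.BLE
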