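import Mathlib
import Pool.Agent.Helper55.BLE.Defs
import Pool.Agent.Helper55.BLD.GHeight

/-!
The pins in the path representation.  Adaptation of the last part of `BLD/GHeight.lean`.
-/

set_option autoImplicit false

namespace Pool.Agent.Helper55.BLE

open Pool.Agent.Helper70.BLB
open Pool.Agent.Helper55.BLD

variable {A B : Type} [DecidableEq A]

theorem gP_apply (lv : B → A) (b : B) (i : ℕ) (φ : (ℕ → A) → ℝ) (h : ℕ → A) :
    gP lv b i φ h = if h (2 * i) = lv b then φ h else 0 := rfl

/-- A generator that does not touch the pinned position commutes with the pin. -/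
theorem gP_comm_gE (nb : A → Finset A) (S : A → ℝ) (o : A) (lv : B → A) (b : B) (i k : ℕ)
    (hk : k ≠ 2 * i) :
    gP lv b i * gE nb S o k = gE nb S o k * gP lv b i := by
  ext φ h
  simp only [Module.End.mul_apply]
  rw [gP_apply]
  by_cases hc : IsP nb o h ∧ h (k - 1) = h (k + 1)
  · obtain ⟨hp, he⟩ := hc
    rw [gE_pos nb S o k _ hp he, gE_pos nb S o k _ hp he]
    have hk' : 2 * i ≠ k := fun e => hk e.symm
    have h1 : ∀ x ∈ nb (h (k - 1)), S x * gP lv b i φ (Function.update h k x) =
        if h (2 * i) = lv b then S x * φ (Function.update h k x) else 0 := by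
      intro x _
      rw [gP_apply, Function.update_of_ne hk']
      by_cases h2 : h (2 * i) = lv b
      · rw [if_pos h2, if_pos h2]
      · rw [if_neg h2, if_neg h2, mul_zero]
    rw [Finset.sum_congr rfl h1]
    by_cases h2 : h (2 * i) = lv b
    · simp only [if_pos h2]
    · simp only [if_neg h2, Finset.sum_const_zero, zero_div]
  · rw [gE_neg nb S o k _ hc, gE_neg nb S o k _ hc]
    simp

theorem gP_idem (lv : B → A) (b : B) (i : ℕ) : gP lv b i * gP lv b i = gP lv b i := by
  ext φ h
  simp only [Module.End.mul_apply]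
  rw [gP_apply, gP_apply]
  by_cases h2 : h (2 * i) = lv b
  · simp only [if_pos h2]
  · simp only [if_neg h2]

theorem gP_rel {nb : A → Finset A} {S : A → ℝ} {δ : ℝ} {vt : A → Prop} {lv : B → A} {c g f : A}
    (H : HGood nb S δ vt lv c g f) (b0 : B) :
    PinRel (R := Module.End ℝ ((ℕ → A) → ℝ)) (δ • 1) (δ⁻¹ • 1) (gE nb S (lv b0)) (gP lv) b0 where
  dc x := by simp
  dic x := by simp
  idem b i := gP_idem lv b i
  comm b i k _ hki := gP_comm_gE nb S (lv b0) lv b i k hki
  commP b i b' i' := by
    ext φ h
    simp only [Module.End.mul_apply, gP_apply]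
    by_cases h1 : h (2 * i) = lv b
    · by_cases h2 : h (2 * i') = lv b'
      · simp only [if_pos h1, if_pos h2]
      · simp only [if_pos h1, if_neg h2]
    · by_cases h2 : h (2 * i') = lv b'
      · simp only [if_neg h1, if_pos h2]
      · simp only [if_neg h1, if_neg h2]
  move b i _ := by
    ext φ h
    simp only [Module.End.mul_apply, gP_apply]
    by_cases hc : IsP nb (lv b0) h ∧ h (2 * i + 1 - 1) = h (2 * i + 1 + 1)
    · have h1 : h (2 * i) = h (2 * (i + 1)) := by
        have := hc.2
        rwa [show 2 * i + 1 - 1 = 2 * i by omega, show 2 * i + 1 + 1 = 2 * (i + 1) by ring] at this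
      rw [h1]
    · rw [gE_neg nb S (lv b0) _ _ hc]
      simp
  move0 := by
    ext φ h
    simp only [Module.End.mul_apply, gP_apply]
    by_cases hc : IsP nb (lv b0) h ∧ h (1 - 1) = h (1 + 1)
    · have h1 : h (2 * 1) = lv b0 := by
        have h2 := hc.2
        have h3 := hc.1.1
        rw [show 2 * 1 = 1 + 1 by rfl, ← h2]
        exact h3
      rw [h1]
      simp
    · rw [gE_neg nb S (lv b0) _ _ hc]
      simp

theorem gB_rel {nb : A → Finset A} {S : A → ℝ} {δ : ℝ} {vt : A → Prop} {lv : B → A} {c g f : A}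
    (H : HGood nb S δ vt lv c g f) (b0 : B) :
    BRel (R := Module.End ℝ ((ℕ → A) → ℝ)) (δ • 1) (δ⁻¹ • 1) (gE nb S (lv b0))
      (fun b => gP lv b 1) b0 where
  tl := gE_TLRel H.toEig (lv b0)
  dd := by
    have h0 : δ ≠ 0 := by linarith [H.hδ]
    rw [smul_mul_smul_comm, one_mul, mul_inv_cancel₀ h0, one_smul]
  dc x := by simp
  dic x := by simp
  bb i := gP_idem lv i 1
  bne i j hij := by
    ext φ h
    simp only [Module.End.mul_apply, gP_apply, LinearMap.zero_apply, Pi.zero_apply]
    by_cases h1 : h (2 * 1) = lv i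
    · by_cases h2 : h (2 * 1) = lv j
      · exact absurd (H.linj (h1.symm.trans h2)) hij
      · simp only [if_neg h2, ite_self]
    · simp only [if_neg h1]
  be i hi := by
    ext φ h
    simp only [Module.End.mul_apply, gP_apply, LinearMap.zero_apply, Pi.zero_apply]
    by_cases hc : IsP nb (lv b0) h ∧ h (1 - 1) = h (1 + 1)
    · have h1 : h (2 * 1) = lv b0 := by
        have h2 := hc.2
        have h3 := hc.1.1
        rw [show 2 * 1 = 1 + 1 by rfl, ← h2]
        exact h3
      rw [h1, if_neg (fun e => hi (H.linj e).symm)]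
    · rw [gE_neg nb S (lv b0) _ _ hc]
      simp
  eb i hi := by
    ext φ h
    simp only [Module.End.mul_apply, LinearMap.zero_apply, Pi.zero_apply]
    by_cases hc : IsP nb (lv b0) h ∧ h (1 - 1) = h (1 + 1)
    · have h1 : h (2 * 1) = lv b0 := by
        have h2 := hc.2
        have h3 := hc.1.1
        rw [show 2 * 1 = 1 + 1 by rfl, ← h2]
        exact h3
      rw [gE_pos nb S (lv b0) 1 _ hc.1 hc.2]
      have h4 : ∀ x ∈ nb (h (1 - 1)), S x * gP lv i 1 φ (Function.update h 1 x) = 0 := by
        intro x _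
        have h5 : 2 * 1 ≠ 1 := by norm_num
        rw [gP_apply, Function.update_of_ne h5, h1, if_neg, mul_zero]
        exact fun e => hi (H.linj e).symm
      rw [Finset.sum_congr rfl h4, Finset.sum_const_zero, zero_div]
    · rw [gE_neg nb S (lv b0) _ _ hc]
  be0 := by
    ext φ h
    simp only [Module.End.mul_apply, gP_apply]
    by_cases hc : IsP nb (lv b0) h ∧ h (1 - 1) = h (1 + 1)
    · have h1 : h (2 * 1) = lv b0 := by
        have h2 := hc.2
        have h3 := hc.1.1
        rw [show 2 * 1 = 1 + 1 by rfl, ← h2]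
        exact h3
      rw [h1]
      simp
    · rw [gE_neg nb S (lv b0) _ _ hc]
      simp
  eb0 := by
    ext φ h
    simp only [Module.End.mul_apply]
    by_cases hc : IsP nb (lv b0) h ∧ h (1 - 1) = h (1 + 1)
    · have h1 : h (2 * 1) = lv b0 := by
        have h2 := hc.2
        have h3 := hc.1.1
        rw [show 2 * 1 = 1 + 1 by rfl, ← h2]
        exact h3
      rw [gE_pos nb S (lv b0) 1 _ hc.1 hc.2, gE_pos nb S (lv b0) 1 _ hc.1 hc.2]
      have h4 : ∀ x ∈ nb (h (1 - 1)), S x * gP lv b0 1 φ (Function.update h 1 x) =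
          S x * φ (Function.update h 1 x) := by
        intro x _
        have h5 : 2 * 1 ≠ 1 := by norm_num
        rw [gP_apply, Function.update_of_ne h5, h1, if_pos rfl]
      rw [Finset.sum_congr rfl h4]
    · rw [gE_neg nb S (lv b0) _ _ hc, gE_neg nb S (lv b0) _ _ hc]
  ebe i := by
    have h0 : δ ≠ 0 := by linarith [H.hδ]
    ext φ h
    simp only [Module.End.mul_apply, LinearMap.smul_apply, Module.End.one_apply, Pi.smul_apply,
      smul_eq_mul]
    by_cases hc : IsP nb (lv b0) h ∧ h (2 - 1) = h (2 + 1)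
    · obtain ⟨hp, he⟩ := hc
      have h1 : h (2 - 1) = c := by
        have h2 := hp.2 0
        rw [hp.1, H.nlv, Finset.mem_singleton] at h2
        exact h2
      have hlc : lv i ∈ nb c := by
        apply H.symm
        rw [H.nlv]
        exact Finset.mem_singleton_self c
      have hSl : S c = δ * S (lv i) := by
        have := H.eig (lv i)
        rw [H.nlv, Finset.sum_singleton] at this
        exact this
      have hSl0 := H.pos (lv i)
      have hlc' : lv i ∈ nb (h (2 - 1)) := by rw [h1]; exact hlc
      rw [gE_pos nb S (lv b0) 2 _ hp he]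
      have h4 : ∀ x ∈ nb (h (2 - 1)), S x * gP lv i 1 (gE nb S (lv b0) 2 φ)
          (Function.update h 2 x) = if x = lv i then S (lv i) * gE nb S (lv b0) 2 φ h else 0 := by
        intro x hx
        have h5 : Function.update h 2 x (2 * 1) = x := by
          rw [show 2 * 1 = 2 by rfl, Function.update_self]
        rw [gP_apply, h5]
        by_cases h6 : x = lv i
        · rw [if_pos h6, if_pos h6, gE_update_same H.toEig (by norm_num) φ hp he hx, h6]
        · rw [if_neg h6, if_neg h6, mul_zero]
      rw [Finset.sum_congr rfl h4, Finset.sum_ite_eq', if_pos hlc', h1, hSl]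
      field_simp
    · rw [gE_neg nb S (lv b0) 2 _ hc, gE_neg nb S (lv b0) 2 _ hc, mul_zero]
  bc i j hj := gP_comm_gE nb S (lv b0) lv i 1 j (by omega)

end Pool.Agent.Helper55.BLE
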