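import Mathlib
import Pool.Agent.Helper55.BLE.Defs

/-!
Normal form of words in Temperley-Lieb generators and several boundary generators.
Adaptation of `BLD/BAlg.lean` (one boundary generator).
-/

set_option autoImplicit false

namespace Pool.Agent.Helper55.BLE

open Pool.Agent.Helper70.BLB
open Pool.Agent.Helper55.BLD

section

variable {R : Type*} [Ring R] {B : Type} {d dinv : R} {e : ℕ → R} {b : B → R} {b0 : B}

/-- Units: products of powers of `d` and `dinv`. -/
def IsU (d dinv : R) (u : R) : Prop := ∃ i j : ℕ, u = d ^ i * dinv ^ j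

theorem BRel.isU_mul (H : BRel d dinv e b b0) {u v : R} (hu : IsU d dinv u) (hv : IsU d dinv v) :
    IsU d dinv (u * v) := by
  obtain ⟨i, j, rfl⟩ := hu
  obtain ⟨k, l, rfl⟩ := hv
  refine ⟨i + k, j + l, ?_⟩
  have hc : dinv ^ j * d ^ k = d ^ k * dinv ^ j :=
    (show Commute (dinv ^ j) (d ^ k) from
      Commute.pow_pow (show Commute dinv d from H.dic d) j k)
  calc d ^ i * dinv ^ j * (d ^ k * dinv ^ l) = d ^ i * (dinv ^ j * d ^ k) * dinv ^ l := by
        simp only [mul_assoc]
    _ = d ^ i * (d ^ k * dinv ^ j) * dinv ^ l := by rw [hc]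
    _ = d ^ (i + k) * dinv ^ (j + l) := by rw [pow_add, pow_add]; simp only [mul_assoc]

theorem BRel.isU_comm (H : BRel d dinv e b b0) {u : R} (hu : IsU d dinv u) (x : R) :
    u * x = x * u := by
  obtain ⟨i, j, rfl⟩ := hu
  have h1 : Commute (d ^ i) x := (show Commute d x from H.dc x).pow_left i
  have h2 : Commute (dinv ^ j) x := (show Commute dinv x from H.dic x).pow_left j
  exact (h1.mul_left h2)

theorem isU_one : IsU d dinv 1 := ⟨0, 0, by simp⟩

theorem isU_d : IsU d dinv d := ⟨1, 0, by simp⟩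

theorem isU_dinv : IsU d dinv dinv := ⟨0, 1, by simp⟩

theorem d_mem_TLB (k : ℕ) : d ∈ TLB d dinv e b k :=
  Submonoid.subset_closure (Or.inl (Or.inl (by simp)))

theorem dinv_mem_TLB (k : ℕ) : dinv ∈ TLB d dinv e b k :=
  Submonoid.subset_closure (Or.inl (Or.inl (by simp)))

theorem b_mem_TLB (i : B) (k : ℕ) : b i ∈ TLB d dinv e b k :=
  Submonoid.subset_closure (Or.inl (Or.inr ⟨i, rfl⟩))

theorem zero_mem_TLB (k : ℕ) : (0 : R) ∈ TLB d dinv e b k :=
  Submonoid.subset_closure (Or.inl (Or.inl (by simp)))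

theorem e_mem_TLB {i k : ℕ} (h1 : 1 ≤ i) (h2 : i ≤ k) : e i ∈ TLB d dinv e b k :=
  Submonoid.subset_closure (Or.inr ⟨i, h1, h2, rfl⟩)

theorem isU_mem_TLB {u : R} (hu : IsU d dinv u) (k : ℕ) : u ∈ TLB d dinv e b k := by
  obtain ⟨i, j, rfl⟩ := hu
  exact mul_mem (pow_mem (d_mem_TLB k) i) (pow_mem (dinv_mem_TLB k) j)

theorem TLB_mono {k l : ℕ} (h : k ≤ l) : TLB d dinv e b k ≤ TLB d dinv e b l := by
  apply Submonoid.closure_mono
  rintro x (hx | ⟨i, h1, h2, rfl⟩)
  · exact Or.inl hx
  · exact Or.inr ⟨i, h1, h2.trans h, rfl⟩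

theorem TLX_mem_TLB : ∀ k : ℕ, TLX e k ∈ TLB d dinv e b k
  | 0 => one_mem _
  | 1 => e_mem_TLB le_rfl le_rfl
  | (k + 2) => mul_mem (e_mem_TLB (by omega) le_rfl) (TLB_mono (by omega) (TLX_mem_TLB k))

theorem BRel.comm_mem (H : BRel d dinv e b b0) {k j : ℕ} (hkj : k + 2 ≤ j) (hj : 3 ≤ j) {w : R}
    (hw : w ∈ TLB d dinv e b k) : w * e j = e j * w := by
  induction hw using Submonoid.closure_induction with
  | mem x hx =>
    rcases hx with (hx | ⟨i, rfl⟩) | ⟨i, h1, h2, rfl⟩
    · simp only [Set.mem_insert_iff, Set.mem_singleton_iff] at hx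
      rcases hx with rfl | rfl | rfl
      · exact H.dc _
      · exact H.dic _
      · simp
    · exact H.bc i j hj
    · exact H.tl.comm i j h1 (by omega)
  | one => simp
  | mul x y _ _ hx hy => rw [mul_assoc, hy, ← mul_assoc, hx, mul_assoc]

/-- Elements of `TLB 0`. -/
theorem BRel.mem_zero (H : BRel d dinv e b b0) {w : R} (hw : w ∈ TLB d dinv e b 0) :
    w = 0 ∨ IsU d dinv w ∨ ∃ u, IsU d dinv u ∧ ∃ i, w = u * b i := by
  induction hw using Submonoid.closure_induction with
  | mem x hx =>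
    rcases hx with (hx | ⟨i, rfl⟩) | ⟨i, h1, h2, _⟩
    · simp only [Set.mem_insert_iff, Set.mem_singleton_iff] at hx
      rcases hx with rfl | rfl | rfl
      · exact Or.inr (Or.inl isU_d)
      · exact Or.inr (Or.inl isU_dinv)
      · exact Or.inl rfl
    · exact Or.inr (Or.inr ⟨1, isU_one, i, by simp⟩)
    · omega
  | one => exact Or.inr (Or.inl isU_one)
  | mul x y _ _ hx hy =>
    rcases hx with rfl | hx | ⟨u, hu, i, rfl⟩
    · exact Or.inl (by simp)
    · rcases hy with rfl | hy | ⟨v, hv, j, rfl⟩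
      · exact Or.inl (by simp)
      · exact Or.inr (Or.inl (H.isU_mul hx hy))
      · exact Or.inr (Or.inr ⟨x * v, H.isU_mul hx hv, j, by rw [mul_assoc]⟩)
    · rcases hy with rfl | hy | ⟨v, hv, j, rfl⟩
      · exact Or.inl (by simp)
      · refine Or.inr (Or.inr ⟨u * y, H.isU_mul hu hy, i, ?_⟩)
        rw [mul_assoc, ← H.isU_comm hy (b i), mul_assoc]
      · have h0 : u * b i * (v * b j) = u * v * (b i * b j) := by
          calc u * b i * (v * b j) = u * (b i * v) * b j := by simp only [mul_assoc]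
            _ = u * (v * b i) * b j := by rw [H.isU_comm hv (b i)]
            _ = u * v * (b i * b j) := by simp only [mul_assoc]
        by_cases hij : i = j
        · subst hij
          refine Or.inr (Or.inr ⟨u * v, H.isU_mul hu hv, i, ?_⟩)
          rw [h0, H.bb]
        · exact Or.inl (by rw [h0, H.bne i j hij, mul_zero])

/-- `x e 1` for `x` in `TLB 0`. -/
theorem BRel.left1 (H : BRel d dinv e b b0) {x : R} (hx : x ∈ TLB d dinv e b 0) :
    x * e 1 = 0 ∨ ∃ u, IsU d dinv u ∧ x * e 1 = u * e 1 := by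
  rcases H.mem_zero hx with rfl | hu | ⟨u, hu, i, rfl⟩
  · exact Or.inl (by simp)
  · exact Or.inr ⟨x, hu, rfl⟩
  · by_cases hi : i = b0
    · subst hi
      exact Or.inr ⟨u, hu, by rw [mul_assoc, H.be0]⟩
    · exact Or.inl (by rw [mul_assoc, H.be i hi, mul_zero])

/-- `e 1 y` for `y` in `TLB 0`. -/
theorem BRel.right1 (H : BRel d dinv e b b0) {y : R} (hy : y ∈ TLB d dinv e b 0) :
    e 1 * y = 0 ∨ ∃ u, IsU d dinv u ∧ e 1 * y = u * e 1 := by
  rcases H.mem_zero hy with rfl | hu | ⟨u, hu, i, rfl⟩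
  · exact Or.inl (by simp)
  · exact Or.inr ⟨y, hu, (H.isU_comm hu (e 1)).symm⟩
  · have h0 : e 1 * (u * b i) = u * (e 1 * b i) := by
      rw [← mul_assoc, ← H.isU_comm hu (e 1), mul_assoc]
    by_cases hi : i = b0
    · subst hi
      exact Or.inr ⟨u, hu, by rw [h0, H.eb0]⟩
    · exact Or.inl (by rw [h0, H.eb i hi, mul_zero])

/-- `e 1 c e 1` for `c` in `TLB 0`. -/
theorem BRel.s1 (H : BRel d dinv e b b0) {c : R} (hc : c ∈ TLB d dinv e b 0) :
    e 1 * c * e 1 = 0 ∨ ∃ u, IsU d dinv u ∧ e 1 * c * e 1 = u * e 1 := by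
  rcases H.right1 hc with h0 | ⟨u, hu, h0⟩
  · exact Or.inl (by rw [h0, zero_mul])
  · refine Or.inr ⟨u * d, H.isU_mul hu isU_d, ?_⟩
    rw [h0, mul_assoc, H.tl.sq 1 le_rfl, mul_assoc]

/-- Normal form in `TLB 1`. -/
theorem BRel.jones0 (H : BRel d dinv e b b0) {w : R} (hw : w ∈ TLB d dinv e b 1) :
    w ∈ TLB d dinv e b 0 ∨
      ∃ a ∈ TLB d dinv e b 0, ∃ c ∈ TLB d dinv e b 0, w = a * e 1 * c := by
  induction hw using Submonoid.closure_induction_right with
  | one => exact Or.inl (one_mem _)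
  | mul_right x hx y hy ih =>
    rcases hy with hy | ⟨i, h1, h2, rfl⟩
    · have hy' : y ∈ TLB d dinv e b 0 := Submonoid.subset_closure (Or.inl hy)
      rcases ih with ih | ⟨a, ha, c, hc, rfl⟩
      · exact Or.inl (mul_mem ih hy')
      · exact Or.inr ⟨a, ha, c * y, mul_mem hc hy', by simp only [mul_assoc]⟩
    · have hi : i = 1 := by omega
      subst hi
      rcases ih with ih | ⟨a, ha, c, hc, rfl⟩
      · exact Or.inr ⟨x, ih, 1, one_mem _, by simp⟩
      · rcases H.s1 hc with h0 | ⟨u, hu, h0⟩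
        · refine Or.inl ?_
          have : a * e 1 * c * e 1 = 0 := by
            calc a * e 1 * c * e 1 = a * (e 1 * c * e 1) := by simp only [mul_assoc]
              _ = 0 := by rw [h0, mul_zero]
          rw [this]
          exact zero_mem_TLB 0
        · refine Or.inr ⟨a * u, mul_mem ha (isU_mem_TLB hu 0), 1, one_mem _, ?_⟩
          calc a * e 1 * c * e 1 = a * (e 1 * c * e 1) := by simp only [mul_assoc]
            _ = a * u * e 1 * 1 := by rw [h0, mul_one, mul_assoc]

/-- `e 2 c e 2` for `c` in `TLB 1`. -/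
theorem BRel.s2 (H : BRel d dinv e b b0) {c : R} (hc : c ∈ TLB d dinv e b 1) :
    e 2 * c * e 2 = 0 ∨ ∃ u, IsU d dinv u ∧ e 2 * c * e 2 = u * e 2 := by
  rcases H.jones0 hc with hc0 | ⟨x, hx, y, hy, rfl⟩
  · rcases H.mem_zero hc0 with rfl | hu | ⟨u, hu, i, rfl⟩
    · exact Or.inl (by simp)
    · refine Or.inr ⟨c * d, H.isU_mul hu isU_d, ?_⟩
      rw [← H.isU_comm hu (e 2), mul_assoc, H.tl.sq 2 (by omega), mul_assoc]
    · refine Or.inr ⟨u * dinv, H.isU_mul hu isU_dinv, ?_⟩
      calc e 2 * (u * b i) * e 2 = e 2 * u * b i * e 2 := by simp only [mul_assoc]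
        _ = u * e 2 * b i * e 2 := by rw [H.isU_comm hu (e 2)]
        _ = u * (e 2 * b i * e 2) := by simp only [mul_assoc]
        _ = u * dinv * e 2 := by rw [H.ebe, mul_assoc]
  · rcases H.left1 hx with h0 | ⟨u, hu, h0⟩
    · refine Or.inl ?_
      rw [h0]; simp
    · rcases H.right1 hy with h1 | ⟨v, hv, h1⟩
      · refine Or.inl ?_
        have : x * e 1 * y = 0 := by rw [mul_assoc, h1, mul_zero]
        rw [this]; simp
      · refine Or.inr ⟨u * v, H.isU_mul hu hv, ?_⟩
        have h2 : x * e 1 * y = u * v * e 1 := by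
          rw [h0, mul_assoc, h1, mul_assoc]
        have huv := H.isU_mul hu hv
        rw [h2]
        calc e 2 * (u * v * e 1) * e 2 = e 2 * (u * v) * e 1 * e 2 := by
              simp only [mul_assoc]
          _ = (u * v) * e 2 * e 1 * e 2 := by rw [H.isU_comm huv (e 2)]
          _ = u * v * (e 2 * e 1 * e 2) := by simp only [mul_assoc]
          _ = u * v * e 2 := by rw [H.tl.down 1 le_rfl]

/-- Jones normal form with the boundary generator. -/
theorem BRel.jones (H : BRel d dinv e b b0) : ∀ (k : ℕ) (w : R), w ∈ TLB d dinv e b (k + 1) →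
    w ∈ TLB d dinv e b k ∨
      ∃ a ∈ TLB d dinv e b k, ∃ c ∈ TLB d dinv e b k, w = a * e (k + 1) * c := by
  intro k
  induction k with
  | zero => exact fun w hw => H.jones0 hw
  | succ k IH =>
    intro w hw
    induction hw using Submonoid.closure_induction_right with
    | one => exact Or.inl (one_mem _)
    | mul_right x hx y hy ih =>
      rcases hy with hy | ⟨i, h1, h2, rfl⟩
      · have hy' : y ∈ TLB d dinv e b (k + 1) := Submonoid.subset_closure (Or.inl hy)
        rcases ih with ih | ⟨a, ha, c, hc, rfl⟩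
        · exact Or.inl (mul_mem ih hy')
        · exact Or.inr ⟨a, ha, c * y, mul_mem hc hy', by simp only [mul_assoc]⟩
      · by_cases hi : i = k + 1 + 1
        · subst hi
          rcases ih with ih | ⟨a, ha, c, hc, rfl⟩
          · exact Or.inr ⟨x, ih, 1, one_mem _, by simp⟩
          · rcases Nat.eq_zero_or_pos k with hk | hk
            · subst hk
              rcases H.s2 hc with h0 | ⟨u, hu, h0⟩
              · refine Or.inl ?_
                have : a * e (0 + 1 + 1) * c * e (0 + 1 + 1) = 0 := by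
                  calc a * e 2 * c * e 2 = a * (e 2 * c * e 2) := by simp only [mul_assoc]
                    _ = 0 := by rw [h0, mul_zero]
                rw [this]
                exact zero_mem_TLB _
              · refine Or.inr ⟨a * u, mul_mem ha (isU_mem_TLB hu _), 1, one_mem _, ?_⟩
                calc a * e 2 * c * e 2 = a * (e 2 * c * e 2) := by simp only [mul_assoc]
                  _ = a * u * e 2 * 1 := by rw [h0, mul_one, mul_assoc]
            · rcases IH c hc with hc' | ⟨b1, hb1, b2, hb2, rfl⟩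
              · refine Or.inr ⟨a * c * d, mul_mem (mul_mem ha hc) (d_mem_TLB _), 1, one_mem _,
                  ?_⟩
                have hcc := H.comm_mem (j := k + 1 + 1) (by omega) (by omega) hc'
                have hs : e (k + 1 + 1) * e (k + 1 + 1) = d * e (k + 1 + 1) :=
                  H.tl.sq _ (by omega)
                calc a * e (k + 1 + 1) * c * e (k + 1 + 1)
                    = a * e (k + 1 + 1) * (c * e (k + 1 + 1)) := by simp only [mul_assoc]
                  _ = a * e (k + 1 + 1) * (e (k + 1 + 1) * c) := by rw [hcc]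
                  _ = a * (e (k + 1 + 1) * e (k + 1 + 1)) * c := by simp only [mul_assoc]
                  _ = a * (d * e (k + 1 + 1)) * c := by rw [hs]
                  _ = a * d * (e (k + 1 + 1) * c) := by simp only [mul_assoc]
                  _ = a * d * (c * e (k + 1 + 1)) := by rw [hcc]
                  _ = a * (d * c) * e (k + 1 + 1) := by simp only [mul_assoc]
                  _ = a * (c * d) * e (k + 1 + 1) := by rw [H.dc c]
                  _ = a * c * d * e (k + 1 + 1) * 1 := by simp only [mul_assoc, mul_one]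
              · refine Or.inr ⟨a * b1, mul_mem ha (TLB_mono (Nat.le_succ _) hb1), b2,
                  TLB_mono (Nat.le_succ _) hb2, ?_⟩
                have hc1 := H.comm_mem (j := k + 1 + 1) (by omega) (by omega) hb1
                have hc2 := H.comm_mem (j := k + 1 + 1) (by omega) (by omega) hb2
                have hs : e (k + 1 + 1) * e (k + 1) * e (k + 1 + 1) = e (k + 1 + 1) :=
                  H.tl.down _ (by omega)
                calc a * e (k + 1 + 1) * (b1 * e (k + 1) * b2) * e (k + 1 + 1)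
                    = a * (e (k + 1 + 1) * b1) * e (k + 1) * (b2 * e (k + 1 + 1)) := by
                      simp only [mul_assoc]
                  _ = a * (b1 * e (k + 1 + 1)) * e (k + 1) * (e (k + 1 + 1) * b2) := by
                      rw [hc1, hc2]
                  _ = a * b1 * (e (k + 1 + 1) * e (k + 1) * e (k + 1 + 1)) * b2 := by
                      simp only [mul_assoc]
                  _ = a * b1 * e (k + 1 + 1) * b2 := by rw [hs]
        · have hi' : i ≤ k + 1 := by omega
          rcases ih with ih | ⟨a, ha, c, hc, rfl⟩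
          · exact Or.inl (mul_mem ih (e_mem_TLB h1 hi'))
          · exact Or.inr ⟨a, ha, c * e i, mul_mem hc (e_mem_TLB h1 hi'), by
              simp only [mul_assoc]⟩

theorem BRel.sandwich (H : BRel d dinv e b b0) {k : ℕ} {w : R}
    (hw : w ∈ TLB d dinv e b (k + 1)) :
    ∃ w' ∈ TLB d dinv e b k, e (k + 2) * w * e (k + 2) = w' * e (k + 2) := by
  rcases Nat.eq_zero_or_pos k with hk | hk
  · subst hk
    rcases H.s2 hw with h0 | ⟨u, hu, h0⟩
    · exact ⟨0, zero_mem_TLB 0, by rw [zero_mul]; exact h0⟩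
    · exact ⟨u, isU_mem_TLB hu 0, h0⟩
  · rcases H.jones k w hw with hw' | ⟨a, ha, c, hc, rfl⟩
    · refine ⟨w * d, mul_mem hw' (d_mem_TLB _), ?_⟩
      rw [← H.comm_mem (j := k + 2) (by omega) (by omega) hw', mul_assoc, H.tl.sq _ (by omega),
        mul_assoc]
    · refine ⟨a * c, mul_mem ha hc, ?_⟩
      have hca := H.comm_mem (j := k + 2) (by omega) (by omega) ha
      have hcb := H.comm_mem (j := k + 2) (by omega) (by omega) hc
      have hs : e (k + 2) * e (k + 1) * e (k + 2) = e (k + 2) := H.tl.down _ (by omega)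
      calc e (k + 2) * (a * e (k + 1) * c) * e (k + 2)
          = (e (k + 2) * a) * e (k + 1) * (c * e (k + 2)) := by simp only [mul_assoc]
        _ = (a * e (k + 2)) * e (k + 1) * (e (k + 2) * c) := by rw [hca, hcb]
        _ = a * (e (k + 2) * e (k + 1) * e (k + 2)) * c := by simp only [mul_assoc]
        _ = a * (e (k + 2) * c) := by rw [hs, mul_assoc]
        _ = a * c * e (k + 2) := by rw [← hcb, mul_assoc]

theorem BRel.sandwich' (H : BRel d dinv e b b0) {k : ℕ} {w : R}
    (hw : w ∈ TLB d dinv e b (k + 2)) :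
    ∃ w' ∈ TLB d dinv e b k, e (k + 2) * w * e (k + 2) = w' * e (k + 2) := by
  rcases H.jones (k + 1) w hw with hw' | ⟨a, ha, c, hc, rfl⟩
  · exact H.sandwich hw'
  · obtain ⟨a', ha', h1⟩ := H.sandwich ha
    obtain ⟨c', hc', h2⟩ := H.sandwich hc
    refine ⟨a' * c', mul_mem ha' hc', ?_⟩
    calc e (k + 2) * (a * e (k + 1 + 1) * c) * e (k + 2)
        = (e (k + 2) * a * e (k + 2)) * c * e (k + 2) := by simp only [mul_assoc]
      _ = a' * (e (k + 2) * c * e (k + 2)) := by rw [h1]; simp only [mul_assoc]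
      _ = a' * c' * e (k + 2) := by rw [h2]; simp only [mul_assoc]

/-- `e 2 w e 2` for `w` in `TLB 2`. -/
theorem BRel.s22 (H : BRel d dinv e b b0) {w : R} (hw : w ∈ TLB d dinv e b 2) :
    e 2 * w * e 2 = 0 ∨ ∃ u, IsU d dinv u ∧ e 2 * w * e 2 = u * e 2 := by
  rcases H.jones 1 w hw with hw' | ⟨a, ha, c, hc, rfl⟩
  · exact H.s2 hw'
  · have hr : e 2 * (a * e (1 + 1) * c) * e 2 = (e 2 * a * e 2) * c * e 2 := by
      simp only [mul_assoc]
    rw [hr]
    rcases H.s2 ha with h0 | ⟨u, hu, h0⟩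
    · exact Or.inl (by rw [h0, zero_mul, zero_mul])
    · rw [h0]
      have hr2 : u * e 2 * c * e 2 = u * (e 2 * c * e 2) := by simp only [mul_assoc]
      rw [hr2]
      rcases H.s2 hc with h1 | ⟨v, hv, h1⟩
      · exact Or.inl (by rw [h1, mul_zero])
      · exact Or.inr ⟨u * v, H.isU_mul hu hv, by rw [h1, mul_assoc]⟩

theorem BRel.sandwich_aux (H : BRel d dinv e b b0) : ∀ (m : ℕ) (w : R),
    w ∈ TLB d dinv e b (2 * (m + 1)) →
    TLX e (2 * (m + 1)) * w * TLX e (2 * (m + 1)) = 0 ∨
      ∃ u, IsU d dinv u ∧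
        TLX e (2 * (m + 1)) * w * TLX e (2 * (m + 1)) = u * TLX e (2 * (m + 1)) := by
  intro m
  induction m with
  | zero =>
    intro w hw
    have hX : TLX e (2 * (0 + 1)) = e 2 := by
      change e 2 * TLX e 0 = e 2
      simp [TLX]
    rw [hX]
    exact H.s22 hw
  | succ m IH =>
    intro w hw
    obtain ⟨w', hw', h⟩ := H.sandwich' (k := 2 * (m + 1)) hw
    have hX := H.comm_mem (j := 2 * (m + 1) + 2) le_rfl (by omega)
      (TLX_mem_TLB (d := d) (dinv := dinv) (e := e) (b := b) (2 * (m + 1)))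
    have hdef : TLX e (2 * (m + 1 + 1)) = e (2 * (m + 1) + 2) * TLX e (2 * (m + 1)) := rfl
    have key : TLX e (2 * (m + 1 + 1)) * w * TLX e (2 * (m + 1 + 1))
        = (TLX e (2 * (m + 1)) * w' * TLX e (2 * (m + 1))) * e (2 * (m + 1) + 2) := by
      rw [hdef]
      calc (e (2 * (m + 1) + 2) * TLX e (2 * (m + 1))) * w *
            (e (2 * (m + 1) + 2) * TLX e (2 * (m + 1)))
          = (TLX e (2 * (m + 1)) * e (2 * (m + 1) + 2)) * w *
              (e (2 * (m + 1) + 2) * TLX e (2 * (m + 1))) := by rw [hX]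
        _ = TLX e (2 * (m + 1)) * (e (2 * (m + 1) + 2) * w * e (2 * (m + 1) + 2)) *
              TLX e (2 * (m + 1)) := by simp only [mul_assoc]
        _ = TLX e (2 * (m + 1)) * (w' * e (2 * (m + 1) + 2)) * TLX e (2 * (m + 1)) := by rw [h]
        _ = TLX e (2 * (m + 1)) * w' * (e (2 * (m + 1) + 2) * TLX e (2 * (m + 1))) := by
            simp only [mul_assoc]
        _ = TLX e (2 * (m + 1)) * w' * (TLX e (2 * (m + 1)) * e (2 * (m + 1) + 2)) := by
            rw [hX]
        _ = (TLX e (2 * (m + 1)) * w' * TLX e (2 * (m + 1))) * e (2 * (m + 1) + 2) := by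
            simp only [mul_assoc]
    rcases IH w' hw' with h0 | ⟨u, hu, h0⟩
    · exact Or.inl (by rw [key, h0, zero_mul])
    · refine Or.inr ⟨u, hu, ?_⟩
      rw [key, h0, hdef, mul_assoc, hX]

end

theorem BRel.sandwich_X {R : Type*} [Ring R] {B : Type} {d dinv : R} {e : ℕ → R} {b : B → R}
    {b0 : B} (H : BRel d dinv e b b0) (m : ℕ) (hm : 1 ≤ m) (w : R)
    (hw : w ∈ TLB d dinv e b (2 * m)) :
    TLX e (2 * m) * w * TLX e (2 * m) = 0 ∨
      ∃ i j : ℕ, TLX e (2 * m) * w * TLX e (2 * m) = d ^ i * dinv ^ j * TLX e (2 * m) := by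
  obtain ⟨n, rfl⟩ : ∃ n, m = n + 1 := ⟨m - 1, by omega⟩
  rcases H.sandwich_aux n w hw with h0 | ⟨u, ⟨i, j, rfl⟩, h0⟩
  · exact Or.inl h0
  · exact Or.inr ⟨i, j, h0⟩

end Pool.Agent.Helper55.BLE
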