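import Mathlib
import Pool.Agent.Helper55.BLE.Defs

/-!
The boundary generators in the colouring representations.  Adaptation of `BLD/ColPin.lean`.
-/

set_option autoImplicit false

namespace Pool.Agent.Helper55.BLE

open Pool.Agent.Helper70.BLB
open Pool.Agent.Helper55.BLD

variable {B C : Type} [Fintype C] [DecidableEq C]

theorem cPn_apply (τ : B → C → C) (b : B) (i : ℕ) (ψ : (ℕ → C) → ℝ) (c : ℕ → C) :
    cPn C τ b i ψ c = if c i = τ b (c 0) then ψ c else 0 := rfl

theorem cB_rel {τ : B → C → C} {b0 : B} (hτ : TauOK τ b0) {δ : ℝ} (hδ : 0 < δ)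
    (hc : δ ^ 2 = Fintype.card C) :
    BRel (R := Module.End ℝ ((ℕ → C) → ℝ)) (δ • 1) (δ⁻¹ • 1) (cE C δ)
      (fun b => cPn C τ b 1) b0 where
  tl := cE_TLRel hδ hc
  dd := by rw [smul_mul_smul_comm, one_mul, mul_inv_cancel₀ hδ.ne', one_smul]
  dc x := by simp
  dic x := by simp
  bb i := by
    ext ψ c
    simp only [Module.End.mul_apply, cPn_apply]
    split_ifs <;> rfl
  bne i j hij := by
    ext ψ c
    simp only [Module.End.mul_apply, cPn_apply, LinearMap.zero_apply, Pi.zero_apply]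
    split_ifs with h1 h2
    · exact absurd (h1.symm.trans h2) (hτ.ne i j _ hij)
    · rfl
    · rfl
  be i hi := by
    rw [show cE C δ 1 = δ • cJ C 0 from cE_odd δ 0]
    ext ψ c
    simp only [Module.End.mul_apply, cPn_apply, LinearMap.smul_apply, Pi.smul_apply, cJ_apply,
      LinearMap.zero_apply, Pi.zero_apply, smul_eq_mul, zero_add]
    split_ifs with h1 h2
    · exact absurd ((h2.trans h1).symm.trans (hτ.id0 _).symm) (hτ.ne i b0 _ hi)
    · simp
    · rfl
  eb i hi := by
    rw [show cE C δ 1 = δ • cJ C 0 from cE_odd δ 0]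
    ext ψ c
    simp only [Module.End.mul_apply, cPn_apply, LinearMap.smul_apply, Pi.smul_apply, cJ_apply,
      LinearMap.zero_apply, Pi.zero_apply, smul_eq_mul, zero_add]
    split_ifs with h1 h2
    · exact absurd ((h1.trans h2).symm.trans (hτ.id0 _).symm) (hτ.ne i b0 _ hi)
    · simp
    · simp
  be0 := by
    rw [show cE C δ 1 = δ • cJ C 0 from cE_odd δ 0]
    ext ψ c
    simp only [Module.End.mul_apply, cPn_apply, LinearMap.smul_apply, Pi.smul_apply, cJ_apply,
      smul_eq_mul, zero_add, hτ.id0]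
    split_ifs with h1 h2
    · rfl
    · rfl
    · rename_i h2
      exact absurd h2.symm h1
    · simp
  eb0 := by
    rw [show cE C δ 1 = δ • cJ C 0 from cE_odd δ 0]
    ext ψ c
    simp only [Module.End.mul_apply, cPn_apply, LinearMap.smul_apply, Pi.smul_apply, cJ_apply,
      smul_eq_mul, zero_add, hτ.id0]
    split_ifs with h1 h2
    · rfl
    · exact absurd h1.symm h2
    · rfl
  ebe i := by
    have h2 : cE C δ 2 = δ⁻¹ • cD C 1 := cE_even δ 1
    have h3 : cD C 1 * cPn C τ i 1 * cD C 1 = cD C 1 := by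
      ext ψ c
      simp only [Module.End.mul_apply, cD_apply, cPn_apply]
      have e0 : ∀ x, (Function.update c 1 x) 0 = c 0 :=
        fun x => Function.update_of_ne (by omega) _ _
      simp only [e0, Function.update_self, Function.update_idem]
      rw [Finset.sum_ite_eq' Finset.univ (τ i (c 0)), if_pos (Finset.mem_univ _)]
    rw [h2, smul_mul_assoc, smul_mul_smul_comm, h3, smul_mul_smul_comm, one_mul]
  bc b j hj := by
    rcases Nat.even_or_odd' j with ⟨i, rfl | rfl⟩
    · rw [cE_even, mul_smul_comm, smul_mul_assoc]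
      congr 1
      ext ψ c
      simp only [Module.End.mul_apply, cD_apply, cPn_apply]
      have e0 : ∀ x, (Function.update c i x) 0 = c 0 :=
        fun x => Function.update_of_ne (by omega) _ _
      have e1 : ∀ x, (Function.update c i x) 1 = c 1 :=
        fun x => Function.update_of_ne (by omega) _ _
      simp only [e0, e1]
      split_ifs
      · rfl
      · simp
    · rw [cE_odd, mul_smul_comm, smul_mul_assoc]
      congr 1
      ext ψ c
      simp only [Module.End.mul_apply, cJ_apply, cPn_apply]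
      split_ifs <;> rfl

theorem WP_color {τ : B → C → C} {δ : ℝ} (hδ : δ ≠ 0) (ops : List (OpP B)) :
    WP (δ • 1) (δ⁻¹ • 1) (cE C δ) (cPn C τ) ops = cWP C τ ops := by
  unfold WP cWP
  congr 1
  apply List.map_congr_left
  intro o _
  cases o with
  | J i =>
    simp only [OpP.val, cvalP]
    rw [cE_odd, smul_mul_smul_comm, one_mul, inv_mul_cancel₀ hδ, one_smul]
  | H i =>
    simp only [OpP.val, cvalP]
    rw [cE_odd, smul_mul_smul_comm, one_mul, inv_mul_cancel₀ hδ, one_smul]
  | D i =>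
    simp only [OpP.val, cvalP]
    rw [cE_even, smul_mul_smul_comm, one_mul, mul_inv_cancel₀ hδ, one_smul]
  | V i =>
    simp only [OpP.val, cvalP]
    rw [cE_even, smul_mul_smul_comm, one_mul, mul_inv_cancel₀ hδ, one_smul]
  | P b i => rfl

/-- In the colouring representation the universal polynomial gives the number of trajectories. -/
theorem color_evalP {τ : B → C → C} {δ : ℝ} (hδ : 0 < δ) (hc : δ ^ 2 = Fintype.card C) {m : ℕ}
    {ops : List (OpP B)} {K : ℕ} {q : ℝ}
    (h : δ ^ K • (TLX (cE C δ) (2 * m) * WP (δ • 1) (δ⁻¹ • 1) (cE C δ) (cPn C τ) ops *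
        TLX (cE C δ) (2 * m)) = q • TLX (cE C δ) (2 * m)) (c : ℕ → C) :
    δ ^ K * cS C m (cWP C τ ops (fun _ => 1)) c = q * δ ^ m := by
  have h1 := congrArg (fun (f : Module.End ℝ ((ℕ → C) → ℝ)) => f (fun _ => 1) c) h
  have hX1 : TLX (cE C δ) (2 * m) (fun _ => 1) = fun _ => δ ^ m := by
    funext c'
    rw [TLX_cE]
    have : ((δ⁻¹) ^ m • cS C m) (fun _ => (1 : ℝ)) c' =
      (δ⁻¹) ^ m * cS C m (fun _ => 1) c' := rfl
    rw [this, cS_apply, Finset.sum_const, Finset.card_univ, Fintype.card_fun, Fintype.card_fin,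
      nsmul_eq_mul, mul_one]
    push_cast
    rw [← hc, ← pow_mul, mul_comm 2 m, mul_two, pow_add, inv_pow]
    field_simp
  have h2 : (δ ^ K • (TLX (cE C δ) (2 * m) * WP (δ • 1) (δ⁻¹ • 1) (cE C δ) (cPn C τ) ops *
        TLX (cE C δ) (2 * m)) : Module.End ℝ ((ℕ → C) → ℝ)) (fun _ => 1) c =
      δ ^ K * TLX (cE C δ) (2 * m) (WP (δ • 1) (δ⁻¹ • 1) (cE C δ) (cPn C τ) ops
        (TLX (cE C δ) (2 * m) (fun _ => 1))) c := rfl
  have h3 : (q • TLX (cE C δ) (2 * m) : Module.End ℝ ((ℕ → C) → ℝ)) (fun _ => 1) c =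
      q * TLX (cE C δ) (2 * m) (fun _ => 1) c := rfl
  have h4 := h2.symm.trans (h1.trans h3)
  rw [hX1] at h4
  have h5 : (fun _ : ℕ → C => δ ^ m) = δ ^ m • (fun _ : ℕ → C => (1 : ℝ)) := by
    funext; simp
  rw [h5, map_smul, map_smul, WP_color hδ.ne', TLX_cE] at h4
  simp only [LinearMap.smul_apply, Pi.smul_apply, smul_eq_mul] at h4
  have h6 : δ ^ m * ((δ⁻¹) ^ m * cS C m (cWP C τ ops fun _ => 1) c) =
      cS C m (cWP C τ ops fun _ => 1) c := by
    rw [← mul_assoc, ← mul_pow, mul_inv_cancel₀ hδ.ne', one_pow, one_mul]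
  rw [h6, mul_one] at h4
  exact h4

end Pool.Agent.Helper55.BLE
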