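import Mathlib
import Pool.Agent.Helper55.BLE.BAlg
import Pool.Agent.Helper55.BLE.GPin
import Pool.Agent.Helper55.BLE.ColPin

/-!
The evaluation of a network with pins is one polynomial in all representations.  Adaptation of
`BLD/PTransfer.lean`.
-/

set_option autoImplicit false

namespace Pool.Agent.Helper55.BLE

open Pool.Agent.Helper70.BLB Polynomial
open Pool.Agent.Helper55.BLD

/-- The loop value for `card B + n` colours. -/
noncomputable def bδ (B : Type) [Fintype B] (n : ℕ) : ℝ :=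
  Real.sqrt ((Fintype.card B : ℝ) + n)

theorem bδ_sq (B : Type) [Fintype B] (n : ℕ) : bδ B n ^ 2 = (Fintype.card B : ℝ) + n := by
  unfold bδ
  exact Real.sq_sqrt (by positivity)

theorem bδ_pos {B : Type} [Fintype B] [Nonempty B] (n : ℕ) : 0 < bδ B n := by
  unfold bδ
  apply Real.sqrt_pos.2
  have : 0 < Fintype.card B := Fintype.card_pos
  positivity

theorem bδ_sq' (B : Type) [Fintype B] (n : ℕ) :
    bδ B n ^ 2 = (Fintype.card (B ⊕ Fin n) : ℝ) := by
  rw [bδ_sq, Fintype.card_sum, Fintype.card_fin]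
  push_cast
  rfl

/-- The colouring algebra with the colours `B ⊕ Fin n`. -/
abbrev CAlP (B : Type) (n : ℕ) : Type := Module.End ℝ ((ℕ → B ⊕ Fin n) → ℝ)

/-- The height algebra. -/
abbrev HAlP (A : Type) : Type := Module.End ℝ ((ℕ → A) → ℝ)

/-- All colouring algebras and the height algebra together. -/
abbrev BigP (A B : Type) : Type := (∀ n : ℕ, CAlP B n) × HAlP A

section General

theorem OpP.map_val {R S : Type*} [Ring R] [Ring S] {B : Type} (φ : R →+* S) (d dinv : R)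
    (e : ℕ → R) (P : B → ℕ → R) (o : OpP B) : φ (o.val d dinv e P) =
      o.val (φ d) (φ dinv) (fun k => φ (e k)) (fun b i => φ (P b i)) := by
  cases o <;> simp [OpP.val]

theorem map_WP {R S : Type*} [Ring R] [Ring S] {B : Type} (φ : R →+* S) (d dinv : R) (e : ℕ → R)
    (P : B → ℕ → R) (ops : List (OpP B)) : φ (WP d dinv e P ops) =
      WP (φ d) (φ dinv) (fun k => φ (e k)) (fun b i => φ (P b i)) ops := by
  unfold WP
  rw [map_list_prod, List.map_map]
  congr 1
  apply List.map_congr_left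
  intro o _
  exact OpP.map_val φ d dinv e P o

end General

section Big

variable {A B : Type} (nb : A → Finset A) (S : A → ℝ) (δ : ℝ) (o : A) (lv : B → A)
  (τ : ∀ n : ℕ, B → (B ⊕ Fin n) → (B ⊕ Fin n))

noncomputable def bD (A B : Type) [Fintype B] (δ : ℝ) : BigP A B := (fun n => bδ B n • 1, δ • 1)
noncomputable def bDinv (A B : Type) [Fintype B] (δ : ℝ) : BigP A B :=
  (fun n => (bδ B n)⁻¹ • 1, δ⁻¹ • 1)
noncomputable def bE (B : Type) [Fintype B] [DecidableEq B] [DecidableEq A] (k : ℕ) : BigP A B :=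
  (fun n => cE (B ⊕ Fin n) (bδ B n) k, gE nb S o k)
noncomputable def bP [DecidableEq B] [DecidableEq A] (b : B) (i : ℕ) : BigP A B :=
  (fun n => cPn (B ⊕ Fin n) (τ n) b i, gP lv b i)

end Big

variable {A B : Type} [DecidableEq A] [Fintype B] [DecidableEq B]

theorem big_BRel {nb : A → Finset A} {S : A → ℝ} {δ : ℝ} {vt : A → Prop} {lv : B → A}
    {c g f : A} (H : HGood nb S δ vt lv c g f) (b0 : B)
    {τ : ∀ n : ℕ, B → (B ⊕ Fin n) → (B ⊕ Fin n)} (hτ : ∀ n, TauOK (τ n) b0) :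
    BRel (bD A B δ) (bDinv A B δ) (bE nb S (lv b0) B) (fun b => bP lv τ b 1) b0 := by
  have : Nonempty B := ⟨b0⟩
  have hC : ∀ n : ℕ, BRel (R := CAlP B n) (bδ B n • 1) ((bδ B n)⁻¹ • 1)
      (cE (B ⊕ Fin n) (bδ B n)) (fun b => cPn (B ⊕ Fin n) (τ n) b 1) b0 := fun n =>
    cB_rel (hτ n) (bδ_pos n) (bδ_sq' B n)
  have hH := gB_rel H b0
  exact
    { tl :=
        { dcomm := fun i => Prod.ext (funext fun n => (hC n).tl.dcomm i) (hH.tl.dcomm i)
          sq := fun i hi => Prod.ext (funext fun n => (hC n).tl.sq i hi) (hH.tl.sq i hi)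
          up := fun i hi => Prod.ext (funext fun n => (hC n).tl.up i hi) (hH.tl.up i hi)
          down := fun i hi => Prod.ext (funext fun n => (hC n).tl.down i hi) (hH.tl.down i hi)
          comm := fun i j hi hij => Prod.ext (funext fun n => (hC n).tl.comm i j hi hij)
            (hH.tl.comm i j hi hij) }
      dd := Prod.ext (funext fun n => (hC n).dd) hH.dd
      dc := fun x => Prod.ext (funext fun n => (hC n).dc (x.1 n)) (hH.dc x.2)
      dic := fun x => Prod.ext (funext fun n => (hC n).dic (x.1 n)) (hH.dic x.2)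
      bb := fun i => Prod.ext (funext fun n => (hC n).bb i) (hH.bb i)
      bne := fun i j hij => Prod.ext (funext fun n => (hC n).bne i j hij) (hH.bne i j hij)
      be := fun i hi => Prod.ext (funext fun n => (hC n).be i hi) (hH.be i hi)
      eb := fun i hi => Prod.ext (funext fun n => (hC n).eb i hi) (hH.eb i hi)
      be0 := Prod.ext (funext fun n => (hC n).be0) hH.be0
      eb0 := Prod.ext (funext fun n => (hC n).eb0) hH.eb0
      ebe := fun i => Prod.ext (funext fun n => (hC n).ebe i) (hH.ebe i)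
      bc := fun i j hj => Prod.ext (funext fun n => (hC n).bc i j hj) (hH.bc i j hj) }

/-- The sandwich of `x` is given by one polynomial in all representations. -/
def GoodP (nb : A → Finset A) (S : A → ℝ) (δ : ℝ) (o : A) (m : ℕ) (x : BigP A B) : Prop :=
  ∃ (Q : ℝ[X]) (K : ℕ),
    (∀ n, bδ B n ^ K • (TLX (cE (B ⊕ Fin n) (bδ B n)) (2 * m) * x.1 n *
        TLX (cE (B ⊕ Fin n) (bδ B n)) (2 * m)) =
      Q.eval (bδ B n) • TLX (cE (B ⊕ Fin n) (bδ B n)) (2 * m)) ∧
    δ ^ K • (TLX (gE nb S o) (2 * m) * x.2 * TLX (gE nb S o) (2 * m)) =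
      Q.eval δ • TLX (gE nb S o) (2 * m)

section

variable {nb : A → Finset A} {S : A → ℝ} {δ : ℝ} {o : A}

theorem bE_TLX_fst (m n : ℕ) :
    (TLX (bE nb S o B) m).1 n = TLX (cE (B ⊕ Fin n) (bδ B n)) m :=
  map_TLX ((Pi.evalMonoidHom (fun n : ℕ => CAlP B n) n).comp (MonoidHom.fst _ _)) (bE nb S o B) m

theorem bE_TLX_snd (m : ℕ) : (TLX (bE nb S o B) m).2 = TLX (gE nb S o) m :=
  map_TLX (MonoidHom.snd (∀ n : ℕ, CAlP B n) (HAlP A)) (bE nb S o B) m

theorem GoodP.of_mem {vt : A → Prop} {lv : B → A} {c g f : A} (H : HGood nb S δ vt lv c g f)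
    (b0 : B) {τ : ∀ n : ℕ, B → (B ⊕ Fin n) → (B ⊕ Fin n)} (hτ : ∀ n, TauOK (τ n) b0) {m : ℕ}
    (hm : 1 ≤ m) {w : BigP A B} (hw : w ∈ TLB (bD A B δ) (bDinv A B δ) (bE nb S (lv b0) B)
      (fun b => bP lv τ b 1) (2 * m)) : GoodP nb S δ (lv b0) m w := by
  have : Nonempty B := ⟨b0⟩
  rcases (big_BRel H b0 hτ).sandwich_X m hm w hw with h0 | ⟨i, j, hj⟩
  · refine ⟨0, 0, fun n => ?_, ?_⟩
    · have h1 : (TLX (bE nb S (lv b0) B) (2 * m)).1 n * w.1 n *
          (TLX (bE nb S (lv b0) B) (2 * m)).1 n = 0 :=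
        congrArg (fun z : BigP A B => z.1 n) h0
      rw [bE_TLX_fst] at h1
      rw [h1, eval_zero, zero_smul, smul_zero]
    · have h1 : (TLX (bE nb S (lv b0) B) (2 * m)).2 * w.2 *
          (TLX (bE nb S (lv b0) B) (2 * m)).2 = 0 :=
        congrArg (fun z : BigP A B => z.2) h0
      rw [bE_TLX_snd] at h1
      rw [h1, eval_zero, zero_smul, smul_zero]
  · have hδ := H.hδ
    have hne : δ ≠ 0 := by linarith
    refine ⟨X ^ i, j, fun n => ?_, ?_⟩
    · have h1 : (TLX (bE nb S (lv b0) B) (2 * m)).1 n * w.1 n *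
          (TLX (bE nb S (lv b0) B) (2 * m)).1 n =
          (bδ B n • (1 : CAlP B n)) ^ i * ((bδ B n)⁻¹ • (1 : CAlP B n)) ^ j *
            (TLX (bE nb S (lv b0) B) (2 * m)).1 n := congrArg (fun z : BigP A B => z.1 n) hj
      rw [bE_TLX_fst] at h1
      have hcne := (bδ_pos (B := B) n).ne'
      rw [h1, eval_pow, eval_X, _root_.smul_pow, _root_.smul_pow, one_pow, one_pow,
        smul_mul_smul_comm, one_mul, smul_mul_assoc, one_mul, smul_smul]
      congr 1
      rw [inv_pow]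
      field_simp
    · have h1 : (TLX (bE nb S (lv b0) B) (2 * m)).2 * w.2 *
          (TLX (bE nb S (lv b0) B) (2 * m)).2 =
          (δ • (1 : HAlP A)) ^ i * (δ⁻¹ • (1 : HAlP A)) ^ j *
            (TLX (bE nb S (lv b0) B) (2 * m)).2 := congrArg (fun z : BigP A B => z.2) hj
      rw [bE_TLX_snd] at h1
      rw [h1, eval_pow, eval_X, _root_.smul_pow, _root_.smul_pow, one_pow, one_pow,
        smul_mul_smul_comm, one_mul, smul_mul_assoc, one_mul, smul_smul]
      congr 1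
      rw [inv_pow]
      field_simp

theorem GoodP.d_mul {m : ℕ} {x : BigP A B} (hx : GoodP nb S δ o m x) :
    GoodP nb S δ o m (bD A B δ * x) := by
  obtain ⟨Q, K, h1, h2⟩ := hx
  refine ⟨X * Q, K, fun n => ?_, ?_⟩
  · have : (bD A B δ * x).1 n = bδ B n • x.1 n := by
      change (bδ B n • (1 : CAlP B n)) * x.1 n = _
      rw [smul_mul_assoc, one_mul]
    rw [this, mul_smul_comm, smul_mul_assoc, smul_comm, h1, eval_mul, eval_X, mul_smul]
  · have : (bD A B δ * x).2 = δ • x.2 := by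
      change (δ • (1 : HAlP A)) * x.2 = _
      rw [smul_mul_assoc, one_mul]
    rw [this, mul_smul_comm, smul_mul_assoc, smul_comm, h2, eval_mul, eval_X, mul_smul]

theorem GoodP.dinv_mul [Nonempty B] (hδ : 2 ≤ δ) {m : ℕ} {x : BigP A B}
    (hx : GoodP nb S δ o m x) : GoodP nb S δ o m (bDinv A B δ * x) := by
  obtain ⟨Q, K, h1, h2⟩ := hx
  refine ⟨Q, K + 1, fun n => ?_, ?_⟩
  · have : (bDinv A B δ * x).1 n = (bδ B n)⁻¹ • x.1 n := by
      change ((bδ B n)⁻¹ • (1 : CAlP B n)) * x.1 n = _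
      rw [smul_mul_assoc, one_mul]
    have hne := (bδ_pos (B := B) n).ne'
    rw [this, mul_smul_comm, smul_mul_assoc, smul_smul, pow_succ, mul_assoc,
      mul_inv_cancel₀ hne, mul_one, h1]
  · have : (bDinv A B δ * x).2 = δ⁻¹ • x.2 := by
      change (δ⁻¹ • (1 : HAlP A)) * x.2 = _
      rw [smul_mul_assoc, one_mul]
    have hne : δ ≠ 0 := by linarith
    rw [this, mul_smul_comm, smul_mul_assoc, smul_smul, pow_succ, mul_assoc,
      mul_inv_cancel₀ hne, mul_one, h2]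

theorem GoodP.sub {m : ℕ} {x y : BigP A B} (hx : GoodP nb S δ o m x)
    (hy : GoodP nb S δ o m y) : GoodP nb S δ o m (x - y) := by
  obtain ⟨Q, K, h1, h2⟩ := hx
  obtain ⟨Q', K', h1', h2'⟩ := hy
  refine ⟨X ^ K' * Q - X ^ K * Q', K + K', fun n => ?_, ?_⟩
  · have h0 : (x - y).1 n = x.1 n - y.1 n := rfl
    have e1 := congrArg (fun z => bδ B n ^ K' • z) (h1 n)
    have e2 := congrArg (fun z => bδ B n ^ K • z) (h1' n)
    simp only [smul_smul] at e1 e2
    have e3 : (X ^ K' * Q - X ^ K * Q').eval (bδ B n) =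
        bδ B n ^ K' * Q.eval (bδ B n) - bδ B n ^ K * Q'.eval (bδ B n) := by simp
    rw [h0, mul_sub, sub_mul, smul_sub, e3]
    have e4 := sub_smul (bδ B n ^ K' * Q.eval (bδ B n))
      (bδ B n ^ K * Q'.eval (bδ B n))
      (TLX (cE (B ⊕ Fin n) (bδ B n)) (2 * m))
    rw [e4, ← e1, ← e2, pow_add, mul_comm (bδ B n ^ K) (bδ B n ^ K')]
  · have h0 : (x - y).2 = x.2 - y.2 := rfl
    have e1 := congrArg (fun z => δ ^ K' • z) h2
    have e2 := congrArg (fun z => δ ^ K • z) h2'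
    simp only [smul_smul] at e1 e2
    have e3 : (X ^ K' * Q - X ^ K * Q').eval δ =
        δ ^ K' * Q.eval δ - δ ^ K * Q'.eval δ := by simp
    rw [h0, mul_sub, sub_mul, smul_sub, e3]
    have e4 := sub_smul (δ ^ K' * Q.eval δ) (δ ^ K * Q'.eval δ)
      (TLX (gE nb S o) (2 * m))
    rw [e4, ← e1, ← e2, pow_add, mul_comm (δ ^ K) (δ ^ K')]

theorem GoodP.ops {vt : A → Prop} {lv : B → A} {c g f : A} (H : HGood nb S δ vt lv c g f)
    (b0 : B) {τ : ∀ n : ℕ, B → (B ⊕ Fin n) → (B ⊕ Fin n)} (hτ : ∀ n, TauOK (τ n) b0) (m : ℕ)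
    (hm : 1 ≤ m) : ∀ (ops : List (OpP B)), (∀ x ∈ ops, OpP.ok m x) →
    ∀ w ∈ TLB (bD A B δ) (bDinv A B δ) (bE nb S (lv b0) B) (fun b => bP lv τ b 1) (2 * m),
      GoodP nb S δ (lv b0) m
        (w * WP (bD A B δ) (bDinv A B δ) (bE nb S (lv b0) B) (bP lv τ) ops)
  | [], _, w, hw => by
    rw [WP_nil, mul_one]
    exact GoodP.of_mem H b0 hτ hm hw
  | (x :: ops), hok, w, hw => by
    have : Nonempty B := ⟨b0⟩
    have IH := GoodP.ops H b0 hτ m hm ops (fun o ho => hok o (List.mem_cons_of_mem _ ho))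
    have ho := hok x List.mem_cons_self
    have hB := big_BRel H b0 hτ
    have hδ := H.hδ
    rw [WP_cons]
    set W := WP (bD A B δ) (bDinv A B δ) (bE nb S (lv b0) B) (bP lv τ) ops with hWdef
    cases x with
    | J i =>
      have hi : i + 1 ≤ m := ho
      have h1 := IH (w * bE nb S (lv b0) B (2 * i + 1))
        (mul_mem hw (e_mem_TLB (by omega) (by omega)))
      have h2 := h1.dinv_mul hδ
      have h3 : w * (OpP.val (bD A B δ) (bDinv A B δ) (bE nb S (lv b0) B) (bP lv τ) (OpP.J i) *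
          W) = bDinv A B δ * (w * bE nb S (lv b0) B (2 * i + 1) * W) := by
        simp only [OpP.val]
        rw [← mul_assoc, ← mul_assoc w, ← hB.dic w, mul_assoc, mul_assoc, mul_assoc]
      rw [h3]; exact h2
    | H i =>
      have hi : i + 1 ≤ m := ho
      have h1 := IH (w * bE nb S (lv b0) B (2 * i + 1))
        (mul_mem hw (e_mem_TLB (by omega) (by omega)))
      have h2 := h1.dinv_mul hδ
      have h4 := (IH w hw).sub h2
      have h3 : w * (OpP.val (bD A B δ) (bDinv A B δ) (bE nb S (lv b0) B) (bP lv τ) (OpP.H i) *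
          W) = w * W - bDinv A B δ * (w * bE nb S (lv b0) B (2 * i + 1) * W) := by
        simp only [OpP.val]
        rw [sub_mul, one_mul, mul_sub, ← mul_assoc, ← mul_assoc w, ← hB.dic w, mul_assoc,
          mul_assoc, mul_assoc]
      rw [h3]; exact h4
    | D i =>
      obtain ⟨hi1, hi2⟩ : 1 ≤ i ∧ i ≤ m := ho
      have h1 := IH (w * bE nb S (lv b0) B (2 * i)) (mul_mem hw (e_mem_TLB (by omega) (by omega)))
      have h2 := h1.d_mul
      have h3 : w * (OpP.val (bD A B δ) (bDinv A B δ) (bE nb S (lv b0) B) (bP lv τ) (OpP.D i) *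
          W) = bD A B δ * (w * bE nb S (lv b0) B (2 * i) * W) := by
        simp only [OpP.val]
        rw [← mul_assoc, ← mul_assoc w, ← hB.dc w, mul_assoc, mul_assoc, mul_assoc]
      rw [h3]; exact h2
    | V i =>
      obtain ⟨hi1, hi2⟩ : 1 ≤ i ∧ i ≤ m := ho
      have h1 := IH (w * bE nb S (lv b0) B (2 * i)) (mul_mem hw (e_mem_TLB (by omega) (by omega)))
      have h2 := h1.d_mul
      have h4 := h2.sub (IH w hw)
      have h3 : w * (OpP.val (bD A B δ) (bDinv A B δ) (bE nb S (lv b0) B) (bP lv τ) (OpP.V i) *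
          W) = bD A B δ * (w * bE nb S (lv b0) B (2 * i) * W) - w * W := by
        simp only [OpP.val]
        rw [sub_mul, one_mul, mul_sub, ← mul_assoc, ← mul_assoc w, ← hB.dc w, mul_assoc,
          mul_assoc, mul_assoc]
      rw [h3]; exact h4
    | P b i =>
      obtain rfl : i = 1 := ho
      have h1 := IH (w * bP lv τ b 1)
        (mul_mem hw (b_mem_TLB (b := fun b => bP lv τ b 1) b (2 * m)))
      have h3 : w * (OpP.val (bD A B δ) (bDinv A B δ) (bE nb S (lv b0) B) (bP lv τ)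
          (OpP.P b 1) * W) = w * bP lv τ b 1 * W := by
        simp only [OpP.val]
        rw [mul_assoc]
      rw [h3]; exact h1

end

theorem transferP {A B : Type} [DecidableEq A] [Fintype B] [DecidableEq B]
    {nb : A → Finset A} {S : A → ℝ} {δ : ℝ} {vt : A → Prop} {lv : B → A} {c g f : A}
    (H : HGood nb S δ vt lv c g f) (b0 : B) (τ : ∀ n : ℕ, B → (B ⊕ Fin n) → (B ⊕ Fin n))
    (hτ : ∀ n, TauOK (τ n) b0) (m : ℕ) (hm : 1 ≤ m) (ops : List (OpP B))
    (hok : ∀ x ∈ ops, OpP.ok m x) :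
    ∃ (Q : ℝ[X]) (K : ℕ),
    (∀ n : ℕ, bδ B n ^ K • (TLX (cE (B ⊕ Fin n) (bδ B n)) (2 * m) *
        WP (bδ B n • 1) ((bδ B n)⁻¹ • 1) (cE (B ⊕ Fin n) (bδ B n)) (cPn (B ⊕ Fin n) (τ n)) ops *
        TLX (cE (B ⊕ Fin n) (bδ B n)) (2 * m)) =
      Q.eval (bδ B n) • TLX (cE (B ⊕ Fin n) (bδ B n)) (2 * m)) ∧
    δ ^ K • (TLX (gE nb S (lv b0)) (2 * m) * WP (δ • 1) (δ⁻¹ • 1) (gE nb S (lv b0)) (gP lv) ops *
        TLX (gE nb S (lv b0)) (2 * m)) = Q.eval δ • TLX (gE nb S (lv b0)) (2 * m) := by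
  obtain ⟨Q, K, h1, h2⟩ := GoodP.ops H b0 hτ m hm ops hok 1 (one_mem _)
  rw [one_mul] at h1 h2
  refine ⟨Q, K, fun n => ?_, ?_⟩
  · have h := h1 n
    have h5 : (WP (bD A B δ) (bDinv A B δ) (bE nb S (lv b0) B) (bP lv τ) ops).1 n =
        WP (bδ B n • 1) ((bδ B n)⁻¹ • 1) (cE (B ⊕ Fin n) (bδ B n))
          (cPn (B ⊕ Fin n) (τ n)) ops :=
      map_WP ((Pi.evalRingHom (fun n : ℕ => CAlP B n) n).comp (RingHom.fst _ _))
        (bD A B δ) (bDinv A B δ) (bE nb S (lv b0) B) (bP lv τ) ops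
    rw [h5] at h
    exact h
  · have h5 : (WP (bD A B δ) (bDinv A B δ) (bE nb S (lv b0) B) (bP lv τ) ops).2 =
        WP (δ • 1) (δ⁻¹ • 1) (gE nb S (lv b0)) (gP lv) ops :=
      map_WP (RingHom.snd (∀ n : ℕ, CAlP B n) (HAlP A))
        (bD A B δ) (bDinv A B δ) (bE nb S (lv b0) B) (bP lv τ) ops
    rw [h5] at h2
    exact h2

end Pool.Agent.Helper55.BLE
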