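import Mathlib
import Pool.Agent.Helper55.BLE.Defs
import Pool.Agent.Helper35.DInf.Leaf

/-!
The half line with leaves as a graph of heights.  The eigenvector is `Helper35.DInf.leafHG`.
-/

set_option autoImplicit false

namespace Pool.Agent.Helper55.BLE

/-- The vertex heights of the half line with leaves. -/
def instVt (B : Type) : B ⊕ ℕ → Prop
  | .inl _ => True
  | .inr k => k % 2 = 1

theorem exists_HGood (B : Type) [Fintype B] [DecidableEq B] {δ : ℝ} (hδ : 2 ≤ δ)
    (hn : 2 ≤ Fintype.card B)
    (hq : (Fintype.card B : ℝ) + 1 + 1 / ((Fintype.card B : ℝ) - 1) ≤ δ ^ 2) :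
    ∃ (A : Type) (_ : DecidableEq A) (nb : A → Finset A) (S : A → ℝ) (vt : A → Prop)
      (lv : B → A) (c g f : A), HGood nb S δ vt lv c g f := by
  refine ⟨B ⊕ ℕ, inferInstance, Helper35.DInf.leafNb B, Helper35.DInf.leafS B δ, instVt B,
    Sum.inl, .inr 0, .inr 1, .inr 2, ?_⟩
  refine
    { symm := ?_
      pos := (Helper35.DInf.leafHG B hδ hn hq).pos
      eig := (Helper35.DInf.leafHG B hδ hn hq).eig
      hδ := hδ
      nlv := fun b => rfl
      linj := Sum.inl_injective
      vlv := fun b => trivial
      vnb := ?_
      fnb := ?_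
      card := ?_
      ng := rfl
      cf := by simp
      gl := by simp }
  · exact Helper35.DInf.leafNb_symm B
  · rintro (a | _ | a) ha b h
    · rw [Helper35.DInf.leafNb, Finset.mem_singleton] at h
      subst h
      simp [instVt]
    · simp [instVt] at ha
    · rw [Helper35.DInf.leafNb, Finset.mem_insert, Finset.mem_singleton] at h
      simp only [instVt] at ha
      rcases h with rfl | rfl <;> simp only [instVt] <;> omega
  · rintro (a | _ | a) ha b h
    · simp [instVt] at ha
    · rw [Helper35.DInf.leafNb, Finset.mem_insert, Finset.mem_map] at h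
      rcases h with rfl | ⟨x, _, rfl⟩
      · simp [instVt]
      · trivial
    · rw [Helper35.DInf.leafNb, Finset.mem_insert, Finset.mem_singleton] at h
      simp only [instVt] at ha
      rcases h with rfl | rfl <;> simp only [instVt] <;> omega
  · rintro (a | _ | a) ha
    · simp [Helper35.DInf.leafNb]
    · simp [instVt] at ha
    · exact Finset.card_le_two

end Pool.Agent.Helper55.BLE
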