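import Mathlib
import Pool.Agent.Helper55.BLE.Defs

/-!
Pins may be inserted at all points of the pinned classes.  Adaptation of `BLD/PinMove.lean`.
-/

set_option autoImplicit false

namespace Pool.Agent.Helper55.BLE

open Pool.Agent.Helper70.BLB
open Pool.Agent.Helper55.BLD

section PinMoveAux

variable {R₀ : Type*} [Ring R₀] {B : Type}

/-- The value of an optional pin. -/
def pvM (P : B → ℕ → R₀) (i : ℕ) : Option B → R₀
  | some b => P b i
  | none => 1

/-- The product of the pins of row `j` at the sites `1, ..., k`. -/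
def pinsM (P : B → ℕ → R₀) (S : ℕ → ℕ → Option B) (j : ℕ) : ℕ → R₀
  | 0 => 1
  | (k + 1) => pinsM P S j k * pvM P (k + 1) (S (k + 1) j)

/-- The vertical operations between the rows `j` and `j + 1` without pins. -/
noncomputable def vertM (B : Type) {V : Type} (G : SimpleGraph V) (L : ℕ → ℕ → Option V) (j : ℕ) :
    ℕ → List (OpP B)
  | 0 => []
  | (k + 1) => vertM B G L j k ++ vopP B G (k + 1) (L (k + 1) j) (L (k + 1) (j + 1))

variable {d dinv : R₀} {e : ℕ → R₀} {P : B → ℕ → R₀} {b0 : B}

theorem WP_pinP (i : ℕ) (o : Option B) : WP d dinv e P (pinP i o) = pvM P i o := by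
  cases o <;> simp [pinP, WP, OpP.val, pvM]

theorem WP_single (o : OpP B) : WP d dinv e P [o] = o.val d dinv e P := by
  simp [WP]

theorem cm_dinv (H : PinRel d dinv e P b0) (x : R₀) : Commute x dinv := (H.dic x).symm

theorem cm_d (H : PinRel d dinv e P b0) (x : R₀) : Commute x d := (H.dc x).symm

theorem cm_e (H : PinRel d dinv e P b0) (b : B) (i k : ℕ) (h1 : 1 ≤ k) (h2 : k ≠ 2 * i) :
    Commute (P b i) (e k) := H.comm b i k h1 h2

theorem cm_hop (H : PinRel d dinv e P b0) {V : Type} (G : SimpleGraph V) (b : B) (i k : ℕ)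
    (x y : Option V) : Commute (P b i) (WP d dinv e P (hopP B G k x y)) := by
  have hJ : Commute (P b i) (dinv * e (2 * k + 1)) :=
    Commute.mul_right (cm_dinv H _) (cm_e H b i _ (by omega) (by omega))
  unfold hopP
  split_ifs
  · rw [WP_single]; exact hJ
  · rw [WP_single]; exact Commute.sub_right (Commute.one_right _) hJ
  · rw [WP_nil]; exact Commute.one_right _

theorem cm_vop (H : PinRel d dinv e P b0) {V : Type} (G : SimpleGraph V) (b : B) (i k : ℕ)
    (hk : 1 ≤ k) (hik : k ≠ i) (x y : Option V) :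
    Commute (P b i) (WP d dinv e P (vopP B G k x y)) := by
  have hD : Commute (P b i) (d * e (2 * k)) :=
    Commute.mul_right (cm_d H _) (cm_e H b i _ (by omega) (by omega))
  unfold vopP
  split_ifs
  · rw [WP_nil]; exact Commute.one_right _
  · rw [WP_single]; exact Commute.sub_right hD (Commute.one_right _)
  · rw [WP_single]; exact hD

theorem cm_pv (H : PinRel d dinv e P b0) (b : B) (i k : ℕ) (o : Option B) :
    Commute (P b i) (pvM P k o) := by
  cases o with
  | none => exact Commute.one_right _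
  | some b' => exact H.commP b i b' k

theorem cm_pins (H : PinRel d dinv e P b0) (b : B) (i : ℕ) (S : ℕ → ℕ → Option B) (j : ℕ) :
    ∀ k, Commute (P b i) (pinsM P S j k)
  | 0 => Commute.one_right _
  | (k + 1) => Commute.mul_right (cm_pins H b i S j k) (cm_pv H b i _ _)

theorem cm_hor (H : PinRel d dinv e P b0) {V : Type} (G : SimpleGraph V) (L : ℕ → ℕ → Option V)
    (b : B) (i j : ℕ) : ∀ k, Commute (P b i) (WP d dinv e P (horW B G L j k))
  | 0 => by
    have : horW B G L j 0 = [] := rfl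
    rw [this, WP_nil]; exact Commute.one_right _
  | (k + 1) => by
    have : horW B G L j (k + 1) = horW B G L j k ++ hopP B G k (L k j) (L (k + 1) j) := rfl
    rw [this, WP_append]
    exact Commute.mul_right (cm_hor H G L b i j k) (cm_hop H G b i k _ _)

theorem cm_vert (H : PinRel d dinv e P b0) {V : Type} (G : SimpleGraph V) (L : ℕ → ℕ → Option V)
    (b : B) (i j : ℕ) (hL : L i j = L i (j + 1)) (hn : L i j ≠ none) :
    ∀ k, Commute (P b i) (WP d dinv e P (vertM B G L j k))
  | 0 => by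
    have : vertM B G L j 0 = [] := rfl
    rw [this, WP_nil]; exact Commute.one_right _
  | (k + 1) => by
    have : vertM B G L j (k + 1) = vertM B G L j k ++
      vopP B G (k + 1) (L (k + 1) j) (L (k + 1) (j + 1)) := rfl
    rw [this, WP_append]
    refine Commute.mul_right (cm_vert H G L b i j hL hn k) ?_
    by_cases hk : k + 1 = i
    · subst hk
      have : vopP B G (k + 1) (L (k + 1) j) (L (k + 1) (j + 1)) = [] := by
        unfold vopP
        rw [if_pos ⟨hL, hn⟩]
      rw [this, WP_nil]; exact Commute.one_right _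
    · exact cm_vop H G b i (k + 1) (by omega) hk _ _

theorem pins_vop (H : PinRel d dinv e P b0) {V : Type} (G : SimpleGraph V)
    (S : ℕ → ℕ → Option B) (j m : ℕ) (x y : Option V) :
    ∀ k, k < m → Commute (pinsM P S j k) (WP d dinv e P (vopP B G m x y))
  | 0, _ => Commute.one_left _
  | (k + 1), hk => by
    refine Commute.mul_left (pins_vop H G S j m x y k (by omega)) ?_
    cases hS : S (k + 1) j with
    | none => exact Commute.one_left _
    | some b' => exact cm_vop H G b' (k + 1) m (by omega) (by omega) x y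

theorem step_fac (H : PinRel d dinv e P b0) {V : Type} (G : SimpleGraph V)
    (L : ℕ → ℕ → Option V) (S : ℕ → ℕ → Option B) (j : ℕ) :
    ∀ k, WP d dinv e P (stepW G L S j k) =
      WP d dinv e P (vertM B G L j k) * pinsM P S (j + 1) k
  | 0 => by simp [stepW, vertM, pinsM, WP_nil]
  | (k + 1) => by
    have h1 : stepW G L S j (k + 1) = stepW G L S j k ++
      (vopP B G (k + 1) (L (k + 1) j) (L (k + 1) (j + 1)) ++
        pinP (k + 1) (S (k + 1) (j + 1))) := rfl
    have h2 : vertM B G L j (k + 1) = vertM B G L j k ++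
      vopP B G (k + 1) (L (k + 1) j) (L (k + 1) (j + 1)) := rfl
    have h3 : pinsM P S (j + 1) (k + 1) =
      pinsM P S (j + 1) k * pvM P (k + 1) (S (k + 1) (j + 1)) := rfl
    have hc := pins_vop (dinv := dinv) H G S (j + 1) (k + 1) (L (k + 1) j)
      (L (k + 1) (j + 1)) k (Nat.lt_succ_self k)
    rw [h1, WP_append, WP_append, step_fac H G L S j k, WP_pinP, h2, WP_append, h3]
    rw [mul_assoc, ← mul_assoc (pinsM P S (j + 1) k), hc.eq]
    simp only [mul_assoc]

/-- The value of row `j + 1`. -/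
theorem row_fac (H : PinRel d dinv e P b0) {V : Type} (G : SimpleGraph V)
    (L : ℕ → ℕ → Option V) (S : ℕ → ℕ → Option B) (K t : ℕ) :
    WP d dinv e P (bodyW G L S K (t + 1)) = WP d dinv e P (bodyW G L S K t) *
      (WP d dinv e P (vertM B G L t K) * pinsM P S (t + 1) K *
        WP d dinv e P (horW B G L (t + 1) K)) := by
  have h1 : bodyW G L S K (t + 1) =
    bodyW G L S K t ++ (stepW G L S t K ++ horW B G L (t + 1) K) := rfl
  rw [h1, WP_append, WP_append, step_fac H]

theorem pins_congr {S S' : ℕ → ℕ → Option B} {j : ℕ} :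
    ∀ k, (∀ i, 1 ≤ i → i ≤ k → S' i j = S i j) → pinsM P S' j k = pinsM P S j k
  | 0, _ => rfl
  | (k + 1), h => by
    have h1 : pinsM P S' j (k + 1) = pinsM P S' j k * pvM P (k + 1) (S' (k + 1) j) := rfl
    have h2 : pinsM P S j (k + 1) = pinsM P S j k * pvM P (k + 1) (S (k + 1) j) := rfl
    rw [h1, h2, pins_congr k (fun i hi hik => h i hi (by omega)),
      h (k + 1) (by omega) le_rfl]

/-- Adding one pin multiplies the product of pins. -/
theorem pins_add (H : PinRel d dinv e P b0) {S S' : ℕ → ℕ → Option B} {i j : ℕ} {b : B}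
    (hi : 1 ≤ i) (hne : ∀ i', i' ≠ i → S' i' j = S i' j) (hn : S i j = none)
    (hb : S' i j = some b) :
    ∀ k, i ≤ k → pinsM P S' j k = P b i * pinsM P S j k
  | 0, hk => by omega
  | (k + 1), hk => by
    have h1 : pinsM P S' j (k + 1) = pinsM P S' j k * pvM P (k + 1) (S' (k + 1) j) := rfl
    have h2 : pinsM P S j (k + 1) = pinsM P S j k * pvM P (k + 1) (S (k + 1) j) := rfl
    by_cases hki : k + 1 = i
    · rw [h1, h2, pins_congr k (fun i' _ hik => hne i' (by omega))]
      have e1 : pvM P (k + 1) (S' (k + 1) j) = P b i := by rw [hki, hb]; rfl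
      have e2 : pvM P (k + 1) (S (k + 1) j) = 1 := by rw [hki, hn]; rfl
      rw [e1, e2, mul_one]
      exact (cm_pins H b i S j k).eq.symm
    · rw [h1, h2, pins_add H hi hne hn hb k (by omega), hne (k + 1) hki, mul_assoc]

/-- A pin which is present is absorbed. -/
theorem pins_abs (H : PinRel d dinv e P b0) {S : ℕ → ℕ → Option B} {i j : ℕ} {b : B}
    (hi : 1 ≤ i) (hb : S i j = some b) :
    ∀ k, i ≤ k → P b i * pinsM P S j k = pinsM P S j k
  | 0, hk => by omega
  | (k + 1), hk => by
    have h2 : pinsM P S j (k + 1) = pinsM P S j k * pvM P (k + 1) (S (k + 1) j) := rfl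
    by_cases hki : k + 1 = i
    · have e2 : pvM P (k + 1) (S (k + 1) j) = P b i := by rw [hki, hb]; rfl
      rw [h2, e2, ← mul_assoc, (cm_pins H b i S j k).eq, mul_assoc, H.idem]
    · rw [h2, ← mul_assoc, pins_abs H hi hb k (by omega)]

/-- Horizontal transport of a pin. -/
theorem hor_move (H : PinRel d dinv e P b0) {V : Type} (G : SimpleGraph V)
    (L : ℕ → ℕ → Option V) (b : B) (i j : ℕ) (hi : 1 ≤ i) (hL : L i j = L (i + 1) j)
    (hn : L i j ≠ none) :
    ∀ k, i + 1 ≤ k → P b i * WP d dinv e P (horW B G L j k) =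
      P b (i + 1) * WP d dinv e P (horW B G L j k)
  | 0, hk => by omega
  | (k + 1), hk => by
    have h1 : horW B G L j (k + 1) = horW B G L j k ++ hopP B G k (L k j) (L (k + 1) j) := rfl
    by_cases hki : k = i
    · subst hki
      have h2 : hopP B G k (L k j) (L (k + 1) j) = [OpP.J k] := by
        unfold hopP
        rw [if_pos ⟨hL, hn⟩]
      have h3 : P b k * (dinv * e (2 * k + 1)) = P b (k + 1) * (dinv * e (2 * k + 1)) := by
        rw [← mul_assoc, (cm_dinv H (P b k)).eq, mul_assoc, H.move b k hi, ← mul_assoc,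
          ← (cm_dinv H (P b (k + 1))).eq, mul_assoc]
      rw [h1, WP_append, h2, WP_single, ← mul_assoc, (cm_hor H G L b k j k).eq, mul_assoc]
      simp only [OpP.val]
      rw [h3, ← mul_assoc, ← (cm_hor H G L b (k + 1) j k).eq, mul_assoc]
    · rw [h1, WP_append, ← mul_assoc, hor_move H G L b i j hi hL hn k (by omega), mul_assoc]

/-- A pin to the root next to column `0` is absorbed. -/
theorem hor_move0 (H : PinRel d dinv e P b0) {V : Type} (G : SimpleGraph V)
    (L : ℕ → ℕ → Option V) (j : ℕ) (hL : L 0 j = L 1 j) (hn : L 0 j ≠ none) :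
    ∀ k, 1 ≤ k → P b0 1 * WP d dinv e P (horW B G L j k) = WP d dinv e P (horW B G L j k)
  | 0, hk => by omega
  | (k + 1), hk => by
    have h1 : horW B G L j (k + 1) = horW B G L j k ++ hopP B G k (L k j) (L (k + 1) j) := rfl
    by_cases hki : k = 0
    · subst hki
      have h2 : hopP B G 0 (L 0 j) (L (0 + 1) j) = [OpP.J 0] := by
        unfold hopP
        rw [if_pos ⟨hL, hn⟩]
      have h3 : P b0 1 * (dinv * e (2 * 0 + 1)) = dinv * e (2 * 0 + 1) := by
        rw [← mul_assoc, (cm_dinv H (P b0 1)).eq, mul_assoc]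
        have h4 : P b0 1 * e (2 * 0 + 1) = e (2 * 0 + 1) := H.move0
        rw [h4]
      have h5 : horW B G L j 0 = [] := rfl
      rw [h1, WP_append, h2, WP_single, h5, WP_nil, one_mul]
      simp only [OpP.val]
      exact h3
    · rw [h1, WP_append, ← mul_assoc, hor_move0 H G L j hL hn k (by omega)]

/-- Two rows of pins which only differ in rows `≥ a`, `≤ c`. -/
theorem body_congr (H : PinRel d dinv e P b0) {V : Type} (G : SimpleGraph V)
    (L : ℕ → ℕ → Option V) {S S' : ℕ → ℕ → Option B} (K a : ℕ)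
    (h0 : WP d dinv e P (bodyW G L S' K a) = WP d dinv e P (bodyW G L S K a)) :
    ∀ t, a ≤ t → (∀ i j, a < j → S' i j = S i j) →
      WP d dinv e P (bodyW G L S' K t) = WP d dinv e P (bodyW G L S K t)
  | 0, ht, _ => by
    have : a = 0 := by omega
    subst this
    exact h0
  | (t + 1), ht, hS => by
    by_cases hat : a = t + 1
    · rw [← hat]; exact h0
    · rw [row_fac H, row_fac H, body_congr H G L K a h0 t (by omega) hS,
        pins_congr (S := S) (S' := S') K (fun i _ _ => hS i (t + 1) (by omega))]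

theorem body_low (H : PinRel d dinv e P b0) {V : Type} (G : SimpleGraph V)
    (L : ℕ → ℕ → Option V) {S S' : ℕ → ℕ → Option B} (K : ℕ) :
    ∀ t, (∀ i j, j ≤ t → S' i j = S i j) →
      WP d dinv e P (bodyW G L S' K t) = WP d dinv e P (bodyW G L S K t)
  | 0, _ => rfl
  | (t + 1), hS => by
    rw [row_fac H, row_fac H, body_low H G L K t (fun i j hj => hS i j (by omega)),
      pins_congr (S := S) (S' := S') K (fun i _ _ => hS i (t + 1) le_rfl)]

/-- Data of the insertion of one pin. -/
structure Ins (S S' : ℕ → ℕ → Option B) (i j : ℕ) (b : B) : Prop where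
  ne : ∀ i' j', ¬ (i' = i ∧ j' = j) → S' i' j' = S i' j'
  non : S i j = none
  som : S' i j = some b

/-- Horizontal insertion: it suffices that the pin is absorbed by the pins and horizontal
operations of its row. -/
theorem ins_row (H : PinRel d dinv e P b0) {V : Type} (G : SimpleGraph V)
    (L : ℕ → ℕ → Option V) {S S' : ℕ → ℕ → Option B} {K R i j : ℕ} {b : B}
    (hI : Ins S S' i (j + 1) b) (hi : 1 ≤ i) (hiK : i ≤ K) (hj : j + 1 ≤ R)
    (habs : P b i * (pinsM P S (j + 1) K * WP d dinv e P (horW B G L (j + 1) K)) =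
      pinsM P S (j + 1) K * WP d dinv e P (horW B G L (j + 1) K)) :
    WP d dinv e P (bodyW G L S' K R) = WP d dinv e P (bodyW G L S K R) := by
  apply body_congr H G L K (j + 1) _ R hj
  · intro i' j' hj'
    exact hI.ne i' j' (by omega)
  · rw [row_fac H, row_fac H, body_low H G L K j (fun i' j' hj' => hI.ne i' j' (by omega)),
      pins_add H hi (fun i' hi' => hI.ne i' (j + 1) (by omega)) hI.non hI.som K hiK]
    congr 1
    rw [mul_assoc, mul_assoc, habs, mul_assoc]

theorem ins_right (H : PinRel d dinv e P b0) {V : Type} (G : SimpleGraph V)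
    (L : ℕ → ℕ → Option V) {S S' : ℕ → ℕ → Option B} {K R i j : ℕ} {b : B}
    (hI : Ins S S' i (j + 1) b) (hi : 1 ≤ i) (hiK : i + 1 ≤ K) (hj : j + 1 ≤ R)
    (hL : L i (j + 1) = L (i + 1) (j + 1)) (hn : L i (j + 1) ≠ none)
    (hb : S (i + 1) (j + 1) = some b) :
    WP d dinv e P (bodyW G L S' K R) = WP d dinv e P (bodyW G L S K R) := by
  apply ins_row H G L hI hi (by omega) hj
  rw [← mul_assoc, (cm_pins H b i S (j + 1) K).eq, mul_assoc,
    hor_move H G L b i (j + 1) hi hL hn K hiK, ← mul_assoc,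
    ← (cm_pins H b (i + 1) S (j + 1) K).eq, pins_abs H (by omega) hb K hiK]

theorem ins_left (H : PinRel d dinv e P b0) {V : Type} (G : SimpleGraph V)
    (L : ℕ → ℕ → Option V) {S S' : ℕ → ℕ → Option B} {K R i j : ℕ} {b : B}
    (hI : Ins S S' (i + 1) (j + 1) b) (hi : 1 ≤ i) (hiK : i + 1 ≤ K) (hj : j + 1 ≤ R)
    (hL : L i (j + 1) = L (i + 1) (j + 1)) (hn : L i (j + 1) ≠ none)
    (hb : S i (j + 1) = some b) :
    WP d dinv e P (bodyW G L S' K R) = WP d dinv e P (bodyW G L S K R) := by
  apply ins_row H G L hI (by omega) hiK hj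
  rw [← mul_assoc, (cm_pins H b (i + 1) S (j + 1) K).eq, mul_assoc,
    ← hor_move H G L b i (j + 1) hi hL hn K hiK, ← mul_assoc,
    ← (cm_pins H b i S (j + 1) K).eq, pins_abs H hi hb K (by omega)]

theorem ins_zero (H : PinRel d dinv e P b0) {V : Type} (G : SimpleGraph V)
    (L : ℕ → ℕ → Option V) {S S' : ℕ → ℕ → Option B} {K R j : ℕ}
    (hI : Ins S S' 1 (j + 1) b0) (hK : 1 ≤ K) (hj : j + 1 ≤ R)
    (hL : L 0 (j + 1) = L 1 (j + 1)) (hn : L 0 (j + 1) ≠ none) :
    WP d dinv e P (bodyW G L S' K R) = WP d dinv e P (bodyW G L S K R) := by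
  apply ins_row H G L hI le_rfl hK hj
  rw [← mul_assoc, (cm_pins H b0 1 S (j + 1) K).eq, mul_assoc,
    hor_move0 H G L (j + 1) hL hn K hK]

/-- Insertion below a pin (the row `j + 2` carries the pin). -/
theorem ins_down (H : PinRel d dinv e P b0) {V : Type} (G : SimpleGraph V)
    (L : ℕ → ℕ → Option V) {S S' : ℕ → ℕ → Option B} {K R i j : ℕ} {b : B}
    (hI : Ins S S' i (j + 1) b) (hi : 1 ≤ i) (hiK : i ≤ K) (hj : j + 2 ≤ R)
    (hL : L i (j + 1) = L i (j + 2)) (hn : L i (j + 1) ≠ none)
    (hb : S i (j + 2) = some b) :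
    WP d dinv e P (bodyW G L S' K R) = WP d dinv e P (bodyW G L S K R) := by
  apply body_congr H G L K (j + 2) _ R hj
  · intro i' j' hj'
    exact hI.ne i' j' (by omega)
  · have hv := cm_vert (dinv := dinv) H G L b i (j + 1) hL hn K
    have hh := cm_hor (dinv := dinv) H G L b i (j + 1) K
    have hp := cm_pins H b i S (j + 1) K
    rw [row_fac H, row_fac H, row_fac H (S := S), row_fac H (S := S),
      body_low H G L K j (fun i' j' hj' => hI.ne i' j' (by omega)),
      pins_add H hi (fun i' hi' => hI.ne i' (j + 1) (by omega)) hI.non hI.som K hiK,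
      pins_congr (S := S) (S' := S') K (fun i' _ _ => hI.ne i' (j + 1 + 1) (by omega))]
    have key : P b i * pinsM P S (j + 1) K * WP d dinv e P (horW B G L (j + 1) K) *
        (WP d dinv e P (vertM B G L (j + 1) K) * pinsM P S (j + 1 + 1) K) =
        pinsM P S (j + 1) K * WP d dinv e P (horW B G L (j + 1) K) *
        (WP d dinv e P (vertM B G L (j + 1) K) * pinsM P S (j + 1 + 1) K) := by
      have hb' : P b i * pinsM P S (j + 1 + 1) K = pinsM P S (j + 1 + 1) K :=
        pins_abs H hi hb K hiK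
      rw [hp.eq, mul_assoc (pinsM P S (j + 1) K), hh.eq, mul_assoc, mul_assoc,
        ← mul_assoc (P b i), hv.eq, mul_assoc (WP d dinv e P (vertM B G L (j + 1) K)), hb',
        ← mul_assoc (pinsM P S (j + 1) K)]
    have key2 := congrArg (fun z => z * WP d dinv e P (horW B G L (j + 1 + 1) K)) key
    simp only [mul_assoc] at key2 ⊢
    rw [key2]

/-- Insertion above a pin (the row `j + 1` carries the pin). -/
theorem ins_up (H : PinRel d dinv e P b0) {V : Type} (G : SimpleGraph V)
    (L : ℕ → ℕ → Option V) {S S' : ℕ → ℕ → Option B} {K R i j : ℕ} {b : B}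
    (hI : Ins S S' i (j + 2) b) (hi : 1 ≤ i) (hiK : i ≤ K) (hj : j + 2 ≤ R)
    (hL : L i (j + 1) = L i (j + 2)) (hn : L i (j + 1) ≠ none)
    (hb : S i (j + 1) = some b) :
    WP d dinv e P (bodyW G L S' K R) = WP d dinv e P (bodyW G L S K R) := by
  apply body_congr H G L K (j + 2) _ R hj
  · intro i' j' hj'
    exact hI.ne i' j' (by omega)
  · have hv := cm_vert (dinv := dinv) H G L b i (j + 1) hL hn K
    have hh := cm_hor (dinv := dinv) H G L b i (j + 1) K
    have hp := cm_pins H b i S (j + 1) K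
    have hadd : pinsM P S' (j + 1 + 1) K = P b i * pinsM P S (j + 1 + 1) K :=
      pins_add H hi (fun i' hi' => hI.ne i' (j + 1 + 1) (by omega)) hI.non hI.som K hiK
    rw [row_fac H, row_fac H (S := S),
      body_low H G L K (j + 1) (fun i' j' hj' => hI.ne i' j' (by omega)), hadd,
      row_fac H (S := S)]
    have habs : pinsM P S (j + 1) K * P b i = pinsM P S (j + 1) K := by
      rw [← hp.eq]
      exact pins_abs H hi hb K hiK
    have key : pinsM P S (j + 1) K * WP d dinv e P (horW B G L (j + 1) K) *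
        (WP d dinv e P (vertM B G L (j + 1) K) * P b i) =
        pinsM P S (j + 1) K * WP d dinv e P (horW B G L (j + 1) K) *
        WP d dinv e P (vertM B G L (j + 1) K) := by
      rw [← hv.eq, ← mul_assoc, mul_assoc (pinsM P S (j + 1) K), ← hh.eq, ← mul_assoc, habs]
    have key2 := congrArg (fun z => z * (pinsM P S (j + 1 + 1) K *
      WP d dinv e P (horW B G L (j + 1 + 1) K))) key
    simp only [mul_assoc] at key2 ⊢
    rw [key2]

end PinMoveAux

/-- A path from a marked point to an unmarked point has a step from marked to unmarked. -/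
theorem exists_cross {α : Type*} {r : α → α → Prop} {p : α → Prop} {a c : α}
    (h : Relation.ReflTransGen r a c) (ha : p a) (hc : ¬ p c) :
    ∃ x y, r x y ∧ p x ∧ ¬ p y := by
  induction h with
  | refl => exact absurd ha hc
  | @tail b c hab hbc ih =>
    by_cases hb : p b
    · exact ⟨b, c, hbc, hb, hc⟩
    · exact ih hb

open Classical in
/-- The special points without a pin. -/
noncomputable def unp {V B : Type} (π : V → Option B) (K R : ℕ) (L : ℕ → ℕ → Option V)
    (S : ℕ → ℕ → Option B) : Finset (ℕ × ℕ) :=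
  ((Finset.range (K + 1)) ×ˢ (Finset.range (R + 1))).filter
    (fun p => S1 π K R L p.1 p.2 ≠ none ∧ S p.1 p.2 = none)

theorem S1_eq {V B : Type} {π : V → Option B} {K R : ℕ} {L : ℕ → ℕ → Option V} {i j : ℕ}
    (h : 1 ≤ i ∧ i ≤ K ∧ 1 ≤ j ∧ j ≤ R) : S1 π K R L i j = (L i j).bind π := by
  unfold S1
  rw [if_pos h]

theorem S1_ne {V B : Type} {π : V → Option B} {K R : ℕ} {L : ℕ → ℕ → Option V} {i j : ℕ}
    (h : S1 π K R L i j ≠ none) : 1 ≤ i ∧ i ≤ K ∧ 1 ≤ j ∧ j ≤ R ∧
      ∃ v, L i j = some v ∧ π v ≠ none := by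
  unfold S1 at h
  split_ifs at h with hc
  · refine ⟨hc.1, hc.2.1, hc.2.2.1, hc.2.2.2, ?_⟩
    cases hL : L i j with
    | none => rw [hL] at h; exact absurd rfl h
    | some v =>
      refine ⟨v, rfl, ?_⟩
      rw [hL] at h
      exact h
  · exact absurd rfl h

/-- One insertion. -/
theorem insert_one {R₀ : Type*} [Ring R₀] {B : Type} {d dinv : R₀} {e : ℕ → R₀}
    {P : B → ℕ → R₀} {b0 : B}
    (H : PinRel d dinv e P b0) {V : Type} {G : SimpleGraph V} {r : V} {K R : ℕ}
    {L : ℕ → ℕ → Option V} (M : LG G r K R L) {π : V → Option B} (hr : π r = some b0)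
    {S : ℕ → ℕ → Option B}
    (hS : ∀ i j, S i j = none ∨ S i j = S1 π K R L i j) {v : V} {x y : ℕ × ℕ}
    (hxy : gadj x y) (hx : inR K R x) (hy : inR K R y) (hLx : L x.1 x.2 = some v)
    (hLy : L y.1 y.2 = some v) (hv : π v ≠ none)
    (px : x.1 = 0 ∨ S x.1 x.2 ≠ none) (py : ¬ (y.1 = 0 ∨ S y.1 y.2 ≠ none)) :
    S1 π K R L y.1 y.2 ≠ none ∧
    WP d dinv e P (bodyW G L (fun i j => if i = y.1 ∧ j = y.2 then S1 π K R L y.1 y.2
      else S i j) K R) = WP d dinv e P (bodyW G L S K R) := by
  obtain ⟨x1, x2⟩ := x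
  obtain ⟨y1, y2⟩ := y
  simp only [inR] at hx hy hLx hLy px py ⊢
  push Not at py
  obtain ⟨hy1, hyn⟩ := py
  have hy2 : 1 ≤ y2 := by
    by_contra h0
    have h00 : y2 = 0 := by omega
    rw [h00, M.row y1 (by omega) hy.1] at hLy
    exact absurd hLy (by simp)
  have hS1y : S1 π K R L y1 y2 = π v := by
    rw [S1_eq ⟨by omega, hy.1, hy2, hy.2⟩, hLy]
    rfl
  obtain ⟨β, hβ⟩ : ∃ β, π v = some β := by
    cases h : π v with
    | none => exact absurd h hv
    | some β => exact ⟨β, rfl⟩
  have hI : Ins S (fun i j => if i = y1 ∧ j = y2 then S1 π K R L y1 y2 else S i j) y1 y2 β := by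
    refine ⟨fun i' j' h => if_neg h, hyn, ?_⟩
    show (if y1 = y1 ∧ y2 = y2 then S1 π K R L y1 y2 else S y1 y2) = some β
    rw [if_pos ⟨rfl, rfl⟩, hS1y, hβ]
  refine ⟨by rw [hS1y, hβ]; simp, ?_⟩
  have hSx : x1 ≠ 0 → S x1 x2 = some β ∧ 1 ≤ x2 := by
    intro h0
    have hxn : S x1 x2 ≠ none := by
      rcases px with h | h
      · exact absurd h h0
      · exact h
    have hx2 : 1 ≤ x2 := by
      by_contra h1
      have h00 : x2 = 0 := by omega
      rw [h00, M.row x1 (by omega) hx.1] at hLx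
      exact absurd hLx (by simp)
    rcases hS x1 x2 with h | h
    · exact absurd h hxn
    · rw [h, S1_eq ⟨by omega, hx.1, hx2, hx.2⟩, hLx]
      exact ⟨hβ, hx2⟩
  rcases hxy with ⟨h1, h2 | h2⟩ | ⟨h1, h2 | h2⟩
  · -- x below y
    simp only at h1 h2
    subst h1
    obtain ⟨hb, hx2⟩ := hSx hy1
    obtain ⟨j, rfl⟩ : ∃ j, x2 = j + 1 := ⟨x2 - 1, by omega⟩
    obtain rfl : y2 = j + 2 := by omega
    exact ins_up H G L hI (by omega) hy.1 hy.2 (by rw [hLx, hLy]) (by rw [hLx]; simp) hb
  · simp only at h1 h2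
    subst h1
    obtain ⟨hb, hx2⟩ := hSx hy1
    obtain ⟨j, rfl⟩ : ∃ j, y2 = j + 1 := ⟨y2 - 1, by omega⟩
    obtain rfl : x2 = j + 2 := by omega
    exact ins_down H G L hI (by omega) hy.1 hx.2 (by rw [hLx, hLy]) (by rw [hLy]; simp) hb
  · -- y right of x
    simp only at h1 h2
    subst h1
    obtain ⟨j, rfl⟩ : ∃ j, x2 = j + 1 := ⟨x2 - 1, by omega⟩
    rcases Nat.eq_zero_or_pos x1 with h0 | h0
    · subst h0
      obtain rfl : y1 = 1 := by omega
      have hvr : v = r := by
        have := M.col (j + 1) hx.2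
        rw [this] at hLx
        exact (Option.some.inj hLx).symm
      have hβf : β = b0 := by
        rw [hvr, hr] at hβ
        exact (Option.some.inj hβ).symm
      subst hβf
      exact ins_zero H G L hI hy.1 hy.2 (by rw [hLx, hLy]) (by rw [hLx]; simp)
    · obtain ⟨hb, hx2⟩ := hSx (by omega)
      subst h2
      exact ins_left H G L hI (by omega) hy.1 hy.2 (by rw [hLx, hLy]) (by rw [hLx]; simp) hb
  · -- y left of x
    simp only at h1 h2
    subst h1
    obtain ⟨j, rfl⟩ : ∃ j, x2 = j + 1 := ⟨x2 - 1, by omega⟩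
    obtain ⟨hb, hx2⟩ := hSx (by omega)
    subst h2
    exact ins_right H G L hI (by omega) hx.1 hy.2 (by rw [hLx, hLy]) (by rw [hLy]; simp) hb

theorem fill_pins {R₀ : Type*} [Ring R₀] {B : Type} {d dinv : R₀} {e : ℕ → R₀}
    {P : B → ℕ → R₀} {b0 : B}
    (H : PinRel d dinv e P b0) {V : Type} {G : SimpleGraph V} {r : V} {K R : ℕ}
    {L : ℕ → ℕ → Option V} (M : LG G r K R L) {π : V → Option B} (hr : π r = some b0)
    (hK : 1 ≤ K) :
    ∀ n (S : ℕ → ℕ → Option B), (unp π K R L S).card = n →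
      (∀ i j, S i j = none ∨ S i j = S1 π K R L i j) →
      (∀ v, v ≠ r → π v ≠ none → ∃ j, 1 ≤ j ∧ j ≤ R ∧ L 1 j = some v ∧ S 1 j ≠ none) →
      WP d dinv e P (bodyW G L S K R) =
        WP d dinv e P (bodyW G L (S1 π K R L) K R) := by
  intro n
  induction n using Nat.strong_induction_on with
  | _ n IH =>
    intro S hn hS hc
    by_cases hex : ∃ i j, S1 π K R L i j ≠ none ∧ S i j = none
    · obtain ⟨i, j, h1, h2⟩ := hex
      obtain ⟨hi1, hi2, hj1, hj2, v, hLv, hv⟩ := S1_ne h1
      have hcross : ∃ x y : ℕ × ℕ, (gadj x y ∧ inR K R x ∧ inR K R y ∧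
          L x.1 x.2 = some v ∧ L y.1 y.2 = some v) ∧
          (x.1 = 0 ∨ S x.1 x.2 ≠ none) ∧ ¬ (y.1 = 0 ∨ S y.1 y.2 ≠ none) := by
        have hpy : ¬ ((i, j).1 = 0 ∨ S (i, j).1 (i, j).2 ≠ none) := by
          simp only
          push Not
          exact ⟨by omega, h2⟩
        rcases eq_or_ne v r with hvr | hvr
        · exact exists_cross (M.conn v (0, j) (i, j) ⟨Nat.zero_le _, hj2⟩ ⟨hi2, hj2⟩
            (by rw [hvr]; exact M.col j hj2) hLv)
            (p := fun q : ℕ × ℕ => q.1 = 0 ∨ S q.1 q.2 ≠ none) (Or.inl rfl) hpy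
        · obtain ⟨j₀, hj01, hj02, hL0, hS0⟩ := hc v hvr hv
          exact exists_cross (M.conn v (1, j₀) (i, j) ⟨hK, hj02⟩ ⟨hi2, hj2⟩ hL0 hLv)
            (p := fun q : ℕ × ℕ => q.1 = 0 ∨ S q.1 q.2 ≠ none)
            (Or.inr hS0) hpy
      obtain ⟨x, y, ⟨hxy, hx, hy, hLx, hLy⟩, px, py⟩ := hcross
      obtain ⟨hyn, hW⟩ := insert_one H M hr hS hxy hx hy hLx hLy hv px py
      have hyS : S y.1 y.2 = none := by
        by_contra h
        exact py (Or.inr h)
      have hlt : (unp π K R L (fun i j => if i = y.1 ∧ j = y.2 then S1 π K R L y.1 y.2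
          else S i j)).card < n := by
        rw [← hn]
        apply Finset.card_lt_card
        rw [Finset.ssubset_iff_of_subset]
        · refine ⟨y, ?_, ?_⟩
          · unfold unp
            rw [Finset.mem_filter, Finset.mem_product, Finset.mem_range, Finset.mem_range]
            exact ⟨⟨by have := hy.1; omega, by have := hy.2; omega⟩, hyn, hyS⟩
          · unfold unp
            rw [Finset.mem_filter]
            rintro ⟨_, _, h⟩
            have h6 : (if y.1 = y.1 ∧ y.2 = y.2 then S1 π K R L y.1 y.2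
              else S y.1 y.2) = none := h
            rw [if_pos ⟨rfl, rfl⟩] at h6
            exact hyn h6
        · intro q hq
          unfold unp at hq ⊢
          rw [Finset.mem_filter] at hq ⊢
          refine ⟨hq.1, hq.2.1, ?_⟩
          by_cases hqy : q.1 = y.1 ∧ q.2 = y.2
          · rw [hqy.1, hqy.2]; exact hyS
          · have h5 : (if q.1 = y.1 ∧ q.2 = y.2 then S1 π K R L y.1 y.2
              else S q.1 q.2) = none := hq.2.2
            rw [if_neg hqy] at h5
            exact h5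
      rw [← hW]
      apply IH _ hlt _ rfl
      · intro i' j'
        by_cases h : i' = y.1 ∧ j' = y.2
        · right
          rw [if_pos h, h.1, h.2]
        · rw [if_neg h]
          exact hS i' j'
      · intro w hwr hw
        obtain ⟨j₀, hj01, hj02, hL0, hS0⟩ := hc w hwr hw
        refine ⟨j₀, hj01, hj02, hL0, ?_⟩
        by_cases h : 1 = y.1 ∧ j₀ = y.2
        · exfalso
          rw [← h.1, ← h.2] at hyS
          exact hS0 hyS
        · rw [if_neg h]
          exact hS0
    · have hSS : S = S1 π K R L := by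
        funext i j
        rcases hS i j with h | h
        · by_contra hne
          exact hex ⟨i, j, fun h' => hne (by rw [h, h']), h⟩
        · exact h
      rw [hSS]

theorem body_pins {R₀ : Type*} [Ring R₀] {B : Type} {d dinv : R₀} {e : ℕ → R₀} {P : B → ℕ → R₀}
    {b0 : B} (H : PinRel d dinv e P b0) {V : Type} {G : SimpleGraph V} {r : V} {K R : ℕ}
    {L : ℕ → ℕ → Option V} (M : LG G r K R L) {π : V → Option B} (hr : π r = some b0)
    (hct : Contact π r K R L) :
    WP d dinv e P (bodyW G L (S0 π R L) K R) = WP d dinv e P (bodyW G L (S1 π K R L) K R) := by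
  obtain ⟨hK, hc2⟩ := hct
  apply fill_pins H M hr hK _ _ rfl
  · intro i j
    unfold S0
    split_ifs with h
    · right
      obtain ⟨rfl, hj1, hj2⟩ := h
      rw [S1_eq ⟨le_rfl, hK, hj1, hj2⟩]
    · left; rfl
  · intro v hvr hv
    obtain ⟨j, hj1, hj2, hL⟩ := hc2 v hvr hv
    refine ⟨j, hj1, hj2, hL, ?_⟩
    unfold S0
    rw [if_pos ⟨rfl, hj1, hj2⟩, hL]
    exact hv

end Pool.Agent.Helper55.BLE
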