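import Mathlib
import Pool.Agent.Helper55.BLE.PTransfer
import Pool.Agent.Helper55.BLE.PinMove
import Pool.Agent.Helper55.BLE.PCount
import Pool.Agent.Helper55.BLE.HPos
import Pool.Agent.Helper55.BLE.Inst
import Pool.Agent.Helper55.BLD.ColCount
import Pool.Agent.Helper70.BLB.PatFinal

/-!
Positivity of the chromatic polynomial from a labelled grid with a set of special vertices.
-/

set_option autoImplicit false

namespace Pool.Agent.Helper55.BLE

open Pool.Agent.Helper70.BLB Polynomial
open Pool.Agent.Helper55.BLD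

section

variable {B V : Type} {G : SimpleGraph V} {π : V → Option B} {R : ℕ} {L : ℕ → ℕ → Option V}

theorem vopP_ok {m i : ℕ} (hi : 1 ≤ i) (him : i ≤ m) (a b : Option V) :
    ∀ x ∈ vopP B G i a b, OpP.ok m x := by
  classical
  intro x hx
  unfold vopP at hx
  split_ifs at hx with h1 h2
  · simp at hx
  · rw [List.mem_singleton] at hx; subst hx; exact ⟨hi, him⟩
  · rw [List.mem_singleton] at hx; subst hx; exact ⟨hi, him⟩

theorem hopP_ok {m i : ℕ} (him : i + 1 ≤ m) (a b : Option V) :
    ∀ x ∈ hopP B G i a b, OpP.ok m x := by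
  classical
  intro x hx
  unfold hopP at hx
  split_ifs at hx with h1 h2
  · rw [List.mem_singleton] at hx; subst hx; exact him
  · rw [List.mem_singleton] at hx; subst hx; exact him
  · simp at hx

theorem pinP_ok {m i j : ℕ} : ∀ x ∈ pinP i (S0 π R L i j), OpP.ok m x := by
  classical
  intro x hx
  by_cases hi : i = 1
  · subst hi
    cases h : S0 π R L 1 j with
    | none =>
      rw [h] at hx
      have : pinP (B := B) 1 none = [] := rfl
      rw [this] at hx
      simp at hx
    | some b =>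
      rw [h] at hx
      have : pinP 1 (some b) = [OpP.P b 1] := rfl
      rw [this, List.mem_singleton] at hx
      subst hx
      rfl
  · have h : S0 π R L i j = none := by
      unfold S0
      rw [if_neg (fun hh => hi hh.1)]
    rw [h] at hx
    have : pinP (B := B) i none = [] := rfl
    rw [this] at hx
    simp at hx

theorem stepW_ok {m j : ℕ} : ∀ k, k ≤ m → ∀ x ∈ stepW G L (S0 π R L) j k, OpP.ok m x
  | 0, _, x, hx => by
    have : stepW G L (S0 π R L) j 0 = [] := rfl
    rw [this] at hx; simp at hx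
  | (k + 1), hk, x, hx => by
    have e : stepW G L (S0 π R L) j (k + 1) = stepW G L (S0 π R L) j k ++
      (vopP B G (k + 1) (L (k + 1) j) (L (k + 1) (j + 1)) ++
        pinP (k + 1) (S0 π R L (k + 1) (j + 1))) := rfl
    rw [e, List.mem_append, List.mem_append] at hx
    rcases hx with hx | hx | hx
    · exact stepW_ok k (by omega) x hx
    · exact vopP_ok (by omega) hk _ _ x hx
    · exact pinP_ok x hx

theorem horW_ok {m j : ℕ} : ∀ k, k ≤ m → ∀ x ∈ horW B G L j k, OpP.ok m x
  | 0, _, x, hx => by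
    have : horW B G L j 0 = [] := rfl
    rw [this] at hx; simp at hx
  | (k + 1), hk, x, hx => by
    have e : horW B G L j (k + 1) = horW B G L j k ++ hopP B G k (L k j) (L (k + 1) j) := rfl
    rw [e, List.mem_append] at hx
    rcases hx with hx | hx
    · exact horW_ok k (by omega) x hx
    · exact hopP_ok hk _ _ x hx

theorem bodyW_ok {m : ℕ} : ∀ n, ∀ x ∈ bodyW G L (S0 π R L) m n, OpP.ok m x
  | 0, x, hx => by
    have : bodyW G L (S0 π R L) m 0 = [] := rfl
    rw [this] at hx; simp at hx
  | (n + 1), x, hx => by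
    have e : bodyW G L (S0 π R L) m (n + 1) = bodyW G L (S0 π R L) m n ++
      (stepW G L (S0 π R L) n m ++ horW B G L (n + 1) m) := rfl
    rw [e, List.mem_append, List.mem_append] at hx
    rcases hx with hx | hx | hx
    · exact bodyW_ok n x hx
    · exact stepW_ok m le_rfl x hx
    · exact horW_ok m le_rfl x hx

end

theorem bδ_inj (B : Type) [Fintype B] : Function.Injective (bδ B) := by
  intro a b h
  have := congrArg (fun x => x ^ 2) h
  simp only [bδ_sq] at this
  have h2 : (a : ℝ) = b := by linarith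
  exact_mod_cast h2

/-- The translations used to define the pins in the colouring representations. -/
theorem exists_tau (B : Type) [Fintype B] [DecidableEq B] (b0 : B) (n : ℕ) :
    ∃ τ : B → (B ⊕ Fin n) → (B ⊕ Fin n), TauOK τ b0 ∧ ∀ b, τ b (Sum.inl b0) = Sum.inl b := by
  classical
  set N := Fintype.card (B ⊕ Fin n) with hN
  have hpos : 0 < N := Fintype.card_pos_iff.2 ⟨Sum.inl b0⟩
  have : NeZero N := ⟨hpos.ne'⟩
  let e : (B ⊕ Fin n) ≃ ZMod N := (Fintype.equivFin _).trans (ZMod.finEquiv N).toEquiv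
  refine ⟨fun b x => e.symm (e x + (e (Sum.inl b) - e (Sum.inl b0))), ⟨fun x => ?_, ?_⟩,
    fun b => ?_⟩
  · show e.symm (e x + (e (Sum.inl b0) - e (Sum.inl b0))) = x
    rw [sub_self, add_zero, e.symm_apply_apply]
  · intro b b' x hb h
    have h1 := e.symm.injective h
    have h2 : e (Sum.inl b) = e (Sum.inl b') := by
      have h3 := add_left_cancel h1
      exact sub_left_injective h3
    exact hb (Sum.inl_injective (e.injective h2))
  · show e.symm (e (Sum.inl b0) + (e (Sum.inl b) - e (Sum.inl b0))) = Sum.inl b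
    rw [add_sub_cancel, e.symm_apply_apply]

theorem four_le' {n q : ℝ} (hn : 2 ≤ n) (hq : n + 1 + 1 / (n - 1) ≤ q) : 4 ≤ q := by
  have h1 : 0 < n - 1 := by linarith
  have h2 : 2 ≤ (n - 1) + 1 / (n - 1) := by
    have h3 : (n - 1) * (1 / (n - 1)) = 1 := by field_simp
    have h4 : 0 < 1 / (n - 1) := by positivity
    nlinarith [sq_nonneg ((n - 1) - 1 / (n - 1))]
  linarith

/-- Positivity of the extension polynomial of a pattern on the pinned vertices. -/
theorem ext_posLG {V B : Type} [Fintype V] [Fintype B] [DecidableEq B] {G : SimpleGraph V} {r : V}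
    {K R : ℕ} {L : ℕ → ℕ → Option V} (M : LG G r K R L) {π : V → Option B} {b0 : B}
    {cl : V → Bool} (hπ : PiOK G r b0 π cl) (hct : Contact π r K R L) (hB : 2 ≤ Fintype.card B)
    {q : ℝ} (hq : (Fintype.card B : ℝ) + 1 + 1 / ((Fintype.card B : ℝ) - 1) ≤ q) (p : ℝ[X])
    (hp : ∀ n : ℕ, p.eval ((Fintype.card B : ℝ) + n) =
      (Nat.card {f : G.Coloring (B ⊕ Fin n) // ∀ v b, π v = some b → f v = Sum.inl b} : ℝ)) :
    0 < p.eval q := by
  classical
  have hB' : (2 : ℝ) ≤ Fintype.card B := by exact_mod_cast hB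
  have : Nonempty B := ⟨b0⟩
  have hq4 : 4 ≤ q := four_le' hB' hq
  set δ : ℝ := Real.sqrt q with hδdef
  have hδ : 2 ≤ δ := by
    rw [hδdef]
    apply Real.le_sqrt_of_sq_le
    linarith
  have hδ2 : δ ^ 2 = q := by
    rw [hδdef]
    exact Real.sq_sqrt (by linarith)
  have hδ0 : 0 < δ := by linarith
  obtain ⟨A, hdec, nb, S, vt, lv, c, g, f, H⟩ := exists_HGood B hδ hB (by rw [hδ2]; exact hq)
  choose τ hτ hτ0 using fun n => exists_tau B b0 n
  obtain ⟨Q, K', hcolr, hhe⟩ := transferP H b0 τ hτ K hct.1 (bodyW G L (S0 π R L) K R)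
    (bodyW_ok R)
  rw [body_pins (gP_rel H b0) M hπ.root hct] at hhe
  have hQ : 0 < Q.eval δ := height_posP H M.col M.row hπ hhe
  obtain ⟨a, b, hcount⟩ := count_LG M hπ.root hct
  have key : (X ^ (K' + 2 * a) * p.comp (X ^ 2) : ℝ[X]) = Q * X ^ (2 * b + K) := by
    apply Polynomial.eq_of_infinite_eval_eq
    apply Set.Infinite.mono _ (Set.infinite_range_of_injective (bδ_inj B))
    rintro _ ⟨n, rfl⟩
    show eval (bδ B n) (X ^ (K' + 2 * a) * p.comp (X ^ 2)) = eval (bδ B n) _
    have hcard : (bδ B n) ^ 2 = Fintype.card (B ⊕ Fin n) := by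
      rw [bδ_sq, Fintype.card_sum, Fintype.card_fin]; push_cast; ring
    have h2 := color_evalP (C := B ⊕ Fin n) (τ := τ n) (bδ_pos n) hcard (hcolr n)
      (fun _ => Sum.inl b0)
    have h3 := hcount (B ⊕ Fin n) (τ n) (hτ n) (fun _ => Sum.inl b0)
    have h4 : (Nat.card {f : G.Coloring (B ⊕ Fin n) // ∀ v b, π v = some b →
        f v = τ n b (Sum.inl b0)} : ℝ) = p.eval ((Fintype.card B : ℝ) + n) := by
      rw [hp n]
      congr 1
      apply Nat.card_congr
      apply Equiv.subtypeEquivRight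
      intro f
      simp only [hτ0]
    rw [h4, ← hcard] at h3
    rw [eval_mul, eval_mul, eval_comp, eval_pow, eval_pow, eval_pow, eval_X, bδ_sq]
    set y : ℝ := bδ B n with hy
    set F : ℝ := cS (B ⊕ Fin n) K (cWP (B ⊕ Fin n) (τ n)
      (bodyW G L (S0 π R L) K R) fun _ => 1) fun _ => Sum.inl b0 with hF
    -- h2 : y ^ K' * F = Q y * y ^ K,  h3 : (y^2)^b * F = (y^2)^a * p (|B| + n)
    have h8 : y ^ (K' + 2 * a) * p.eval ((Fintype.card B : ℝ) + n) =
        y ^ K' * ((y ^ 2) ^ a * p.eval ((Fintype.card B : ℝ) + n)) := by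
      rw [pow_add, pow_mul]; ring
    rw [h8, ← h3]
    have h9 : y ^ K' * ((y ^ 2) ^ b * F) = (y ^ 2) ^ b * (y ^ K' * F) := by ring
    rw [h9, h2, pow_add, pow_mul]
    ring
  have h6 := congrArg (fun P : ℝ[X] => P.eval δ) key
  simp only [eval_mul, eval_pow, eval_X, eval_comp, hδ2] at h6
  have h8 : 0 < δ ^ (K' + 2 * a) * p.eval q := by
    rw [h6]; positivity
  exact (pos_iff_pos_of_mul_pos h8).1 (by positivity)

/-- Positivity of the chromatic polynomial from a labelled grid, the special vertices `T`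
containing the root and `cl` being a two-colouring of the other vertices. -/
theorem base_posT {V : Type} [Fintype V] [DecidableEq V] {G : SimpleGraph V} {r : V}
    {T : Finset V} (hr : r ∈ T) {K R : ℕ} {L : ℕ → ℕ → Option V} (M : LG G r K R L)
    (hct : ContT T r K R L) {cl : V → Bool}
    (hcl : ∀ u v, u ∉ T → v ∉ T → G.Adj u v → cl u ≠ cl v) {n : ℕ} (hn : 2 ≤ n)
    (hT : T.card ≤ n) {q : ℝ} (hq : (n : ℝ) + 1 + 1 / ((n : ℝ) - 1) ≤ q) (p : ℝ[X])
    (hp : ∀ N : ℕ, p.eval (N : ℝ) = nc G N) : 0 < p.eval q := by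
  have hne : Nonempty (Fin n) := ⟨⟨0, by omega⟩⟩
  have hn' : (2 : ℝ) ≤ n := by exact_mod_cast hn
  have h0 : 0 < 1 / ((n : ℝ) - 1) := by
    apply one_div_pos.2
    linarith
  apply pos_of_proper_patterns (A := Fin n) T (by rw [Fintype.card_fin]; exact hT)
    (by rw [Fintype.card_fin]; linarith) _ p hp
  intro c hc p hp
  have hsome : ∀ v b, (if v ∈ T then some (c v) else none) = some b ↔ v ∈ T ∧ c v = b := by
    intro v b
    split_ifs with h
    · simp [h]
    · simp [h]
  have hnone : ∀ v, (if v ∈ T then some (c v) else none) = none ↔ v ∉ T := by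
    intro v
    split_ifs with h
    · simp [h]
    · simp [h]
  have hπ : PiOK G r (c r) (fun v => if v ∈ T then some (c v) else none) cl := by
    refine ⟨if_pos hr, fun u v b huv hu hv => ?_, fun u v huv hu hv => ?_⟩
    · obtain ⟨h1, h2⟩ := (hsome u b).1 hu
      obtain ⟨h3, h4⟩ := (hsome v b).1 hv
      exact hc u v huv h1 h3 (h2.trans h4.symm)
    · exact hcl u v ((hnone u).1 hu) ((hnone v).1 hv) huv
  have hct' : Contact (fun v => if v ∈ T then some (c v) else none) r K R L := by
    refine ⟨hct.1, fun v hv h => ?_⟩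
    have hvT : v ∈ T := by
      by_contra hcon
      exact h ((hnone v).2 hcon)
    exact hct.2 v hvT hv
  refine ext_posLG M hπ hct' (by rw [Fintype.card_fin]; exact hn)
    (by rw [Fintype.card_fin]; exact hq) p ?_
  intro m
  rw [hp m]
  unfold extN
  congr 1
  apply Nat.card_congr
  apply Equiv.subtypeEquivRight
  intro F
  constructor
  · intro h v b hvb
    obtain ⟨h1, h2⟩ := (hsome v b).1 hvb
    rw [h v h1, h2]
  · intro h v hv
    exact h v (c v) ((hsome v (c v)).2 ⟨hv, rfl⟩)

end Pool.Agent.Helper55.BLE
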