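import Mathlib
import Pool.Agent.Helper55.BLE.Defs

/-!
Deleting and merging vertices in labelled grids with a set `T` of special vertices.  Adaptation of
`BLD/LGOps.lean`.
-/

set_option autoImplicit false

namespace Pool.Agent.Helper55.BLE

open Pool.Agent.Helper70.BLB
open Pool.Agent.Helper55.BLD

/-- Deleting a vertex which is not special. -/
theorem isoT {V : Type} [DecidableEq V] {G : SimpleGraph V} {r : V} {T : Finset V} {K R : ℕ}
    {L : ℕ → ℕ → Option V} (M : LG G r K R L) (hct : ContT T r K R L) {v : V} (hvr : v ≠ r)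
    (hvT : v ∉ T) : ∃ L' : ℕ → ℕ → Option V, LG (isoV G v) r K R L' ∧ ContT T r K R L' := by
  classical
  refine ⟨fun i j => if L i j = some v then none else L i j, ⟨?_, ?_, ?_, ?_⟩, hct.1, ?_⟩
  · intro j hj
    have h := M.col j hj
    show (if L 0 j = some v then none else L 0 j) = some r
    rw [h, if_neg]
    intro h2
    exact hvr (Option.some.inj h2).symm
  · intro i h1 h2
    show (if L i 0 = some v then none else L i 0) = none
    rw [M.row i h1 h2]
    simp
  · intro w p q hp hq lp lq
    have key : ∀ x : ℕ × ℕ, (if L x.1 x.2 = some v then none else L x.1 x.2) = some w →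
        L x.1 x.2 = some w ∧ w ≠ v := by
      intro x hx
      by_cases h : L x.1 x.2 = some v
      · rw [if_pos h] at hx
        exact absurd hx (by simp)
      · rw [if_neg h] at hx
        refine ⟨hx, ?_⟩
        rintro rfl
        exact h hx
    obtain ⟨lp', hwv⟩ := key p lp
    obtain ⟨lq', -⟩ := key q lq
    have hb : ∀ x : ℕ × ℕ, L x.1 x.2 = some w →
        (if L x.1 x.2 = some v then none else L x.1 x.2) = some w := by
      intro x hx
      rw [hx, if_neg]
      intro h2
      exact hwv (Option.some.inj h2)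
    refine Relation.ReflTransGen.mono ?_ _ _ (M.conn w p q hp hq lp' lq')
    rintro a b ⟨h1, h2, h3, h4, h5⟩
    exact ⟨h1, h2, h3, hb a h4, hb b h5⟩
  · rintro x y ⟨hxy, hx, hy⟩
    obtain ⟨p, q, h1, h2, h3, h4, h5⟩ := M.edge x y hxy
    refine ⟨p, q, h1, h2, h3, ?_, ?_⟩
    · show (if L p.1 p.2 = some v then none else L p.1 p.2) = some x
      rw [h4, if_neg]
      intro h
      exact hx (Option.some.inj h)
    · show (if L q.1 q.2 = some v then none else L q.1 q.2) = some y
      rw [h5, if_neg]
      intro h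
      exact hy (Option.some.inj h)
  · intro t ht htr
    obtain ⟨j, h1, h2, h3⟩ := hct.2 t ht htr
    refine ⟨j, h1, h2, ?_⟩
    show (if L 1 j = some v then none else L 1 j) = some t
    rw [h3, if_neg]
    intro h
    exact hvT ((Option.some.inj h) ▸ ht)

/-- Merging two neighbours `a`, `c` of `v` (and deleting `v`), when `v` is not special and `c` is
not the root. -/
theorem mergeT {V : Type} [DecidableEq V] {G : SimpleGraph V} {r : V} {T : Finset V} {K R : ℕ}
    {L : ℕ → ℕ → Option V} (M : LG G r K R L) (hct : ContT T r K R L) {v a c : V} (hvr : v ≠ r)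
    (hvT : v ∉ T) (hcr : c ≠ r) (hac : a ≠ c) (hva : G.Adj v a) (hvc : G.Adj v c) :
    ∃ L' : ℕ → ℕ → Option V, LG (mergeV (isoV G v) a c) r K R L' ∧
      ContT (T.erase c) r K R L' := by
  classical
  obtain ⟨f, hf⟩ : ∃ f : V → V, f = fun w => if w = v ∨ w = c then a else w := ⟨_, rfl⟩
  have fv : f v = a := by rw [hf]; simp
  have fc : f c = a := by rw [hf]; simp
  have fo : ∀ w, w ≠ v → w ≠ c → f w = w := by
    intro w h1 h2
    rw [hf]
    simp [h1, h2]
  have hav : a ≠ v := hva.ne.symm
  have fa : f a = a := fo a hav hac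
  have finv : ∀ w u, f w = u → (u = a ∧ (w = a ∨ w = v ∨ w = c)) ∨ (u = w ∧ w ≠ v ∧ w ≠ c) := by
    intro w u h
    by_cases h1 : w = v
    · subst h1
      rw [fv] at h
      exact Or.inl ⟨h.symm, Or.inr (Or.inl rfl)⟩
    · by_cases h2 : w = c
      · subst h2
        rw [fc] at h
        exact Or.inl ⟨h.symm, Or.inr (Or.inr rfl)⟩
      · rw [fo w h1 h2] at h
        exact Or.inr ⟨h.symm, h1, h2⟩
  refine ⟨rlb L f, ⟨?_, ?_, ?_, ?_⟩, hct.1, ?_⟩
  · intro j hj
    unfold rlb
    rw [M.col j hj, Option.map_some, fo r (Ne.symm hvr) (Ne.symm hcr)]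
  · intro i h1 h2
    unfold rlb
    rw [M.row i h1 h2, Option.map_none]
  · intro u p q hp hq lp lq
    change Relation.ReflTransGen (stp K R (rlb L f) u) p q
    obtain ⟨w₁, l1, e1⟩ := rlb_some lp
    obtain ⟨w₂, l2, e2⟩ := rlb_some lq
    by_cases hu : u = a
    · subst hu
      -- a point of the class of `v`
      obtain ⟨pa, qa, g1, g2, g3, g4, g5⟩ := M.edge v u hva
      obtain ⟨pc, qc, k1, k2, k3, k4, k5⟩ := M.edge v c hvc
      have toV : ∀ (w : V) (x : ℕ × ℕ), f w = u → inR K R x → L x.1 x.2 = some w →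
          Relation.ReflTransGen (stp K R (rlb L f) u) pa x := by
        intro w x hw hx lx
        have hw' : w = u ∨ w = v ∨ w = c := by
          rcases finv w u hw with ⟨-, h⟩ | ⟨h, -, -⟩
          · exact h
          · exact Or.inl h.symm
        rcases hw' with rfl | rfl | rfl
        · exact conn_two M fv hw g1 g2 g3 g4 g5 g2 hx g4 lx
        · exact stp_rlb hw (M.conn w pa x g2 hx g4 lx)
        · exact conn_two M fv hw k1 k2 k3 k4 k5 g2 hx g4 lx
      exact (stp_rt_symm (toV w₁ p e1 hp l1)).trans (toV w₂ q e2 hq l2)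
    · have h1 : w₁ = u := by
        rcases finv w₁ u e1 with ⟨h, -⟩ | ⟨h, -, -⟩
        · exact absurd h hu
        · exact h.symm
      have h2 : w₂ = u := by
        rcases finv w₂ u e2 with ⟨h, -⟩ | ⟨h, -, -⟩
        · exact absurd h hu
        · exact h.symm
      subst h1
      subst h2
      exact stp_rlb e1 (M.conn _ p q hp hq l1 l2)
  · rintro x y ⟨hne, hx, hy, h⟩
    have tr : ∀ u w, G.Adj u w → ∃ p q : ℕ × ℕ, gadj p q ∧ inR K R p ∧ inR K R q ∧
        rlb L f p.1 p.2 = some (f u) ∧ rlb L f q.1 q.2 = some (f w) := by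
      intro u w huw
      obtain ⟨p, q, h1, h2, h3, h4, h5⟩ := M.edge u w huw
      refine ⟨p, q, h1, h2, h3, ?_, ?_⟩
      · unfold rlb
        rw [h4, Option.map_some]
      · unfold rlb
        rw [h5, Option.map_some]
    rcases h with ⟨h1, h2, h3⟩ | ⟨h0, h1, h2, h3⟩ | ⟨h0, h1, h2, h3⟩
    · have := tr x y h1
      rw [fo x h2 hx, fo y h3 hy] at this
      exact this
    · have := tr c y h1
      rw [fc, fo y h3 hy] at this
      rw [h0]
      exact this
    · have := tr x c h1
      rw [fc, fo x h2 hx] at this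
      rw [h0]
      exact this
  · intro t ht htr
    obtain ⟨htc, htT⟩ := Finset.mem_erase.mp ht
    obtain ⟨j, h1, h2, h3⟩ := hct.2 t htT htr
    have htv : t ≠ v := fun h => hvT (h ▸ htT)
    refine ⟨j, h1, h2, ?_⟩
    unfold rlb
    rw [h3, Option.map_some, fo t htv htc]

end Pool.Agent.Helper55.BLE
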