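import Mathlib
import Pool.Agent.Helper55.BLE.Base
import Pool.Agent.Helper55.BLE.LGOps

/-!
Elimination of hubs, with a set of special vertices.
-/

set_option autoImplicit false

namespace Pool.Agent.Helper55.BLE

open Pool.Agent.Helper70.BLB Polynomial
open Pool.Agent.Helper55.BLD

/-- `C` is a set of hubs: every `v ∈ C` is not special and its neighbours `x v 0, …, x v 3` form a
closed walk of length four outside `C`; the graph without `C` and the special vertices is two-coloured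
by `cl`, and opposite neighbours of a hub which are not special are adjacent or have the same
colour. -/
structure Hubs {V : Type} (G : SimpleGraph V) (T : Finset V) (C : Finset V) (cl : V → Bool)
    (x : V → Fin 4 → V) : Prop where
  ns : ∀ v ∈ C, v ∉ T
  nC : ∀ v ∈ C, ∀ i, x v i ∉ C
  nbr : ∀ v ∈ C, ∀ w, G.Adj v w ↔ ∃ i, w = x v i
  cyc : ∀ v ∈ C, ∀ i, G.Adj (x v i) (x v (i + 1))
  opp : ∀ v ∈ C, ∀ i, x v i ∉ T → x v (i + 2) ∉ T →
    G.Adj (x v i) (x v (i + 2)) ∨ cl (x v i) = cl (x v (i + 2))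
  cl2 : ∀ u w, u ∉ C → w ∉ C → u ∉ T → w ∉ T → G.Adj u w → cl u ≠ cl w

variable {V : Type} [DecidableEq V] {G : SimpleGraph V} {T : Finset V} {C : Finset V}
  {cl : V → Bool} {x : V → Fin 4 → V}

theorem Hubs.iso (H : Hubs G T C cl x) {v : V} (hv : v ∈ C) :
    Hubs (isoV G v) T (C.erase v) cl x where
  ns w hw := H.ns w (Finset.mem_of_mem_erase hw)
  nC w hw i hi := H.nC w (Finset.mem_of_mem_erase hw) i (Finset.mem_of_mem_erase hi)
  nbr w hw z := by
    have hwC := Finset.mem_of_mem_erase hw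
    have hwv := Finset.ne_of_mem_erase hw
    show (G.Adj w z ∧ w ≠ v ∧ z ≠ v) ↔ _
    rw [H.nbr w hwC z]
    constructor
    · exact fun h => h.1
    · intro h
      refine ⟨h, hwv, ?_⟩
      obtain ⟨i, rfl⟩ := h
      intro hh
      exact H.nC w hwC i (hh ▸ hv)
  cyc w hw i := by
    have hwC := Finset.mem_of_mem_erase hw
    refine ⟨H.cyc w hwC i, ?_, ?_⟩
    · intro hh; exact H.nC w hwC i (hh ▸ hv)
    · intro hh; exact H.nC w hwC (i + 1) (hh ▸ hv)
  opp w hw i h1 h2 := by
    have hwC := Finset.mem_of_mem_erase hw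
    rcases H.opp w hwC i h1 h2 with h | h
    · left
      refine ⟨h, ?_, ?_⟩
      · intro hh; exact H.nC w hwC i (hh ▸ hv)
      · intro hh; exact H.nC w hwC (i + 2) (hh ▸ hv)
    · exact Or.inr h
  cl2 u w hu hw h1 h2 h3 := by
    have hu' : u ∉ C := fun hh => hu (Finset.mem_erase.2 ⟨h3.2.1, hh⟩)
    have hw' : w ∉ C := fun hh => hw (Finset.mem_erase.2 ⟨h3.2.2, hh⟩)
    exact H.cl2 u w hu' hw' h1 h2 h3.1

/-- Merging preserves adjacency of vertices which are not adjacent to their merged partner. -/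
theorem merge_adj {a c y z : V} (hac : a ≠ c) (hnadj : ¬ G.Adj a c) (hadj : G.Adj y z) :
    (mergeV G a c).Adj (if y = c then a else y) (if z = c then a else z) := by
  show (if y = c then a else y) ≠ (if z = c then a else z) ∧ (if y = c then a else y) ≠ c ∧
    (if z = c then a else z) ≠ c ∧ (G.Adj (if y = c then a else y) (if z = c then a else z) ∨
      ((if y = c then a else y) = a ∧ G.Adj c (if z = c then a else z)) ∨
      ((if z = c then a else z) = a ∧ G.Adj (if y = c then a else y) c))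
  by_cases h1 : y = c
  · have h2 : z ≠ c := fun hh => hadj.ne (by rw [h1, hh])
    have h3 : z ≠ a := fun hh => hnadj (by rw [← h1, ← hh]; exact hadj.symm)
    rw [if_pos h1, if_neg h2]
    exact ⟨h3.symm, hac, h2, Or.inr (Or.inl ⟨rfl, by rw [← h1]; exact hadj⟩)⟩
  · by_cases h2 : z = c
    · have h3 : y ≠ a := fun hh => hnadj (by rw [← h2, ← hh]; exact hadj)
      rw [if_neg h1, if_pos h2]
      exact ⟨h3, h1, hac, Or.inr (Or.inr ⟨rfl, by rw [← h2]; exact hadj⟩)⟩
    · rw [if_neg h1, if_neg h2]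
      exact ⟨hadj.ne, h1, h2, Or.inl hadj⟩

/-- Merging `c` into `a`, both outside `C`. -/
theorem Hubs.merge (H : Hubs G T C cl x) {a c : V} (haC : a ∉ C) (hcC : c ∉ C) (hac : a ≠ c)
    (hnadj : ¬ G.Adj a c) (hcT : c ∈ T → a ∈ T) (hcl : a ∉ T → cl a = cl c) :
    Hubs (mergeV G a c) (T.erase c) C cl (fun v i => if x v i = c then a else x v i) where
  ns v hv h := H.ns v hv (Finset.mem_of_mem_erase h)
  nC v hv i := by
    split_ifs
    · exact haC
    · exact H.nC v hv i
  nbr v hv w := by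
    have hvc : v ≠ c := fun hh => hcC (hh ▸ hv)
    have hva : v ≠ a := fun hh => haC (hh ▸ hv)
    show (v ≠ w ∧ v ≠ c ∧ w ≠ c ∧ (G.Adj v w ∨ (v = a ∧ G.Adj c w) ∨ (w = a ∧ G.Adj v c))) ↔ _
    constructor
    · rintro ⟨_, _, h3, h4 | ⟨h4, _⟩ | ⟨h4, h5⟩⟩
      · obtain ⟨i, hi⟩ := (H.nbr v hv w).1 h4
        exact ⟨i, by rw [if_neg (by rw [← hi]; exact h3)]; exact hi⟩
      · exact absurd h4 hva
      · obtain ⟨i, hi⟩ := (H.nbr v hv c).1 h5
        exact ⟨i, by rw [if_pos hi.symm]; exact h4⟩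
    · rintro ⟨i, hi⟩
      by_cases h : x v i = c
      · rw [if_pos h] at hi
        subst hi
        exact ⟨hva, hvc, hac, Or.inr (Or.inr ⟨rfl, (H.nbr v hv c).2 ⟨i, h.symm⟩⟩)⟩
      · rw [if_neg h] at hi
        have h5 := (H.nbr v hv w).2 ⟨i, hi⟩
        exact ⟨h5.ne, hvc, by rw [hi]; exact h, Or.inl h5⟩
  cyc v hv i := merge_adj hac hnadj (H.cyc v hv i)
  opp v hv i h1 h2 := by
    have key : ∀ j, (if x v j = c then a else x v j) ∉ T.erase c →
        x v j ∉ T ∧ cl (if x v j = c then a else x v j) = cl (x v j) := by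
      intro j h5
      by_cases h : x v j = c
      · rw [if_pos h] at h5 ⊢
        have haT : a ∉ T := fun hh => h5 (Finset.mem_erase.2 ⟨hac, hh⟩)
        rw [h]
        exact ⟨fun hh => haT (hcT hh), hcl haT⟩
      · rw [if_neg h] at h5 ⊢
        exact ⟨fun hh => h5 (Finset.mem_erase.2 ⟨h, hh⟩), rfl⟩
    obtain ⟨a1, a2⟩ := key i h1
    obtain ⟨b1, b2⟩ := key (i + 2) h2
    rcases H.opp v hv i a1 b1 with h | h
    · exact Or.inl (merge_adj hac hnadj h)
    · right
      show cl (if x v i = c then a else x v i) = cl (if x v (i + 2) = c then a else x v (i + 2))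
      rw [a2, b2]
      exact h
  cl2 u w hu hw h1 h2 h5 := by
    obtain ⟨_, hu', hw', h6⟩ := h5
    have hu2 : u ∉ T := fun hh => h1 (Finset.mem_erase.2 ⟨hu', hh⟩)
    have hw2 : w ∉ T := fun hh => h2 (Finset.mem_erase.2 ⟨hw', hh⟩)
    rcases h6 with h6 | ⟨h6, h7⟩ | ⟨h6, h7⟩
    · exact H.cl2 u w hu hw hu2 hw2 h6
    · subst h6
      rw [hcl hu2]
      exact H.cl2 c w hcC hw (fun hh => hu2 (hcT hh)) hw2 h7
    · subst h6
      rw [hcl hw2]
      exact H.cl2 u c hu hcC hu2 (fun hh => hw2 (hcT hh)) h7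

/-- The two opposite neighbours `a`, `c` can be merged, `c` being removed. -/
def Mrg (G : SimpleGraph V) (T : Finset V) (cl : V → Bool) (r a c : V) : Prop :=
  a = c ∨ G.Adj a c ∨ (c ≠ r ∧ (c ∈ T → a ∈ T) ∧ (a ∉ T → cl a = cl c))

theorem mrg_or {r : V} (hr : r ∈ T) {a c : V}
    (h : a ∉ T → c ∉ T → G.Adj a c ∨ cl a = cl c) : Mrg G T cl r a c ∨ Mrg G T cl r c a := by
  by_cases hac : a = c
  · exact Or.inl (Or.inl hac)
  by_cases ha : a ∈ T
  · by_cases hcr : c = r
    · right; right; right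
      exact ⟨fun hh => hac (hh.trans hcr.symm), fun _ => hcr ▸ hr, fun hh => absurd (hcr ▸ hr) hh⟩
    · left; right; right
      exact ⟨hcr, fun _ => ha, fun hh => absurd ha hh⟩
  · by_cases hc : c ∈ T
    · right; right; right
      exact ⟨fun hh => ha (hh ▸ hr), fun hh => absurd hh ha, fun hh => absurd hc hh⟩
    · rcases h ha hc with h | h
      · exact Or.inl (Or.inr (Or.inl h))
      · left; right; right
        exact ⟨fun hh => hc (hh ▸ hr), fun hh => absurd hh hc, fun _ => h⟩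

/-- A hub can be described such that the mergers are possible. -/
theorem Hubs.orient (H : Hubs G T C cl x) {r : V} (hr : r ∈ T) {v : V} (hv : v ∈ C) :
    ∃ a b c d : V, (∀ w, G.Adj v w ↔ (w = a ∨ w = b ∨ w = c ∨ w = d)) ∧
      G.Adj a b ∧ G.Adj b c ∧ G.Adj c d ∧ G.Adj d a ∧
      Mrg G T cl r a c ∧ Mrg G T cl r b d ∧
      a ∉ C ∧ b ∉ C ∧ c ∉ C ∧ d ∉ C := by
  have hN : ∀ w, G.Adj v w ↔ (w = x v 0 ∨ w = x v 1 ∨ w = x v 2 ∨ w = x v 3) := by
    intro w
    rw [H.nbr v hv w]
    constructor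
    · rintro ⟨i, hi⟩
      fin_cases i
      · exact Or.inl hi
      · exact Or.inr (Or.inl hi)
      · exact Or.inr (Or.inr (Or.inl hi))
      · exact Or.inr (Or.inr (Or.inr hi))
    · rintro (h | h | h | h)
      · exact ⟨0, h⟩
      · exact ⟨1, h⟩
      · exact ⟨2, h⟩
      · exact ⟨3, h⟩
  have c01 : G.Adj (x v 0) (x v 1) := H.cyc v hv 0
  have c12 : G.Adj (x v 1) (x v 2) := H.cyc v hv 1
  have c23 : G.Adj (x v 2) (x v 3) := H.cyc v hv 2
  have c30 : G.Adj (x v 3) (x v 0) := H.cyc v hv 3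
  have n0 := H.nC v hv 0
  have n1 := H.nC v hv 1
  have n2 := H.nC v hv 2
  have n3 := H.nC v hv 3
  have o02 : x v 0 ∉ T → x v 2 ∉ T → G.Adj (x v 0) (x v 2) ∨ cl (x v 0) = cl (x v 2) :=
    H.opp v hv 0
  have o13 : x v 1 ∉ T → x v 3 ∉ T → G.Adj (x v 1) (x v 3) ∨ cl (x v 1) = cl (x v 3) :=
    H.opp v hv 1
  rcases mrg_or hr o02 with p | p <;> rcases mrg_or hr o13 with q | q
  · exact ⟨x v 0, x v 1, x v 2, x v 3, hN, c01, c12, c23, c30, p, q, n0, n1, n2, n3⟩
  · refine ⟨x v 0, x v 3, x v 2, x v 1, fun w => ?_, c30.symm, c23.symm, c12.symm, c01.symm, p, q,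
      n0, n3, n2, n1⟩
    rw [hN w]
    constructor
    · rintro (h | h | h | h)
      exacts [Or.inl h, Or.inr (Or.inr (Or.inr h)), Or.inr (Or.inr (Or.inl h)), Or.inr (Or.inl h)]
    · rintro (h | h | h | h)
      exacts [Or.inl h, Or.inr (Or.inr (Or.inr h)), Or.inr (Or.inr (Or.inl h)), Or.inr (Or.inl h)]
  · refine ⟨x v 2, x v 1, x v 0, x v 3, fun w => ?_, c12.symm, c01.symm, c30.symm, c23.symm, p, q,
      n2, n1, n0, n3⟩
    rw [hN w]
    constructor
    · rintro (h | h | h | h)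
      exacts [Or.inr (Or.inr (Or.inl h)), Or.inr (Or.inl h), Or.inl h, Or.inr (Or.inr (Or.inr h))]
    · rintro (h | h | h | h)
      exacts [Or.inr (Or.inr (Or.inl h)), Or.inr (Or.inl h), Or.inl h, Or.inr (Or.inr (Or.inr h))]
  · refine ⟨x v 2, x v 3, x v 0, x v 1, fun w => ?_, c23, c30, c01, c12, p, q, n2, n3, n0, n1⟩
    rw [hN w]
    constructor
    · rintro (h | h | h | h)
      exacts [Or.inr (Or.inr (Or.inl h)), Or.inr (Or.inr (Or.inr h)), Or.inl h, Or.inr (Or.inl h)]
    · rintro (h | h | h | h)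
      exacts [Or.inr (Or.inr (Or.inl h)), Or.inr (Or.inr (Or.inr h)), Or.inl h, Or.inr (Or.inl h)]

/-- Positivity with hubs. -/
theorem hub_posT [Fintype V] {m : ℕ} (hm : 2 ≤ m) {q : ℝ} (hq4 : 4 < q)
    (hq : (m : ℝ) + 1 + 1 / ((m : ℝ) - 1) ≤ q) {r : V} (cl : V → Bool) :
    ∀ (n : ℕ) (C : Finset V), C.card = n → ∀ (T : Finset V), r ∈ T → T.card ≤ m →
      ∀ (G : SimpleGraph V) (x : V → Fin 4 → V)
      (K R : ℕ) (L : ℕ → ℕ → Option V), LG G r K R L → ContT T r K R L →
      Hubs G T C cl x →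
      ∀ p : ℝ[X], (∀ N : ℕ, p.eval (N : ℝ) = nc G N) → 0 < p.eval q := by
  intro n
  induction n with
  | zero =>
    intro C hC T hr hT G x K R L M hct H p hp
    rw [Finset.card_eq_zero] at hC
    subst hC
    exact base_posT hr M hct (fun u v h1 h2 h3 =>
      H.cl2 u v (Finset.notMem_empty _) (Finset.notMem_empty _) h1 h2 h3) hm hT hq p hp
  | succ n IH =>
    intro C hC T hr hT G x K R L M hct H p hp
    obtain ⟨v, hv⟩ : C.Nonempty := by
      rw [← Finset.card_pos]; omega
    have hcard : (C.erase v).card = n := by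
      rw [Finset.card_erase_of_mem hv, hC]; omega
    obtain ⟨a, b, c, d, hN, hab, hbc, hcd, hda, hp1, hp2, haC, hbC, hcC, hdC⟩ := H.orient hr hv
    have hvT := H.ns v hv
    have hvr : v ≠ r := fun hh => hvT (hh ▸ hr)
    have H1 := H.iso hv
    obtain ⟨L1, M1, hct1⟩ := isoT M hct hvr hvT
    obtain ⟨p1, hpp1⟩ := exists_chrom (isoV G v)
    have q1 := IH (C.erase v) hcard T hr hT (isoV G v) x K R L1 M1 hct1 H1 p1 hpp1
    -- one pair
    have pair : ∀ a c : V, G.Adj v a → G.Adj v c → a ∉ C → c ∉ C → Mrg G T cl r a c →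
        ∃ p2 : ℝ[X], (∀ N : ℕ, p2.eval (N : ℝ) = (open Classical in
          if a = c then (N : ℝ) * nc (isoV G v) N else
            if G.Adj a c then 0 else nc (mergeV (isoV G v) a c) N)) ∧ 0 ≤ p2.eval q := by
      intro a c hva hvc haC hcC hcase
      classical
      by_cases h1 : a = c
      · refine ⟨X * p1, fun N => ?_, ?_⟩
        · rw [if_pos h1, eval_mul, eval_X, hpp1]
        · rw [eval_mul, eval_X]
          have : 0 < q := by linarith
          positivity
      · by_cases h2 : G.Adj a c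
        · refine ⟨0, fun N => ?_, ?_⟩
          · rw [if_neg h1, if_pos h2, eval_zero]
          · rw [eval_zero]
        · rcases hcase with h3 | h3 | ⟨h3, h4, h5⟩
          · exact absurd h3 h1
          · exact absurd h3 h2
          · obtain ⟨p2, hpp2⟩ := exists_chrom (mergeV (isoV G v) a c)
            refine ⟨p2, fun N => ?_, ?_⟩
            · rw [if_neg h1, if_neg h2]
              exact hpp2 N
            · obtain ⟨L2, M2, hct2⟩ := mergeT M hct hvr hvT h3 h1 hva hvc
              have haC' : a ∉ C.erase v := fun hh => haC (Finset.mem_of_mem_erase hh)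
              have hcC' : c ∉ C.erase v := fun hh => hcC (Finset.mem_of_mem_erase hh)
              have H2 := H1.merge haC' hcC' h1 (fun hh => h2 hh.1) h4 h5
              exact (IH (C.erase v) hcard (T.erase c)
                (Finset.mem_erase.2 ⟨fun hh => h3 hh.symm, hr⟩)
                ((Finset.card_erase_le).trans hT) _ _ K R L2 M2 hct2 H2 p2 hpp2).le
    obtain ⟨p2, hpp2, q2⟩ := pair a c ((hN a).2 (Or.inl rfl))
      ((hN c).2 (Or.inr (Or.inr (Or.inl rfl)))) haC hcC hp1
    obtain ⟨p3, hpp3, q3⟩ := pair b d ((hN b).2 (Or.inr (Or.inl rfl)))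
      ((hN d).2 (Or.inr (Or.inr (Or.inr rfl)))) hbC hdC hp2
    have key : X ^ 2 * p = X * (X - Polynomial.C 4) * p1 + p2 + p3 := by
      apply Polynomial.eq_of_infinite_eval_eq
      apply Set.Infinite.mono (s := Set.range (fun n : ℕ => (n : ℝ)))
      · rintro _ ⟨N, rfl⟩
        show eval (N : ℝ) _ = eval (N : ℝ) _
        have h := nc_hub hN hab hbc hcd hda N
        rw [eval_mul, eval_pow, eval_X, hp N, eval_add, eval_add, eval_mul, eval_mul, eval_sub,
          eval_X, eval_C, hpp1, hpp2, hpp3]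
        convert h
      · exact Set.infinite_range_of_injective Nat.cast_injective
    have h6 := congrArg (fun P : ℝ[X] => P.eval q) key
    simp only [eval_mul, eval_pow, eval_X, eval_add, eval_sub, eval_C] at h6
    have hq0 : 0 < q := by linarith
    have hq4' : 0 < q - 4 := by linarith
    have h7 : 0 < q * (q - 4) * p1.eval q := by positivity
    have h8 : 0 < q ^ 2 * p.eval q := by rw [h6]; linarith
    exact (pos_iff_pos_of_mul_pos h8).1 (by positivity)

end Pool.Agent.Helper55.BLE
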