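import Mathlib
import Pool.Agent.Helper55.BLD.ColCount

/-!
The identity for a vertex whose neighbourhood contains no three pairwise non-adjacent vertices.
-/

set_option autoImplicit false

namespace Pool.Agent.Helper55.BLE

open Pool.Agent.Helper55.BLD
open Pool.Agent.Helper36.BL (cols cnt mem_cols natCard_coloring exists_cp)

/-- Counting the values of a map whose fibres have at most two elements. -/
theorem image_count {α β : Type*} [DecidableEq α] [DecidableEq β] (S : Finset α) (f : α → β)
    (h : ∀ a ∈ S, ∀ b ∈ S, ∀ c ∈ S, a ≠ b → b ≠ c → a ≠ c → ¬ (f a = f b ∧ f b = f c)) :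
    2 * (S.image f).card + ((S.offDiag).filter (fun p => f p.1 = f p.2)).card = 2 * S.card := by
  induction S using Finset.induction_on with
  | empty => simp
  | @insert x S hx IH =>
    have IH' := IH (fun a ha b hb c hc => h a (Finset.mem_insert_of_mem ha) b
      (Finset.mem_insert_of_mem hb) c (Finset.mem_insert_of_mem hc))
    -- the elements of `S` with the same value as `x`
    set F := S.filter (fun y => f y = f x) with hF
    have hF1 : F.card ≤ 1 := by
      rw [Finset.card_le_one]
      intro a ha b hb
      rw [hF, Finset.mem_filter] at ha hb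
      by_contra hab
      refine h a (Finset.mem_insert_of_mem ha.1) b (Finset.mem_insert_of_mem hb.1) x
        (Finset.mem_insert_self x S) hab (fun hh => hx (hh ▸ hb.1)) (fun hh => hx (hh ▸ ha.1))
        ⟨ha.2.trans hb.2.symm, hb.2⟩
    -- the pairs
    have hpairs : (((insert x S).offDiag).filter (fun p => f p.1 = f p.2)).card =
        ((S.offDiag).filter (fun p => f p.1 = f p.2)).card + 2 * F.card := by
      have e : ((insert x S).offDiag).filter (fun p => f p.1 = f p.2) =
          ((S.offDiag).filter (fun p => f p.1 = f p.2)) ∪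
            (F.image (fun y => (x, y)) ∪ F.image (fun y => (y, x))) := by
        ext ⟨a, b⟩
        simp only [Finset.mem_filter, Finset.mem_offDiag, Finset.mem_insert, Finset.mem_union,
          Finset.mem_image, Prod.mk.injEq, hF]
        constructor
        · rintro ⟨⟨ha, hb, hab⟩, hf⟩
          rcases ha with rfl | ha
          · rcases hb with rfl | hb
            · exact absurd rfl hab
            · right; left
              exact ⟨b, ⟨hb, hf.symm⟩, rfl, rfl⟩
          · rcases hb with rfl | hb
            · right; right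
              exact ⟨a, ⟨ha, hf⟩, rfl, rfl⟩
            · left
              exact ⟨⟨ha, hb, hab⟩, hf⟩
        · rintro (⟨⟨ha, hb, hab⟩, hf⟩ | ⟨y, ⟨hy, hfy⟩, rfl, rfl⟩ | ⟨y, ⟨hy, hfy⟩, rfl, rfl⟩)
          · exact ⟨⟨Or.inr ha, Or.inr hb, hab⟩, hf⟩
          · exact ⟨⟨Or.inl rfl, Or.inr hy, fun hh => hx (hh ▸ hy)⟩, hfy.symm⟩
          · exact ⟨⟨Or.inr hy, Or.inl rfl, fun hh => hx (hh ▸ hy)⟩, hfy⟩
      rw [e, Finset.card_union_of_disjoint, Finset.card_union_of_disjoint,
        Finset.card_image_of_injective _ (fun a b hab => (Prod.mk.inj hab).2),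
        Finset.card_image_of_injective _ (fun a b hab => (Prod.mk.inj hab).1)]
      · ring
      · rw [Finset.disjoint_left]
        rintro ⟨a, b⟩ h1 h2
        rw [Finset.mem_image] at h1 h2
        obtain ⟨y, hy, h1⟩ := h1
        obtain ⟨z, hz, h2⟩ := h2
        rw [hF, Finset.mem_filter] at hy
        have e1 := (Prod.mk.inj h1).2
        have e2 := (Prod.mk.inj h2).2
        exact hx (by rw [e2, ← e1]; exact hy.1)
      · rw [Finset.disjoint_left]
        rintro ⟨a, b⟩ h1 h2
        rw [Finset.mem_filter, Finset.mem_offDiag] at h1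
        rw [Finset.mem_union, Finset.mem_image, Finset.mem_image] at h2
        rcases h2 with ⟨y, _, h2⟩ | ⟨y, _, h2⟩
        · have e1 := (Prod.mk.inj h2).1
          exact hx (by rw [e1]; exact h1.1.1)
        · have e1 := (Prod.mk.inj h2).2
          exact hx (by rw [e1]; exact h1.1.2.1)
    rw [Finset.image_insert, hpairs, Finset.card_insert_of_notMem hx]
    by_cases hfx : f x ∈ S.image f
    · rw [Finset.insert_eq_of_mem hfx]
      have hF2 : F.card = 1 := by
        obtain ⟨y, hy, hfy⟩ := Finset.mem_image.1 hfx
        have : 0 < F.card := Finset.card_pos.2 ⟨y, by rw [hF, Finset.mem_filter]; exact ⟨hy, hfy⟩⟩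
        omega
      omega
    · rw [Finset.card_insert_of_notMem hfx]
      have hF2 : F.card = 0 := by
        rw [Finset.card_eq_zero, Finset.eq_empty_iff_forall_notMem]
        intro y hy
        rw [hF, Finset.mem_filter] at hy
        exact hfx (Finset.mem_image.2 ⟨y, hy.1, hy.2⟩)
      omega

variable {V : Type} [Fintype V] [DecidableEq V]

open Classical in
/-- The hub identity: `S` is the neighbourhood of `v`, and it has no three pairwise non-adjacent
elements. -/
theorem nc_hubN {G : SimpleGraph V} {v : V} (S : Finset V) (hN : ∀ w, G.Adj v w ↔ w ∈ S)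
    (h3 : ∀ a ∈ S, ∀ b ∈ S, ∀ c ∈ S, a ≠ b → b ≠ c → a ≠ c →
      G.Adj a b ∨ G.Adj b c ∨ G.Adj a c) (N : ℕ) :
    2 * (N : ℝ) ^ 2 * nc G N = 2 * (N : ℝ) * (N - S.card) * nc (isoV G v) N +
      ∑ p ∈ S.offDiag, if G.Adj p.1 p.2 then 0 else nc (mergeV (isoV G v) p.1 p.2) N := by
  have hvS : ∀ w ∈ S, w ≠ v := fun w hw => ((hN w).2 hw).ne'
  -- double counting
  have h1 : ((cols G N) ×ˢ (Finset.univ : Finset (Fin N))).card =
      ((cols (isoV G v) N).sigma
        (fun f => (Finset.univ : Finset (Fin N)).filter (fun x => x ∉ S.image f))).card := by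
    refine Finset.card_nbij' (fun z => ⟨Function.update z.1 v z.2, z.1 v⟩)
      (fun z => (Function.update z.1 v z.2, z.1 v)) ?_ ?_ ?_ ?_
    · rintro ⟨g, y⟩ hg
      simp only [Finset.coe_product, Finset.coe_univ, Set.mem_prod, Finset.mem_coe, Set.mem_univ,
        and_true] at hg
      rw [mem_cols] at hg
      simp only [Finset.coe_sigma, Finset.coe_filter, Finset.mem_univ, true_and, Set.mem_sigma_iff,
        Finset.mem_coe, Set.mem_ofPred_eq]
      refine ⟨?_, ?_⟩
      · rw [mem_cols]
        rintro u w ⟨huw, hu, hw⟩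
        rw [Function.update_of_ne hu, Function.update_of_ne hw]
        exact hg u w huw
      · rw [Finset.mem_image]
        rintro ⟨w, hw, he⟩
        rw [Function.update_of_ne (hvS w hw)] at he
        exact hg v w ((hN w).2 hw) he.symm
    · rintro ⟨f, x⟩ hf
      simp only [Finset.coe_sigma, Finset.coe_filter, Finset.mem_univ, true_and, Set.mem_sigma_iff,
        Finset.mem_coe, Set.mem_ofPred_eq] at hf
      obtain ⟨hf, hx⟩ := hf
      rw [mem_cols] at hf
      simp only [Finset.coe_product, Finset.coe_univ, Set.mem_prod, Finset.mem_coe, Set.mem_univ,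
        and_true]
      rw [mem_cols]
      have hnb : ∀ w, G.Adj v w → x ≠ f w := by
        intro w hw he
        exact hx (Finset.mem_image.2 ⟨w, (hN w).1 hw, he.symm⟩)
      intro u w huw
      by_cases hu : u = v
      · subst hu
        rw [Function.update_self, Function.update_of_ne huw.ne']
        exact hnb w huw
      · by_cases hw : w = v
        · subst hw
          rw [Function.update_self, Function.update_of_ne hu]
          exact (hnb u huw.symm).symm
        · rw [Function.update_of_ne hu, Function.update_of_ne hw]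
          exact hf u w ⟨huw, hu, hw⟩
    · rintro ⟨g, y⟩ _
      simp only [Function.update_idem, Function.update_eq_self, Function.update_self]
    · rintro ⟨f, x⟩ _
      simp only [Function.update_idem, Function.update_eq_self, Function.update_self]
  have h2 : ∀ f ∈ cols (isoV G v) N,
      2 * ((((Finset.univ : Finset (Fin N)).filter (fun x => x ∉ S.image f)).card : ℕ) : ℝ) =
        2 * ((N : ℝ) - S.card) + ∑ p ∈ S.offDiag, (if f p.1 = f p.2 then (1 : ℝ) else 0) := by
    intro f hf
    rw [mem_cols] at hf
    have hi := image_count S f (fun a ha b hb c hc hab hbc hac hh => by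
      rcases h3 a ha b hb c hc hab hbc hac with h | h | h
      · exact hf a b ⟨h, hvS a ha, hvS b hb⟩ hh.1
      · exact hf b c ⟨h, hvS b hb, hvS c hc⟩ hh.2
      · exact hf a c ⟨h, hvS a ha, hvS c hc⟩ (hh.1.trans hh.2))
    have h3 : ((Finset.univ : Finset (Fin N)).filter (fun x => x ∉ S.image f)).card +
        (S.image f).card = N := by
      have h4 := Finset.card_filter_add_card_filter_not (s := (Finset.univ : Finset (Fin N)))
        (fun x => x ∈ S.image f)
      rw [Finset.card_univ, Fintype.card_fin] at h4
      have h5 : (Finset.univ : Finset (Fin N)).filter (fun x => x ∈ S.image f) = S.image f := by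
        ext x; simp
      rw [h5] at h4
      omega
    have h3' : ((((Finset.univ : Finset (Fin N)).filter (fun x => x ∉ S.image f)).card : ℕ) : ℝ) +
        ((S.image f).card : ℝ) = N := by exact_mod_cast h3
    have h4' : 2 * ((S.image f).card : ℝ) +
        (((S.offDiag).filter (fun p => f p.1 = f p.2)).card : ℝ) = 2 * S.card := by
      exact_mod_cast hi
    rw [Finset.sum_boole]
    linarith
  have h4 : 2 * ((N : ℝ) * nc G N) = 2 * ((N : ℝ) - S.card) * nc (isoV G v) N +
      ∑ p ∈ S.offDiag, (((cols (isoV G v) N).filter (fun f => f p.1 = f p.2)).card : ℝ) := by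
    have h5 : (((cols G N) ×ˢ (Finset.univ : Finset (Fin N))).card : ℝ) = N * nc G N := by
      rw [Finset.card_product, Finset.card_univ, Fintype.card_fin, nc_eq]
      push_cast; ring
    rw [← h5, h1, Finset.card_sigma]
    push_cast
    rw [Finset.mul_sum, Finset.sum_congr rfl h2, Finset.sum_add_distrib, Finset.sum_const,
      nsmul_eq_mul, nc_eq, Finset.sum_comm]
    congr 1
    · ring
    · apply Finset.sum_congr rfl
      intro p _
      rw [Finset.sum_boole]
  have key : ∀ p ∈ S.offDiag,
      (N : ℝ) * (((cols (isoV G v) N).filter (fun f => f p.1 = f p.2)).card : ℝ) =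
        if G.Adj p.1 p.2 then 0 else nc (mergeV (isoV G v) p.1 p.2) N := by
    rintro ⟨x, y⟩ hp
    obtain ⟨hx, hy, hxy⟩ := Finset.mem_offDiag.1 hp
    simp only at hx hy hxy ⊢
    by_cases hadj : G.Adj x y
    · rw [if_pos hadj, Finset.filter_false_of_mem]
      · simp
      · intro f hf
        rw [mem_cols] at hf
        exact hf x y ⟨hadj, hvS x hx, hvS y hy⟩
    · have hna : ¬ (isoV G v).Adj x y := fun h => hadj h.1
      rw [if_neg hadj, merge_count hxy hna]
  rw [← Finset.sum_congr rfl key, ← Finset.mul_sum]
  have h5 : 2 * (N : ℝ) ^ 2 * nc G N = (N : ℝ) * (2 * ((N : ℝ) * nc G N)) := by ring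
  rw [h5, h4]
  ring

end Pool.Agent.Helper55.BLE
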