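import Mathlib
import Pool.Agent.Helper55.BLE.Base
import Pool.Agent.Helper55.BLE.LGOps
import Pool.Agent.Helper55.BLE.HubCount
import Pool.Agent.Helper55.BLE.Hub

/-!
Elimination of hubs in a given order, with a set of special vertices.
-/

set_option autoImplicit false

namespace Pool.Agent.Helper55.BLE

open Pool.Agent.Helper70.BLB Polynomial
open Pool.Agent.Helper55.BLD

/-- The neighbours of `v` which are not hubs or are removed later. -/
def upN {V : Type} (G : SimpleGraph V) (C : Set V) (ρ : V → ℕ) (v : V) : Set V :=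
  {w | G.Adj v w ∧ (w ∈ C → ρ v < ρ w)}

/-- `C` is a set of hubs, removed in the order given by `ρ`. -/
structure HubsN {V : Type} (G : SimpleGraph V) (T : Finset V) (C : Set V) (ρ : V → ℕ)
    (cl : V → Bool) : Prop where
  ns : ∀ v ∈ C, v ∉ T
  inj : Set.InjOn ρ C
  card : ∀ v ∈ C, (upN G C ρ v).ncard ≤ 4
  tri : ∀ v ∈ C, ∀ a ∈ upN G C ρ v, ∀ b ∈ upN G C ρ v, ∀ c ∈ upN G C ρ v, a ≠ b → b ≠ c →
    a ≠ c → G.Adj a b ∨ G.Adj b c ∨ G.Adj a c
  opp : ∀ v ∈ C, ∀ a ∈ upN G C ρ v, ∀ b ∈ upN G C ρ v, a ≠ b →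
    G.Adj a b ∨ (a ∉ C ∧ b ∉ C ∧ (a ∉ T → b ∉ T → cl a = cl b))
  cl2 : ∀ u w, u ∉ C → w ∉ C → u ∉ T → w ∉ T → G.Adj u w → cl u ≠ cl w

variable {V : Type} [DecidableEq V] {G : SimpleGraph V} {T : Finset V} {C : Set V}
  {ρ : V → ℕ} {cl : V → Bool}

omit [DecidableEq V] in
theorem upN_iso {v w : V} (hv : v ∈ C) (hw : w ∈ C \ {v}) (hvw : ρ v < ρ w) :
    upN (isoV G v) (C \ {v}) ρ w = upN G C ρ w := by
  have hwv : w ≠ v := fun h => hw.2 h
  ext z
  constructor
  · rintro ⟨⟨h1, _, h2⟩, h3⟩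
    exact ⟨h1, fun hz => h3 ⟨hz, fun h => h2 h⟩⟩
  · rintro ⟨h1, h3⟩
    refine ⟨⟨h1, hwv, fun h => ?_⟩, fun hz => h3 hz.1⟩
    subst h
    have := h3 hv
    omega

omit [DecidableEq V] in
theorem HubsN.iso (H : HubsN G T C ρ cl) {v : V} (hv : v ∈ C) (hmin : ∀ w ∈ C, ρ v ≤ ρ w) :
    HubsN (isoV G v) T (C \ {v}) ρ cl := by
  have hlt : ∀ w ∈ C \ {v}, ρ v < ρ w := by
    intro w hw
    have h1 := hmin w hw.1
    have h2 : ρ v ≠ ρ w := fun h => hw.2 (H.inj hv hw.1 h).symm
    omega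
  have hne : ∀ w ∈ C \ {v}, ∀ a ∈ upN G C ρ w, a ≠ v := by
    rintro w hw a ha rfl
    have h1 := ha.2 hv
    have h2 := hlt w hw
    omega
  refine ⟨fun w hw => H.ns w hw.1, H.inj.mono Set.sdiff_subset, fun w hw => ?_,
    fun w hw a ha b hb c hc hab hbc hac => ?_, fun w hw a ha b hb hab => ?_,
    fun u w hu hw h1 h2 h3 => ?_⟩
  · rw [upN_iso hv hw (hlt w hw)]
    exact H.card w hw.1
  · rw [upN_iso hv hw (hlt w hw)] at ha hb hc
    have n1 := hne w hw a ha
    have n2 := hne w hw b hb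
    have n3 := hne w hw c hc
    rcases H.tri w hw.1 a ha b hb c hc hab hbc hac with h | h | h
    · exact Or.inl ⟨h, n1, n2⟩
    · exact Or.inr (Or.inl ⟨h, n2, n3⟩)
    · exact Or.inr (Or.inr ⟨h, n1, n3⟩)
  · rw [upN_iso hv hw (hlt w hw)] at ha hb
    rcases H.opp w hw.1 a ha b hb hab with h | ⟨h1, h2, h3⟩
    · exact Or.inl ⟨h, hne w hw a ha, hne w hw b hb⟩
    · exact Or.inr ⟨fun h => h1 h.1, fun h => h2 h.1, h3⟩
  · have hu' : u ∉ C := fun hh => hu ⟨hh, fun h => h3.2.1 h⟩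
    have hw' : w ∉ C := fun hh => hw ⟨hh, fun h => h3.2.2 h⟩
    exact H.cl2 u w hu' hw' h1 h2 h3.1

/-- Merging `c` into `a`, both outside `C`. -/
theorem HubsN.merge [Finite V] (H : HubsN G T C ρ cl) {a c : V} (haC : a ∉ C) (hcC : c ∉ C)
    (hac : a ≠ c) (hnadj : ¬ G.Adj a c) (hcT : c ∈ T → a ∈ T) (hcl : a ∉ T → cl a = cl c) :
    HubsN (mergeV G a c) (T.erase c) C ρ cl := by
  -- preimages of the upper neighbours
  have pre : ∀ w ∈ C, ∀ z ∈ upN (mergeV G a c) C ρ w, ∃ y ∈ upN G C ρ w,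
      (if y = c then a else y) = z := by
    intro w hw z hz
    obtain ⟨⟨h1, h2, h3, h4⟩, h5⟩ := hz
    have hwa : w ≠ a := fun hh => haC (hh ▸ hw)
    rcases h4 with h4 | ⟨h4, _⟩ | ⟨h4, h6⟩
    · exact ⟨z, ⟨h4, h5⟩, if_neg h3⟩
    · exact absurd h4 hwa
    · exact ⟨c, ⟨h6, fun hh => absurd hh hcC⟩, by rw [if_pos rfl]; exact h4.symm⟩
  have key : ∀ y, (if y = c then a else y) ∉ T.erase c →
      y ∉ T ∧ cl (if y = c then a else y) = cl y := by
    intro y h5
    by_cases h : y = c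
    · rw [if_pos h] at h5 ⊢
      have haT : a ∉ T := fun hh => h5 (Finset.mem_erase.2 ⟨hac, hh⟩)
      rw [h]
      exact ⟨fun hh => haT (hcT hh), hcl haT⟩
    · rw [if_neg h] at h5 ⊢
      exact ⟨fun hh => h5 (Finset.mem_erase.2 ⟨h, hh⟩), rfl⟩
  refine ⟨fun v hv h => H.ns v hv (Finset.mem_of_mem_erase h), H.inj, fun w hw => ?_,
    fun w hw x hx y hy z hz hxy hyz hxz => ?_, fun w hw x hx y hy hxy => ?_,
    fun u w hu hw h1 h2 h5 => ?_⟩
  · have hsub : upN (mergeV G a c) C ρ w ⊆ (fun y => if y = c then a else y) '' upN G C ρ w := by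
      intro z hz
      obtain ⟨y, hy, he⟩ := pre w hw z hz
      exact ⟨y, hy, he⟩
    exact ((Set.ncard_le_ncard hsub (Set.toFinite _)).trans
      (Set.ncard_image_le (Set.toFinite _))).trans (H.card w hw)
  · obtain ⟨x', hx', rfl⟩ := pre w hw x hx
    obtain ⟨y', hy', rfl⟩ := pre w hw y hy
    obtain ⟨z', hz', rfl⟩ := pre w hw z hz
    rcases H.tri w hw x' hx' y' hy' z' hz' (fun h => hxy (by rw [h])) (fun h => hyz (by rw [h]))
      (fun h => hxz (by rw [h])) with h | h | h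
    · exact Or.inl (merge_adj hac hnadj h)
    · exact Or.inr (Or.inl (merge_adj hac hnadj h))
    · exact Or.inr (Or.inr (merge_adj hac hnadj h))
  · obtain ⟨x', hx', rfl⟩ := pre w hw x hx
    obtain ⟨y', hy', rfl⟩ := pre w hw y hy
    rcases H.opp w hw x' hx' y' hy' (fun h => hxy (by rw [h])) with h | ⟨h1, h2, h3⟩
    · exact Or.inl (merge_adj hac hnadj h)
    · refine Or.inr ⟨?_, ?_, fun k1 k2 => ?_⟩
      · split_ifs
        · exact haC
        · exact h1
      · split_ifs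
        · exact haC
        · exact h2
      · obtain ⟨a1, a2⟩ := key x' k1
        obtain ⟨b1, b2⟩ := key y' k2
        rw [a2, b2]
        exact h3 a1 b1
  · obtain ⟨_, hu', hw', h6⟩ := h5
    have hu2 : u ∉ T := fun hh => h1 (Finset.mem_erase.2 ⟨hu', hh⟩)
    have hw2 : w ∉ T := fun hh => h2 (Finset.mem_erase.2 ⟨hw', hh⟩)
    rcases h6 with h6 | ⟨h6, h7⟩ | ⟨h6, h7⟩
    · exact H.cl2 u w hu hw hu2 hw2 h6
    · subst h6
      rw [hcl hu2]
      exact H.cl2 c w hcC hw (fun hh => hu2 (hcT hh)) hw2 h7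
    · subst h6
      rw [hcl hw2]
      exact H.cl2 u c hu hcC hu2 (fun hh => hw2 (hcT hh)) h7

omit [DecidableEq V] in
theorem mergeV_swap_eval {G : SimpleGraph V} [Fintype V] {a c : V} (hac : a ≠ c)
    (hn : ¬ G.Adj a c) (N : ℕ) : nc (mergeV G a c) N = nc (mergeV G c a) N := by
  classical
  rw [merge_count hac hn, merge_count hac.symm (fun h => hn h.symm)]
  congr 3
  ext f
  simp only [Finset.mem_filter, eq_comm]

/-- Positivity with hubs. -/
theorem hub_posN [Fintype V] {m : ℕ} (hm : 2 ≤ m) {q : ℝ} (hq4 : 4 < q)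
    (hq : (m : ℝ) + 1 + 1 / ((m : ℝ) - 1) ≤ q) {r : V} (ρ : V → ℕ) (cl : V → Bool) :
    ∀ (n : ℕ) (C : Set V), C.ncard = n → ∀ (T : Finset V), r ∈ T → T.card ≤ m →
      ∀ (G : SimpleGraph V) (K R : ℕ) (L : ℕ → ℕ → Option V), LG G r K R L → ContT T r K R L →
      HubsN G T C ρ cl →
      ∀ p : ℝ[X], (∀ N : ℕ, p.eval (N : ℝ) = nc G N) → 0 < p.eval q := by
  classical
  intro n
  induction n with
  | zero =>
    intro C hC T hr hT G K R L M hct H p hp
    rw [Set.ncard_eq_zero] at hC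
    subst hC
    exact base_posT hr M hct (fun u v h1 h2 h3 =>
      H.cl2 u v (Set.notMem_empty _) (Set.notMem_empty _) h1 h2 h3) hm hT hq p hp
  | succ n IH =>
    intro C hC T hr hT G K R L M hct H p hp
    obtain ⟨v, hv, hmin⟩ : ∃ v ∈ C, ∀ w ∈ C, ρ v ≤ ρ w := by
      have hne : C.toFinset.Nonempty := by
        rw [Set.toFinset_nonempty]
        rw [Set.nonempty_iff_ne_empty]
        intro h
        rw [h, Set.ncard_empty] at hC
        omega
      obtain ⟨v, hv, h⟩ := Finset.exists_min_image C.toFinset ρ hne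
      exact ⟨v, Set.mem_toFinset.1 hv, fun w hw => h w (Set.mem_toFinset.2 hw)⟩
    have hcard : (C \ {v}).ncard = n := by
      rw [Set.ncard_sdiff_singleton_of_mem hv, hC]; omega
    have hvT := H.ns v hv
    have hvr : v ≠ r := fun hh => hvT (hh ▸ hr)
    have H1 := H.iso hv hmin
    obtain ⟨L1, M1, hct1⟩ := isoT M hct hvr hvT
    obtain ⟨p1, hpp1⟩ := exists_chrom (isoV G v)
    have q1 := IH (C \ {v}) hcard T hr hT (isoV G v) K R L1 M1 hct1 H1 p1 hpp1
    -- the neighbourhood of `v`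
    have hup : ∀ w, w ∈ upN G C ρ v ↔ G.Adj v w := by
      intro w
      constructor
      · exact fun h => h.1
      · intro h
        refine ⟨h, fun hw => ?_⟩
        have h1 := hmin w hw
        have h2 : ρ v ≠ ρ w := fun hh => h.ne (H.inj hv hw hh)
        omega
    set S : Finset V := (Set.toFinite (upN G C ρ v)).toFinset with hS
    have hSmem : ∀ w, w ∈ S ↔ w ∈ upN G C ρ v := fun w => by
      rw [hS, Set.Finite.mem_toFinset]
    have hN : ∀ w, G.Adj v w ↔ w ∈ S := fun w => by rw [hSmem, hup]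
    have hScard : S.card ≤ 4 := by
      rw [hS, ← Set.ncard_eq_toFinset_card]
      exact H.card v hv
    -- one pair, oriented
    have pair1 : ∀ a c : V, G.Adj v a → G.Adj v c → a ≠ c → ¬ G.Adj a c → a ∉ C → c ∉ C →
        c ≠ r → (c ∈ T → a ∈ T) → (a ∉ T → cl a = cl c) →
        ∀ p2 : ℝ[X], (∀ N : ℕ, p2.eval (N : ℝ) = nc (mergeV (isoV G v) a c) N) →
          0 < p2.eval q := by
      intro a c hva hvc h1 h2 haC hcC h3 h4 h5 p2 hpp2
      obtain ⟨L2, M2, hct2⟩ := mergeT M hct hvr hvT h3 h1 hva hvc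
      have haC' : a ∉ C \ {v} := fun hh => haC hh.1
      have hcC' : c ∉ C \ {v} := fun hh => hcC hh.1
      have H2 := H1.merge haC' hcC' h1 (fun hh => h2 hh.1) h4 h5
      exact IH (C \ {v}) hcard (T.erase c)
        (Finset.mem_erase.2 ⟨fun hh => h3 hh.symm, hr⟩)
        ((Finset.card_erase_le).trans hT) _ K R L2 M2 hct2 H2 p2 hpp2
    -- all pairs
    have pair : ∀ p ∈ S.offDiag, ∃ p2 : ℝ[X], (∀ N : ℕ, p2.eval (N : ℝ) =
          if G.Adj p.1 p.2 then 0 else nc (mergeV (isoV G v) p.1 p.2) N) ∧ 0 ≤ p2.eval q := by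
      rintro ⟨a, c⟩ hp
      obtain ⟨ha, hc, h1⟩ := Finset.mem_offDiag.1 hp
      simp only at ha hc h1 ⊢
      have hva := (hN a).2 ha
      have hvc := (hN c).2 hc
      by_cases h2 : G.Adj a c
      · exact ⟨0, fun N => by rw [if_pos h2, eval_zero], by rw [eval_zero]⟩
      · obtain ⟨p2, hpp2⟩ := exists_chrom (mergeV (isoV G v) a c)
        refine ⟨p2, fun N => by rw [if_neg h2]; exact hpp2 N, ?_⟩
        rcases H.opp v hv a ((hSmem a).1 ha) c ((hSmem c).1 hc) h1 with h | ⟨haC, hcC, hcl⟩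
        · exact absurd h h2
        have hn1 : ¬ (isoV G v).Adj a c := fun hh => h2 hh.1
        rcases mrg_or (G := G) (cl := cl) hr (a := a) (c := c) (fun k1 k2 => Or.inr (hcl k1 k2))
          with h | h
        · rcases h with h | h | ⟨h3, h4, h5⟩
          · exact absurd h h1
          · exact absurd h h2
          · exact (pair1 a c hva hvc h1 h2 haC hcC h3 h4 h5 p2 hpp2).le
        · rcases h with h | h | ⟨h3, h4, h5⟩
          · exact absurd h.symm h1
          · exact absurd h.symm h2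
          · refine (pair1 c a hvc hva h1.symm (fun hh => h2 hh.symm) hcC haC h3 h4 h5 p2
              (fun N => ?_)).le
            rw [hpp2 N]
            exact mergeV_swap_eval h1 hn1 N
    choose! P2 hP2 hP2q using pair
    have key : Polynomial.C 2 * X ^ 2 * p =
        Polynomial.C 2 * X * (X - Polynomial.C (S.card : ℝ)) * p1 + ∑ z ∈ S.offDiag, P2 z := by
      apply Polynomial.eq_of_infinite_eval_eq
      apply Set.Infinite.mono (s := Set.range (fun n : ℕ => (n : ℝ)))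
      · rintro _ ⟨N, rfl⟩
        show eval (N : ℝ) _ = eval (N : ℝ) _
        have h := nc_hubN (G := G) S hN (fun a ha b hb c hc => H.tri v hv a ((hSmem a).1 ha) b
          ((hSmem b).1 hb) c ((hSmem c).1 hc)) N
        simp only [eval_mul, eval_pow, eval_X, eval_add, eval_sub, eval_C, eval_finsetSum]
        rw [hp N, hpp1, Finset.sum_congr rfl (fun z hz => hP2 z hz N)]
        exact h
      · exact Set.infinite_range_of_injective Nat.cast_injective
    have h6 := congrArg (fun P : ℝ[X] => P.eval q) key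
    simp only [eval_mul, eval_pow, eval_X, eval_add, eval_sub, eval_C, eval_finsetSum] at h6
    have hq0 : 0 < q := by linarith
    have hS4 : (S.card : ℝ) ≤ 4 := by exact_mod_cast hScard
    have hq4' : 0 < q - S.card := by linarith
    have h7 : 0 < 2 * q * (q - S.card) * p1.eval q := by positivity
    have h9 : 0 ≤ ∑ z ∈ S.offDiag, (P2 z).eval q := Finset.sum_nonneg (fun z hz => hP2q z hz)
    have h8 : 0 < 2 * q ^ 2 * p.eval q := by rw [h6]; linarith
    exact (pos_iff_pos_of_mul_pos h8).1 (by positivity)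

end Pool.Agent.Helper55.BLE
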