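import Mathlib
import Pool.Agent.Helper55.BLE.Defs
import Pool.Agent.Helper55.BLD.ToLG
import Pool.Agent.Helper70.BLB.Contact

/-!
From drawings to labelled grids with all contacts in column one.
-/

set_option autoImplicit false

namespace Pool.Agent.Helper55.BLE

open Pool.Agent.Helper70.BLB
open Pool.Agent.Helper55.BLD

/-- The labels of a grid model with a frame, with an arm of `tb` (to column `1`) attached to the
point `(ib, 1)` and an arm of `tt` attached to the point `(it, T)`; no arm for `ib = 0`, `it = 0`.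
The rows `0, ..., T + 1` of the grid model become the rows `3, ..., T + 4`. -/
def armL {V : Type} (r tb tt : V) (T ib it : ℕ) (L : ℕ → ℕ → Option V) (i y : ℕ) : Option V :=
  if y = 0 then (if i = 0 then some r else none)
  else if y = 1 then some r
  else if y = 2 then (if 1 ≤ i ∧ i ≤ ib then some tb else some r)
  else if y = 3 then (if 1 ≤ i ∧ i = ib then some tb else some r)
  else if y ≤ T + 3 then L i (y - 3)
  else if y = T + 4 then (if 1 ≤ i ∧ i = it then some tt else some r)
  else if y = T + 5 then (if 1 ≤ i ∧ i ≤ it then some tt else some r)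
  else some r

section Arm

variable {V : Type} {r tb tt : V} {T ib it : ℕ} {L : ℕ → ℕ → Option V}

theorem armL_zero_y {i : ℕ} (hi : i ≠ 0) : armL r tb tt T ib it L i 0 = none := by
  simp [armL, hi]

theorem armL_one {i : ℕ} : armL r tb tt T ib it L i 1 = some r := by
  simp [armL]

theorem armL_two {i : ℕ} (h : 1 ≤ i ∧ i ≤ ib) : armL r tb tt T ib it L i 2 = some tb := by
  simp [armL, h]

theorem armL_two_r {i : ℕ} (h : ib < i) : armL r tb tt T ib it L i 2 = some r := by
  unfold armL
  rw [if_neg (by omega), if_neg (by omega), if_pos rfl, if_neg (by omega)]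

theorem armL_three {i : ℕ} (h : 1 ≤ i ∧ i = ib) : armL r tb tt T ib it L i 3 = some tb := by
  unfold armL
  rw [if_neg (by omega), if_neg (by omega), if_neg (by omega), if_pos rfl, if_pos h]

theorem armL_three_r {i : ℕ} (h : i = 0 ∨ i ≠ ib) : armL r tb tt T ib it L i 3 = some r := by
  unfold armL
  rw [if_neg (by omega), if_neg (by omega), if_neg (by omega), if_pos rfl, if_neg (by omega)]

theorem armL_core {i y : ℕ} (h : 4 ≤ y ∧ y ≤ T + 3) :
    armL r tb tt T ib it L i y = L i (y - 3) := by
  unfold armL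
  rw [if_neg (by omega), if_neg (by omega), if_neg (by omega), if_neg (by omega),
    if_pos (by omega)]

theorem armL_four {i : ℕ} (h : 1 ≤ i ∧ i = it) :
    armL r tb tt T ib it L i (T + 4) = some tt := by
  unfold armL
  rw [if_neg (by omega), if_neg (by omega), if_neg (by omega), if_neg (by omega),
    if_neg (by omega), if_pos rfl, if_pos h]

theorem armL_four_r {i : ℕ} (h : i = 0 ∨ i ≠ it) :
    armL r tb tt T ib it L i (T + 4) = some r := by
  unfold armL
  rw [if_neg (by omega), if_neg (by omega), if_neg (by omega), if_neg (by omega),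
    if_neg (by omega), if_pos rfl, if_neg (by omega)]

theorem armL_five {i : ℕ} (h : 1 ≤ i ∧ i ≤ it) :
    armL r tb tt T ib it L i (T + 5) = some tt := by
  unfold armL
  rw [if_neg (by omega), if_neg (by omega), if_neg (by omega), if_neg (by omega),
    if_neg (by omega), if_neg (by omega), if_pos rfl, if_pos h]

theorem armL_five_r {i : ℕ} (h : it < i) :
    armL r tb tt T ib it L i (T + 5) = some r := by
  unfold armL
  rw [if_neg (by omega), if_neg (by omega), if_neg (by omega), if_neg (by omega),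
    if_neg (by omega), if_neg (by omega), if_pos rfl, if_neg (by omega)]

theorem armL_top {i y : ℕ} (h : T + 6 ≤ y) : armL r tb tt T ib it L i y = some r := by
  unfold armL
  rw [if_neg (by omega), if_neg (by omega), if_neg (by omega), if_neg (by omega),
    if_neg (by omega), if_neg (by omega), if_neg (by omega)]

theorem armL_col {G : SimpleGraph V} {k : ℕ} (M : GridModel G r k T L) (y : ℕ) :
    armL r tb tt T ib it L 0 y = some r := by
  unfold armL
  split_ifs <;> first | rfl | omega | exact (M.frame _ _).2 (Or.inl rfl)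

/-- The points of a class different from the class of the root. -/
theorem armL_cases {v : V} (hv : v ≠ r) {i y : ℕ}
    (h : armL r tb tt T ib it L i y = some v) :
    (4 ≤ y ∧ y ≤ T + 3 ∧ L i (y - 3) = some v) ∨
    (v = tb ∧ 1 ≤ i ∧ i ≤ ib ∧ y = 2) ∨ (v = tb ∧ 1 ≤ i ∧ i = ib ∧ y = 3) ∨
    (v = tt ∧ 1 ≤ i ∧ i = it ∧ y = T + 4) ∨ (v = tt ∧ 1 ≤ i ∧ i ≤ it ∧ y = T + 5) := by
  have hr : (some r = some v) → False := fun h => hv (Option.some.inj h).symm
  unfold armL at h
  split_ifs at h with h1 h2 h3 h4 h5 h6 h7 h8 h9 h10 h11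
  · exact (hr h).elim
  · exact (hr h).elim
  · exact Or.inr (Or.inl ⟨(Option.some.inj h).symm, h5.1, h5.2, h4⟩)
  · exact (hr h).elim
  · exact Or.inr (Or.inr (Or.inl ⟨(Option.some.inj h).symm, h7.1, h7.2, h6⟩))
  · exact (hr h).elim
  · exact Or.inl ⟨by omega, h8, h⟩
  · exact Or.inr (Or.inr (Or.inr (Or.inl ⟨(Option.some.inj h).symm, h10.1, h10.2, h9⟩)))
  · exact (hr h).elim
  · rename_i h12
    exact Or.inr (Or.inr (Or.inr (Or.inr ⟨(Option.some.inj h).symm, h12.1, h12.2, h11⟩)))
  · exact (hr h).elim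
  · exact (hr h).elim

/-- The points of the class of the root. -/
theorem armL_cases_r {G : SimpleGraph V} {k : ℕ} (M : GridModel G r k T L)
    (hb : 1 ≤ ib → tb ≠ r) (ht : 1 ≤ it → tt ≠ r) {i y : ℕ}
    (h : armL r tb tt T ib it L i y = some r) :
    i = 0 ∨ y = 1 ∨ (y = 2 ∧ ib < i) ∨ (y = 3 ∧ i ≠ ib) ∨ (4 ≤ y ∧ y ≤ T + 3 ∧ k < i) ∨
    (y = T + 4 ∧ i ≠ it) ∨ (y = T + 5 ∧ it < i) ∨ T + 6 ≤ y := by
  by_contra hc
  have hi : i ≠ 0 := by omega
  unfold armL at h
  split_ifs at h with h1 h3 h4 h5 h6 h7 h8 h9 h10 h11 h12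
  · omega
  · exact hb (by omega) (Option.some.inj h)
  · omega
  · exact hb (by omega) (Option.some.inj h)
  · omega
  · have := (M.frame _ _).1 h
    omega
  · exact ht (by omega) (Option.some.inj h)
  · omega
  · exact ht (by omega) (Option.some.inj h)
  · omega
  · omega

/-- Vertical paths. -/
theorem stpT_down {s : V} {K R : ℕ} {L' : ℕ → ℕ → Option V} {i : ℕ} (hi : i ≤ K) {a b : ℕ}
    (hab : a ≤ b) (hb : b ≤ R) (h : ∀ j, a ≤ j → j ≤ b → L' i j = some s) :
    Relation.ReflTransGen (stpT s K R L') (i, b) (i, a) := by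
  induction b, hab using Nat.le_induction with
  | base => exact Relation.ReflTransGen.refl
  | succ n hn ih =>
    refine Relation.ReflTransGen.head ?_ (ih (by omega) (fun j h1 h2 => h j h1 (by omega)))
    refine ⟨?_, ⟨hi, hb⟩, ⟨hi, by show n ≤ R; omega⟩, h _ (by omega) le_rfl,
      h _ (by omega) (by omega)⟩
    simp [gadj]

/-- Horizontal paths. -/
theorem stpT_left {s : V} {K R : ℕ} {L' : ℕ → ℕ → Option V} {j : ℕ} (hj : j ≤ R) {a b : ℕ}
    (hab : a ≤ b) (hb : b ≤ K) (h : ∀ i, a ≤ i → i ≤ b → L' i j = some s) :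
    Relation.ReflTransGen (stpT s K R L') (b, j) (a, j) := by
  induction b, hab using Nat.le_induction with
  | base => exact Relation.ReflTransGen.refl
  | succ n hn ih =>
    refine Relation.ReflTransGen.head ?_ (ih (by omega) (fun j h1 h2 => h j h1 (by omega)))
    refine ⟨?_, ⟨hb, hj⟩, ⟨by show n ≤ K; omega, hj⟩, h _ (by omega) le_rfl,
      h _ (by omega) (by omega)⟩
    simp [gadj]

/-- Every point of the class of the root is connected with the origin. -/
theorem arm_root {G : SimpleGraph V} {k : ℕ} (M : GridModel G r k T L)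
    (hb : 1 ≤ ib → tb ≠ r ∧ L ib 1 = some tb) (ht : 1 ≤ it → tt ≠ r ∧ L it T = some tt)
    {i y : ℕ} (hi : i ≤ k + 1) (hy : y ≤ T + 6) (h : armL r tb tt T ib it L i y = some r) :
    Relation.ReflTransGen (stpT r (k + 1) (T + 6) (armL r tb tt T ib it L)) (i, y) (0, 0) := by
  have hbk : ib ≤ k := by
    by_contra hc
    have h1 := hb (by omega)
    have h2 := gm_interior M h1.1 h1.2
    omega
  have htk : it ≤ k := by
    by_contra hc
    have h1 := ht (by omega)
    have h2 := gm_interior M h1.1 h1.2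
    omega
  have hcol : ∀ y, y ≤ T + 6 → Relation.ReflTransGen
      (stpT r (k + 1) (T + 6) (armL r tb tt T ib it L)) (0, y) (0, 0) := fun y hy =>
    stpT_down (by omega) (Nat.zero_le _) hy (fun j _ _ => armL_col M j)
  have hlow : ∀ i, i ≤ k + 1 → Relation.ReflTransGen
      (stpT r (k + 1) (T + 6) (armL r tb tt T ib it L)) (i, 1) (0, 0) := fun i hi =>
    (stpT_left (by omega) (Nat.zero_le _) hi (fun j _ _ => armL_one)).trans (hcol 1 (by omega))
  have hup : ∀ i, i ≤ k + 1 → Relation.ReflTransGen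
      (stpT r (k + 1) (T + 6) (armL r tb tt T ib it L)) (i, T + 6) (0, 0) := fun i hi =>
    (stpT_left (by omega) (Nat.zero_le _) hi (fun j _ _ => armL_top le_rfl)).trans
      (hcol (T + 6) (by omega))
  rcases armL_cases_r M (fun h => (hb h).1) (fun h => (ht h).1) h with
    rfl | rfl | ⟨rfl, h1⟩ | ⟨rfl, h1⟩ | ⟨h1, h2, h3⟩ | ⟨rfl, h1⟩ | ⟨rfl, h1⟩ | h1
  · exact hcol y hy
  · exact hlow i hi
  · refine (stpT_down (a := 1) (b := 2) hi (by omega) (by omega) ?_).trans (hlow i hi)
    intro j h2 h3
    have h4 : j = 1 ∨ j = 2 := by omega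
    rcases h4 with rfl | rfl
    · exact armL_one
    · exact armL_two_r h1
  · rcases Nat.lt_or_ge i ib with h2 | h2
    · refine (stpT_left (a := 0) (b := i) (by omega) (by omega) hi ?_).trans (hcol 3 (by omega))
      intro j _ h3
      exact armL_three_r (Or.inr (by omega))
    · refine (stpT_down (a := 1) (b := 3) hi (by omega) (by omega) ?_).trans (hlow i hi)
      intro j h3 h4
      have h5 : j = 1 ∨ j = 2 ∨ j = 3 := by omega
      rcases h5 with rfl | rfl | rfl
      · exact armL_one
      · exact armL_two_r (by omega)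
      · exact armL_three_r (Or.inr h1)
  · refine (stpT_down (a := 1) (b := y) hi (by omega) (by omega) ?_).trans (hlow i hi)
    intro j h4 h5
    have h6 : j = 1 ∨ j = 2 ∨ j = 3 ∨ 4 ≤ j := by omega
    rcases h6 with rfl | rfl | rfl | h6
    · exact armL_one
    · exact armL_two_r (by omega)
    · exact armL_three_r (Or.inr (by omega))
    · rw [armL_core ⟨h6, by omega⟩]
      exact (M.frame _ _).2 (Or.inr (Or.inl h3))
  · rcases Nat.lt_or_ge i it with h2 | h2
    · refine (stpT_left (a := 0) (b := i) (by omega) (by omega) hi ?_).trans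
        (hcol (T + 4) (by omega))
      intro j _ h3
      exact armL_four_r (Or.inr (by omega))
    · refine (rtg_symm (fun a b h => stpT_symm h) (stpT_down (a := T + 4) (b := T + 6) hi
        (by omega) (by omega) ?_)).trans (hup i hi)
      intro j h3 h4
      have h5 : j = T + 4 ∨ j = T + 5 ∨ j = T + 6 := by omega
      rcases h5 with rfl | rfl | rfl
      · exact armL_four_r (Or.inr h1)
      · exact armL_five_r (by omega)
      · exact armL_top le_rfl
  · refine (rtg_symm (fun a b h => stpT_symm h) (stpT_down (a := T + 5) (b := T + 6) hi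
      (by omega) (by omega) ?_)).trans (hup i hi)
    intro j h3 h4
    have h5 : j = T + 5 ∨ j = T + 6 := by omega
    rcases h5 with rfl | rfl
    · exact armL_five_r (by omega)
    · exact armL_top le_rfl
  · have h2 : y = T + 6 := by omega
    subst h2
    exact hup i hi

/-- Points of a class of the grid model are connected after the shift. -/
theorem arm_core {G : SimpleGraph V} {k : ℕ} (M : GridModel G r k T L) {v : V} (hv : v ≠ r)
    {p q : ℕ × ℕ} (hp : L p.1 p.2 = some v) (hq : L q.1 q.2 = some v) :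
    Relation.ReflTransGen (stpT v (k + 1) (T + 6) (armL r tb tt T ib it L))
      (p.1, p.2 + 3) (q.1, q.2 + 3) := by
  refine rtg_map (fun a : ℕ × ℕ => (a.1, a.2 + 3)) (fun a b hab => ?_) (M.conn v hv p q hp hq)
  obtain ⟨c1, c2, c3⟩ := hab
  have ia := gm_interior M hv c2
  have ib := gm_interior M hv c3
  refine ⟨?_, ⟨?_, ?_⟩, ⟨?_, ?_⟩, ?_, ?_⟩
  · simp only [gadj] at c1 ⊢
    omega
  · show a.1 ≤ k + 1
    omega
  · show a.2 + 3 ≤ T + 6
    omega
  · show b.1 ≤ k + 1
    omega
  · show b.2 + 3 ≤ T + 6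
    omega
  · exact (armL_core (by omega)).trans c2
  · exact (armL_core (by omega)).trans c3

/-- Every point of a class is connected with a point of the grid model. -/
theorem arm_to_core {G : SimpleGraph V} {k : ℕ} (M : GridModel G r k T L)
    (hb : 1 ≤ ib → tb ≠ r ∧ L ib 1 = some tb) (ht : 1 ≤ it → tt ≠ r ∧ L it T = some tt)
    {v : V} (hv : v ≠ r) {i y : ℕ} (h : armL r tb tt T ib it L i y = some v) :
    ∃ q : ℕ × ℕ, L q.1 q.2 = some v ∧ Relation.ReflTransGen
      (stpT v (k + 1) (T + 6) (armL r tb tt T ib it L)) (i, y) (q.1, q.2 + 3) := by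
  have hbot : 1 ≤ ib → Relation.ReflTransGen
      (stpT tb (k + 1) (T + 6) (armL r tb tt T ib it L)) (ib, 2) (ib, 4) := by
    intro h1
    have h2 := hb h1
    have h3 := gm_interior M h2.1 h2.2
    refine rtg_symm (fun a b h => stpT_symm h) (stpT_down (by omega) (by omega) (by omega) ?_)
    intro j h4 h5
    have h6 : j = 2 ∨ j = 3 ∨ j = 4 := by omega
    rcases h6 with rfl | rfl | rfl
    · exact armL_two ⟨h1, le_rfl⟩
    · exact armL_three ⟨h1, rfl⟩
    · rw [armL_core ⟨le_rfl, by omega⟩]
      exact h2.2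
  have htop : 1 ≤ it → Relation.ReflTransGen
      (stpT tt (k + 1) (T + 6) (armL r tb tt T ib it L)) (it, T + 5) (it, T + 3) := by
    intro h1
    have h2 := ht h1
    have h3 := gm_interior M h2.1 h2.2
    refine stpT_down (by omega) (by omega) (by omega) ?_
    intro j h4 h5
    have h6 : j = T + 3 ∨ j = T + 4 ∨ j = T + 5 := by omega
    rcases h6 with rfl | rfl | rfl
    · rw [armL_core ⟨by omega, by omega⟩]
      exact h2.2
    · exact armL_four ⟨h1, rfl⟩
    · exact armL_five ⟨h1, le_rfl⟩
  rcases armL_cases hv h with ⟨h1, h2, h3⟩ | ⟨rfl, h1, h2, rfl⟩ | ⟨rfl, h1, rfl, rfl⟩ |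
    ⟨rfl, h1, rfl, rfl⟩ | ⟨rfl, h1, h2, rfl⟩
  · refine ⟨(i, y - 3), h3, ?_⟩
    simp only
    rw [show y - 3 + 3 = y by omega]
  · have h3 := hb (by omega)
    have h4 := gm_interior M h3.1 h3.2
    refine ⟨(ib, 1), h3.2, ?_⟩
    refine (rtg_symm (fun a b h => stpT_symm h) (stpT_left (a := i) (b := ib) (by omega) h2
      (by omega) ?_)).trans (hbot (by omega))
    intro j h5 h6
    exact armL_two ⟨by omega, h6⟩
  · have h3 := hb h1
    have h4 := gm_interior M h3.1 h3.2
    refine ⟨(i, 1), h3.2, ?_⟩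
    refine rtg_symm (fun a b h => stpT_symm h) (stpT_down (a := 3) (b := 4) (by omega) (by omega)
      (by omega) ?_)
    intro j h5 h6
    have h7 : j = 3 ∨ j = 4 := by omega
    rcases h7 with rfl | rfl
    · exact armL_three ⟨h1, rfl⟩
    · rw [armL_core ⟨le_rfl, by omega⟩]
      exact h3.2
  · have h3 := ht h1
    have h4 := gm_interior M h3.1 h3.2
    refine ⟨(i, T), h3.2, ?_⟩
    refine stpT_down (a := T + 3) (b := T + 4) (by omega) (by omega) (by omega) ?_
    intro j h5 h6
    have h7 : j = T + 3 ∨ j = T + 4 := by omega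
    rcases h7 with rfl | rfl
    · rw [armL_core ⟨by omega, by omega⟩]
      exact h3.2
    · exact armL_four ⟨h1, rfl⟩
  · have h3 := ht (by omega)
    have h4 := gm_interior M h3.1 h3.2
    refine ⟨(it, T), h3.2, ?_⟩
    refine (rtg_symm (fun a b h => stpT_symm h) (stpT_left (a := i) (b := it) (by omega) h2
      (by omega) ?_)).trans (htop (by omega))
    intro j h5 h6
    exact armL_five ⟨by omega, h6⟩

/-- Realisation of the edges at the root. -/
theorem arm_edge_root {G : SimpleGraph V} {k : ℕ} (M : GridModel G r k T L)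
    (hb : 1 ≤ ib → tb ≠ r ∧ L ib 1 = some tb) (ht : 1 ≤ it → tt ≠ r ∧ L it T = some tt)
    {v : V} (hv : v ≠ r) {i j i' j' : ℕ} (hg : gadj (i, j) (i', j')) (hp : L i j = some r)
    (hq : L i' j' = some v) :
    ∃ p q : ℕ × ℕ, gadj p q ∧ inR (k + 1) (T + 6) p ∧ inR (k + 1) (T + 6) q ∧
      armL r tb tt T ib it L p.1 p.2 = some r ∧ armL r tb tt T ib it L q.1 q.2 = some v := by
  have h1 := gm_interior M hv hq
  have h2 := (M.frame _ _).1 hp
  simp only [gadj] at hg
  have h3 : (j = j' ∧ i ≤ k + 1) ∨ (j = 0 ∧ j' = 1 ∧ i = i') ∨ (j = T + 1 ∧ j' = T ∧ i = i') := by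
    omega
  rcases h3 with ⟨rfl, h3⟩ | ⟨rfl, rfl, rfl⟩ | ⟨rfl, rfl, rfl⟩
  · refine ⟨(i, j + 3), (i', j + 3), ?_, ⟨h3, ?_⟩, ⟨?_, ?_⟩, ?_, ?_⟩
    · refine Or.inr ⟨rfl, ?_⟩
      show i' = i + 1 ∨ i = i' + 1
      omega
    · show j + 3 ≤ T + 6
      omega
    · show i' ≤ k + 1
      omega
    · show j + 3 ≤ T + 6
      omega
    · exact (armL_core (by omega)).trans hp
    · exact (armL_core (by omega)).trans hq
  · by_cases h4 : i = ib
    · subst h4
      have h5 := hb h1.1
      have h6 : v = tb := by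
        have := h5.2
        rw [hq] at this
        exact Option.some.inj this
      subst h6
      refine ⟨(1, 1), (1, 2), ?_, ⟨?_, ?_⟩, ⟨?_, ?_⟩, armL_one, armL_two ⟨le_rfl, h1.1⟩⟩
      · simp [gadj]
      · show 1 ≤ k + 1
        omega
      · show 1 ≤ T + 6
        omega
      · show 1 ≤ k + 1
        omega
      · show 2 ≤ T + 6
        omega
    · refine ⟨(i, 3), (i, 4), ?_, ⟨?_, ?_⟩, ⟨?_, ?_⟩, armL_three_r (Or.inr h4), ?_⟩
      · simp [gadj]
      · show i ≤ k + 1
        omega
      · show 3 ≤ T + 6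
        omega
      · show i ≤ k + 1
        omega
      · show 4 ≤ T + 6
        omega
      · exact (armL_core (by omega)).trans hq
  · by_cases h4 : i = it
    · subst h4
      have h5 := ht h1.1
      have h6 : v = tt := by
        have := h5.2
        rw [hq] at this
        exact Option.some.inj this
      subst h6
      refine ⟨(1, j' + 6), (1, j' + 5), ?_, ⟨?_, ?_⟩, ⟨?_, ?_⟩, armL_top le_rfl,
        armL_five ⟨le_rfl, h1.1⟩⟩
      · simp [gadj]
      · show 1 ≤ k + 1
        omega
      · show j' + 6 ≤ j' + 6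
        omega
      · show 1 ≤ k + 1
        omega
      · show j' + 5 ≤ j' + 6
        omega
    · refine ⟨(i, j' + 4), (i, j' + 3), ?_, ⟨?_, ?_⟩, ⟨?_, ?_⟩, armL_four_r (Or.inr h4), ?_⟩
      · simp [gadj]
      · show i ≤ k + 1
        omega
      · show j' + 4 ≤ j' + 6
        omega
      · show i ≤ k + 1
        omega
      · show j' + 3 ≤ j' + 6
        omega
      · exact (armL_core (by omega)).trans hq

end Arm

set_option linter.unusedVariables false in
theorem LG_arm {V : Type} {G : SimpleGraph V} {r : V} {k T : ℕ} {L : ℕ → ℕ → Option V}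
    (M : GridModel G r k T L) (hk : 1 ≤ k) (hT : 1 ≤ T) {tb tt : V} {ib it : ℕ}
    (hb : 1 ≤ ib → tb ≠ r ∧ L ib 1 = some tb) (ht : 1 ≤ it → tt ≠ r ∧ L it T = some tt)
    (hbt : 1 ≤ ib → 1 ≤ it → tb ≠ tt) :
    LG G r (k + 1) (T + 6) (armL r tb tt T ib it L) where
  col j _ := armL_col M j
  row i h1 _ := armL_zero_y (by omega)
  conn v p q hp hq hvp hvq := by
    by_cases hv : v = r
    · subst hv
      have h1 := arm_root M hb ht hp.1 hp.2 hvp
      have h2 := arm_root M hb ht hq.1 hq.2 hvq
      exact h1.trans (rtg_symm (fun a b h => stpT_symm h) h2)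
    · obtain ⟨p', h1, h2⟩ := arm_to_core M hb ht hv hvp
      obtain ⟨q', h3, h4⟩ := arm_to_core M hb ht hv hvq
      exact (h2.trans (arm_core M hv h1 h3)).trans (rtg_symm (fun a b h => stpT_symm h) h4)
  edge u v huv := by
    obtain ⟨i, j, i', j', hg, hp, hq, b1, b2, b3, b4⟩ := gm_edge M huv
    by_cases hu : u = r
    · subst hu
      exact arm_edge_root M hb ht huv.ne' hg hp hq
    · by_cases hv : v = r
      · subst hv
        obtain ⟨p, q, c1, c2, c3, c4, c5⟩ := arm_edge_root M hb ht hu (i := i') (j := j')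
          (i' := i) (j' := j) (by simp only [gadj] at hg ⊢; omega) hq hp
        refine ⟨q, p, ?_, c3, c2, c5, c4⟩
        simp only [gadj] at c1 ⊢
        omega
      · have h1 := gm_interior M hu hp
        have h2 := gm_interior M hv hq
        refine ⟨(i, j + 3), (i', j' + 3), ?_, ⟨b1, ?_⟩, ⟨b3, ?_⟩, ?_, ?_⟩
        · simp only [gadj] at hg ⊢
          omega
        · show j + 3 ≤ T + 6
          omega
        · show j' + 3 ≤ T + 6
          omega
        · exact (armL_core (by omega)).trans hp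
        · exact (armL_core (by omega)).trans hq

end Pool.Agent.Helper55.BLE
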