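import Mathlib
import Pool.Agent.Helper55.BLE.ToLG

/-!
From drawings to labelled grids with all contacts in column one: the choice of the arms.
-/

set_option autoImplicit false

namespace Pool.Agent.Helper55.BLE

open Pool.Agent.Helper70.BLB
open Pool.Agent.Helper55.BLD

section Star

variable {V : Type} {G : SimpleGraph V} {r : V} {k T : ℕ} {L : ℕ → ℕ → Option V}

/-- The interior rows of the grid with arms. -/
theorem armL_mid {tb tt : V} {ib it i j : ℕ} (h1 : 1 ≤ j) (h2 : j ≤ T) :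
    armL r tb tt T ib it L i (j + 3) = L i j := by
  unfold armL
  rw [if_neg (by omega), if_neg (by omega), if_neg (by omega), if_neg (by omega),
    if_pos (by omega)]
  rfl

/-- All contacts in column one: no arms. -/
theorem star_zero (M : GridModel G r k T L) (hk : 1 ≤ k) (hT : 1 ≤ T) (N : Finset V)
    (hr : ∀ t ∈ N, t ≠ r) (h : ∀ t ∈ N, ∃ j, L 1 j = some t) :
    ∃ (K R : ℕ) (L' : ℕ → ℕ → Option V), LG G r K R L' ∧ 1 ≤ K ∧
      ∀ t ∈ N, ∃ j, 1 ≤ j ∧ j ≤ R ∧ L' 1 j = some t := by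
  refine ⟨k + 1, T + 6, armL r r r T 0 0 L, LG_arm M hk hT (fun h => absurd h (by omega))
    (fun h => absurd h (by omega)) (fun h => absurd h (by omega)), by omega, fun t ht => ?_⟩
  obtain ⟨j, hj⟩ := h t ht
  have hin := M.inside (hr t ht) hj
  exact ⟨j + 3, by omega, by omega, (armL_mid hin.2.1 hin.2.2).trans hj⟩

theorem star_aux (M : GridModel G r k T L) (hk : 1 ≤ k) (hT : 1 ≤ T) (N : Finset V)
    (hr : ∀ t ∈ N, t ≠ r) (hN : N.card ≤ 2)
    (h : ∀ t ∈ N, ∃ i j, L i j = some t ∧ (i = 1 ∨ j = 1 ∨ j = T)) :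
    ∃ (K R : ℕ) (L' : ℕ → ℕ → Option V), LG G r K R L' ∧ 1 ≤ K ∧
      ∀ t ∈ N, ∃ j, 1 ≤ j ∧ j ≤ R ∧ L' 1 j = some t := by
  classical
  by_cases hB : ∀ t ∈ N, ∃ i, L i 1 = some t
  · -- all on the first row: transpose
    exact star_zero M.transpose hT hk N hr fun t ht => hB t ht
  by_cases hU : ∀ t ∈ N, ∃ i, L i T = some t
  · -- all on the last row: transpose and reflect
    refine star_zero M.transpose.reflect hT hk N hr fun t ht => ?_
    obtain ⟨i, hi⟩ := hU t ht
    refine ⟨i, ?_⟩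
    show L i (T + 1 - 1) = some t
    rw [Nat.add_sub_cancel]
    exact hi
  push Not at hB hU
  obtain ⟨x, hxN, hx⟩ := hB
  obtain ⟨y, hyN, hy⟩ := hU
  -- a two-element set
  have huniq : ∀ z ∈ N, ∀ a ∈ N, ∀ b ∈ N, a ≠ z → b ≠ z → a = b := by
    intro z hz a ha b hb haz hbz
    by_contra hab
    have h1 : ({z, a, b} : Finset V) ⊆ N := by
      intro c hc
      simp only [Finset.mem_insert, Finset.mem_singleton] at hc
      rcases hc with rfl | rfl | rfl
      · exact hz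
      · exact ha
      · exact hb
    have h2 := Finset.card_le_card h1
    have h3 : ({z, a, b} : Finset V).card = 3 := by
      rw [Finset.card_insert_of_notMem, Finset.card_insert_of_notMem, Finset.card_singleton]
      · simpa using hab
      · simp only [Finset.mem_insert, Finset.mem_singleton]
        rintro (rfl | rfl)
        · exact haz rfl
        · exact hbz rfl
    omega
  -- the vertex on the first row
  obtain ⟨tb, ib, hb1, hb2⟩ : ∃ (tb : V) (ib : ℕ),
      (1 ≤ ib → tb ∈ N ∧ L ib 1 = some tb) ∧ ∀ t ∈ N, (∃ i, L i 1 = some t) → 1 ≤ ib ∧ t = tb := by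
    by_cases hex : ∃ t ∈ N, ∃ i, L i 1 = some t
    · obtain ⟨t, ht, i, hi⟩ := hex
      have hin := M.inside (hr t ht) hi
      refine ⟨t, i, fun _ => ⟨ht, hi⟩, ?_⟩
      rintro t' ht' ⟨i', hi'⟩
      exact ⟨hin.1.1, huniq x hxN t' ht' t ht (fun e => hx i' (e ▸ hi')) fun e => hx i (e ▸ hi)⟩
    · exact ⟨r, 0, fun h => absurd h (by omega), fun t ht h => absurd ⟨t, ht, h⟩ hex⟩
  -- the vertex on the last row
  obtain ⟨tt, it, ht1, ht2⟩ : ∃ (tt : V) (it : ℕ),
      (1 ≤ it → (tt ∈ N ∧ L it T = some tt) ∧ ¬ ∃ i, L i 1 = some tt) ∧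
      ∀ t ∈ N, (∃ i, L i T = some t) → (¬ ∃ i, L i 1 = some t) → 1 ≤ it ∧ t = tt := by
    by_cases hex : ∃ t ∈ N, (∃ i, L i T = some t) ∧ ¬ ∃ i, L i 1 = some t
    · obtain ⟨t, ht, ⟨i, hi⟩, hn⟩ := hex
      have hin := M.inside (hr t ht) hi
      refine ⟨t, i, fun _ => ⟨⟨ht, hi⟩, hn⟩, ?_⟩
      rintro t' ht' ⟨i', hi'⟩ _
      exact ⟨hin.1.1, huniq y hyN t' ht' t ht (fun e => hy i' (e ▸ hi')) fun e => hy i (e ▸ hi)⟩
    · exact ⟨r, 0, fun h => absurd h (by omega), fun t ht h h' => absurd ⟨t, ht, h, h'⟩ hex⟩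
  refine ⟨k + 1, T + 6, armL r tb tt T ib it L, LG_arm M hk hT
    (fun hi => ⟨hr _ (hb1 hi).1, (hb1 hi).2⟩) (fun hi => ⟨hr _ (ht1 hi).1.1, (ht1 hi).1.2⟩)
    (fun h1 h2 e => (ht1 h2).2 ⟨ib, e ▸ (hb1 h1).2⟩), by omega, fun t ht => ?_⟩
  obtain ⟨i, j, hij, hcase⟩ := h t ht
  have hin := M.inside (hr t ht) hij
  by_cases h1 : i = 1
  · subst h1
    exact ⟨j + 3, by omega, by omega, (armL_mid hin.2.1 hin.2.2).trans hij⟩
  by_cases h2 : ∃ i, L i 1 = some t
  · obtain ⟨h3, rfl⟩ := hb2 t ht h2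
    refine ⟨2, by omega, by omega, ?_⟩
    unfold armL
    rw [if_neg (by omega), if_neg (by omega), if_pos rfl, if_pos (by omega)]
  · have h3 : j = T := by
      rcases hcase with h3 | h3 | h3
      · exact absurd h3 h1
      · subst h3
        exact absurd ⟨i, hij⟩ h2
      · exact h3
    subst h3
    obtain ⟨h4, rfl⟩ := ht2 t ht ⟨i, hij⟩ h2
    refine ⟨j + 5, by omega, by omega, ?_⟩
    unfold armL
    rw [if_neg (by omega), if_neg (by omega), if_neg (by omega), if_neg (by omega),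
      if_neg (by omega), if_neg (by omega), if_pos rfl, if_pos (by omega)]

end Star

/-- A labelled grid for a subgraph `G` of a drawn graph `H`, with root `r`, in which all vertices of
`T`, which are neighbours of `r` in `H`, have a point in column `1`. -/
theorem exists_LG_star {V : Type} [Finite V] [DecidableEq V] {G H : SimpleGraph V}
    {f : V → ℝ × ℝ} {γ : V → V → ℝ → ℝ × ℝ} (D : Drawing H f γ) (hGH : G ≤ H) (r : V)
    (T : Finset V) (hT : T.card ≤ 3) (hr : r ∈ T) (hadj : ∀ t ∈ T, t ≠ r → H.Adj t r) :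
    ∃ (K R : ℕ) (L : ℕ → ℕ → Option V), LG G r K R L ∧ ContT T r K R L := by
  have hcard : (T.erase r).card ≤ 2 := by
    rw [Finset.card_erase_of_mem hr]
    omega
  obtain ⟨k, T', L, hk, hT', M, hM⟩ := exists_gridModel_contacts D hGH r (T.erase r)
    (by omega) (fun t ht => hadj t (Finset.mem_of_mem_erase ht) (Finset.ne_of_mem_erase ht))
  obtain ⟨K, R, L', h1, h2, h3⟩ := star_aux M hk hT' (T.erase r)
    (fun t ht => Finset.ne_of_mem_erase ht) hcard hM
  exact ⟨K, R, L', h1, h2, fun t ht hne => h3 t (Finset.mem_erase.2 ⟨hne, ht⟩)⟩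

end Pool.Agent.Helper55.BLE
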