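import Mathlib
import Pool.Agent.Helper55.BLE.HubN
import Pool.Agent.Helper55.BLE.ToLG2
import Pool.Agent.Helper70.BLB.TFinal

/-!
Positivity of the chromatic polynomial for subgraphs of drawn graphs with a connected set of at most
three special vertices and an ordered set of hubs.
-/

set_option autoImplicit false

namespace Pool.Agent.Helper55.BLE

open Pool.Agent.Helper70.BLB Polynomial
open Pool.Agent.Helper55.BLD

/-- A nonempty connected set `T` of special vertices. -/
theorem hubsN_pos_nonempty {V : Type} [Fintype V] {G H : SimpleGraph V} {f : V → ℝ × ℝ}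
    {γ : V → V → ℝ → ℝ × ℝ} (D : Drawing H f γ) (hGH : G ≤ H) (T : Finset V) (hne : T.Nonempty)
    (hT : (H.induce (T : Set V)).Preconnected) (C : Set V) (ρ : V → ℕ) (κ : V → Bool)
    (hH : HubsN G T C ρ κ)
    {q : ℝ} (hq : 4 < q) (hq2 : T.card ≤ 2 ∨ (T.card ≤ 3 ∧ 9 / 2 ≤ q)) (p : ℝ[X])
    (hp : ∀ n : ℕ, p.eval (n : ℝ) = (Nat.card (G.Coloring (Fin n)) : ℝ)) : 0 < p.eval q := by
  classical
  have hT3 : T.card ≤ 3 := by omega
  obtain ⟨r, hr, hadj⟩ := exists_centre hT hne hT3
  obtain ⟨K, R, L, M, hct⟩ := exists_LG_star D hGH r T hT3 hr hadj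
  rcases hq2 with h2 | ⟨h2, h3⟩
  · refine hub_posN (m := 2) le_rfl hq ?_ ρ κ _ C rfl T hr h2 G K R L M hct hH p hp
    norm_num
    linarith
  · refine hub_posN (m := 3) (by norm_num) hq ?_ ρ κ _ C rfl T hr h2 G K R L M hct hH p hp
    norm_num
    linarith

/-- A connected set `T` of at most three special vertices and an ordered set `C` of hubs. -/
theorem hubsN_pos {V : Type} [Fintype V] {G H : SimpleGraph V} {f : V → ℝ × ℝ}
    {γ : V → V → ℝ → ℝ × ℝ} (D : Drawing H f γ) (hGH : G ≤ H) (T : Finset V)
    (hT : (H.induce (T : Set V)).Preconnected) (C : Set V) (ρ : V → ℕ) (κ : V → Bool)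
    (hH : HubsN G T C ρ κ)
    {q : ℝ} (hq : 4 < q) (hq2 : T.card ≤ 2 ∨ (T.card ≤ 3 ∧ 9 / 2 ≤ q)) (p : ℝ[X])
    (hp : ∀ n : ℕ, p.eval (n : ℝ) = (Nat.card (G.Coloring (Fin n)) : ℝ)) : 0 < p.eval q := by
  classical
  have hsing : ∀ s : V, (H.induce (({s} : Finset V) : Set V)).Preconnected := by
    intro s a b
    have ha : a = b := by
      apply Subtype.ext
      have h1 := a.2
      have h2 := b.2
      rw [Finset.mem_coe, Finset.mem_singleton] at h1 h2
      rw [h1, h2]
    rw [ha]
  rcases T.eq_empty_or_nonempty with h0 | hne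
  · -- no special vertex
    have hn : ∀ v, v ∉ T := fun v hv => by
      rw [h0] at hv
      exact Finset.notMem_empty v hv
    by_cases hV : ∃ s : V, s ∉ C
    · obtain ⟨s, hs⟩ := hV
      refine hubsN_pos_nonempty D hGH {s} ⟨s, Finset.mem_singleton_self s⟩ (hsing s) C ρ κ ?_ hq
        (Or.inl (by rw [Finset.card_singleton]; norm_num)) p hp
      refine ⟨fun v hv h => ?_, hH.inj, hH.card, hH.tri, fun v hv a ha b hb hab => ?_,
        fun u w hu hw _ _ h => hH.cl2 u w hu hw (hn u) (hn w) h⟩
      · rw [Finset.mem_singleton] at h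
        exact hs (h ▸ hv)
      · rcases hH.opp v hv a ha b hb hab with h | ⟨h1, h2, h3⟩
        · exact Or.inl h
        · exact Or.inr ⟨h1, h2, fun _ _ => h3 (hn a) (hn b)⟩
    · push Not at hV
      rcases isEmpty_or_nonempty V with hemp | hnon
      · -- the graph is empty
        have h1 : p = 1 := by
          apply Polynomial.eq_of_infinite_eval_eq
          apply Set.Infinite.mono (s := Set.range (fun n : ℕ => (n : ℝ)))
          · rintro _ ⟨N, rfl⟩
            show eval (N : ℝ) p = eval (N : ℝ) 1
            rw [hp N, eval_one]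
            have : Nat.card (G.Coloring (Fin N)) = 1 := by
              rw [Nat.card_eq_one_iff_unique]
              refine ⟨⟨fun a b => RelHom.ext fun v => (hemp.false v).elim⟩,
                ⟨SimpleGraph.Coloring.mk (fun v => (hemp.false v).elim)
                  (fun {v} => (hemp.false v).elim)⟩⟩
            rw [this]
            simp
          · exact Set.infinite_range_of_injective Nat.cast_injective
        rw [h1, eval_one]
        exact one_pos
      · -- all vertices are hubs: the last one is made special
        obtain ⟨s, _, hs⟩ := Finset.exists_max_image (Finset.univ : Finset V) ρ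
          Finset.univ_nonempty
        have hlt : ∀ v ∈ C \ {s}, ρ v < ρ s := by
          intro v hv
          have h1 := hs v (Finset.mem_univ v)
          have h2 : ρ v ≠ ρ s := fun h => hv.2 (hH.inj hv.1 (hV s) h)
          omega
        have hup : ∀ v ∈ C \ {s}, upN G (C \ {s}) ρ v = upN G C ρ v := by
          intro v hv
          ext w
          constructor
          · rintro ⟨h1, h2⟩
            refine ⟨h1, fun hw => ?_⟩
            by_cases hws : w = s
            · rw [hws]; exact hlt v hv
            · exact h2 ⟨hw, hws⟩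
          · rintro ⟨h1, h2⟩
            exact ⟨h1, fun hw => h2 hw.1⟩
        refine hubsN_pos_nonempty D hGH {s} ⟨s, Finset.mem_singleton_self s⟩ (hsing s)
          (C \ {s}) ρ κ ?_ hq (Or.inl (by rw [Finset.card_singleton]; norm_num)) p hp
        refine ⟨fun v hv h => ?_, hH.inj.mono Set.sdiff_subset, fun v hv => ?_,
          fun v hv a ha b hb c hc => ?_, fun v hv a ha b hb hab => ?_,
          fun u w hu hw h1 h2 h => ?_⟩
        · rw [Finset.mem_singleton] at h
          exact hv.2 h
        · rw [hup v hv]
          exact hH.card v hv.1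
        · rw [hup v hv] at ha hb hc
          exact hH.tri v hv.1 a ha b hb c hc
        · rw [hup v hv] at ha hb
          rcases hH.opp v hv.1 a ha b hb hab with h | ⟨h1, _, _⟩
          · exact Or.inl h
          · exact absurd (hV a) h1
        · rw [Finset.mem_singleton] at h1
          exact absurd ⟨hV u, fun hh => h1 hh⟩ hu
  · exact hubsN_pos_nonempty D hGH T hne hT C ρ κ hH hq hq2 p hp

end Pool.Agent.Helper55.BLE
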