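import Mathlib
import Pool.Agent.Helper55.BLE.Hub
import Pool.Agent.Helper55.BLE.ToLG2
import Pool.Agent.Helper70.BLB.TFinal

/-!
Positivity of the chromatic polynomial for subgraphs of drawn graphs with a connected set of at most
three special vertices and a set of hubs.
-/

set_option autoImplicit false

namespace Pool.Agent.Helper55.BLE

open Pool.Agent.Helper70.BLB Polynomial
open Pool.Agent.Helper55.BLD

/-- A nonempty connected set `T` of special vertices. -/
theorem hubs_pos_nonempty {V : Type} [Fintype V] {G H : SimpleGraph V} {f : V → ℝ × ℝ}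
    {γ : V → V → ℝ → ℝ × ℝ} (D : Drawing H f γ) (hGH : G ≤ H) (T : Finset V) (hne : T.Nonempty)
    (hT : (H.induce (T : Set V)).Preconnected) (C : Set V) (κ : V → Bool)
    (hκ : ∀ u v : V, G.Adj u v → u ∉ T → v ∉ T → u ∉ C → v ∉ C → κ u ≠ κ v)
    (hC : ∀ v ∈ C, v ∉ T ∧ ∃ a b c d : V,
      (∀ w : V, G.Adj v w ↔ w = a ∨ w = b ∨ w = c ∨ w = d) ∧
      G.Adj a b ∧ G.Adj b c ∧ G.Adj c d ∧ G.Adj d a ∧
      (a ∉ C ∧ b ∉ C ∧ c ∉ C ∧ d ∉ C) ∧
      (a ∉ T → c ∉ T → G.Adj a c ∨ κ a = κ c) ∧ (b ∉ T → d ∉ T → G.Adj b d ∨ κ b = κ d))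
    {q : ℝ} (hq : 4 < q) (hq2 : T.card ≤ 2 ∨ (T.card ≤ 3 ∧ 9 / 2 ≤ q)) (p : ℝ[X])
    (hp : ∀ n : ℕ, p.eval (n : ℝ) = (Nat.card (G.Coloring (Fin n)) : ℝ)) : 0 < p.eval q := by
  classical
  have hT3 : T.card ≤ 3 := by omega
  obtain ⟨r, hr, hadj⟩ := exists_centre hT hne hT3
  obtain ⟨K, R, L, M, hct⟩ := exists_LG_star D hGH r T hT3 hr hadj
  -- the neighbours of the hubs
  have hx : ∀ v : V, ∃ y : Fin 4 → V, v ∈ C →
      (∀ w : V, G.Adj v w ↔ ∃ i, w = y i) ∧ (∀ i, G.Adj (y i) (y (i + 1))) ∧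
      (∀ i, y i ∉ C) ∧ (∀ i, y i ∉ T → y (i + 2) ∉ T →
        G.Adj (y i) (y (i + 2)) ∨ κ (y i) = κ (y (i + 2))) := by
    intro v
    by_cases hv : v ∈ C
    · obtain ⟨_, a, b, c, d, h1, h2, h3, h4, h5, ⟨h6, h7, h8, h9⟩, h10, h11⟩ := hC v hv
      refine ⟨![a, b, c, d], fun _ => ⟨fun w => ?_, fun i => ?_, fun i => ?_, fun i => ?_⟩⟩
      · rw [h1 w]
        constructor
        · rintro (h | h | h | h)
          · exact ⟨0, h⟩
          · exact ⟨1, h⟩
          · exact ⟨2, h⟩
          · exact ⟨3, h⟩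
        · rintro ⟨i, hi⟩
          fin_cases i
          · exact Or.inl hi
          · exact Or.inr (Or.inl hi)
          · exact Or.inr (Or.inr (Or.inl hi))
          · exact Or.inr (Or.inr (Or.inr hi))
      · fin_cases i
        · exact h2
        · exact h3
        · exact h4
        · exact h5
      · fin_cases i
        · exact h6
        · exact h7
        · exact h8
        · exact h9
      · fin_cases i
        · exact h10
        · exact h11
        · exact fun e1 e2 => (h10 e2 e1).imp (fun h => h.symm) (fun h => h.symm)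
        · exact fun e1 e2 => (h11 e2 e1).imp (fun h => h.symm) (fun h => h.symm)
    · exact ⟨fun _ => v, fun h => absurd h hv⟩
  choose x hx using hx
  have hH : Hubs G T C.toFinset κ x := by
    refine ⟨fun v hv => ?_, fun v hv i => ?_, fun v hv w => ?_, fun v hv i => ?_,
      fun v hv i => ?_, fun u w hu hw h1 h2 h3 => ?_⟩
    · rw [Set.mem_toFinset] at hv
      exact (hC v hv).1
    · rw [Set.mem_toFinset] at hv ⊢
      exact (hx v hv).2.2.1 i
    · rw [Set.mem_toFinset] at hv
      exact (hx v hv).1 w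
    · rw [Set.mem_toFinset] at hv
      exact (hx v hv).2.1 i
    · rw [Set.mem_toFinset] at hv
      exact (hx v hv).2.2.2 i
    · rw [Set.mem_toFinset] at hu hw
      exact hκ u w h3 h1 h2 hu hw
  rcases hq2 with h2 | ⟨h2, h3⟩
  · refine hub_posT (m := 2) le_rfl hq ?_ κ _ C.toFinset rfl T hr h2 G x K R L M hct hH p hp
    norm_num
    linarith
  · refine hub_posT (m := 3) (by norm_num) hq ?_ κ _ C.toFinset rfl T hr h2 G x K R L M hct hH p hp
    norm_num
    linarith

/-- A connected set `T` of at most three special vertices and a set `C` of hubs. -/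
theorem hubs_pos {V : Type} [Fintype V] {G H : SimpleGraph V} {f : V → ℝ × ℝ}
    {γ : V → V → ℝ → ℝ × ℝ} (D : Drawing H f γ) (hGH : G ≤ H) (T : Finset V)
    (hT : (H.induce (T : Set V)).Preconnected) (C : Set V) (κ : V → Bool)
    (hκ : ∀ u v : V, G.Adj u v → u ∉ T → v ∉ T → u ∉ C → v ∉ C → κ u ≠ κ v)
    (hC : ∀ v ∈ C, v ∉ T ∧ ∃ a b c d : V,
      (∀ w : V, G.Adj v w ↔ w = a ∨ w = b ∨ w = c ∨ w = d) ∧
      G.Adj a b ∧ G.Adj b c ∧ G.Adj c d ∧ G.Adj d a ∧
      (a ∉ C ∧ b ∉ C ∧ c ∉ C ∧ d ∉ C) ∧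
      (a ∉ T → c ∉ T → G.Adj a c ∨ κ a = κ c) ∧ (b ∉ T → d ∉ T → G.Adj b d ∨ κ b = κ d))
    {q : ℝ} (hq : 4 < q) (hq2 : T.card ≤ 2 ∨ (T.card ≤ 3 ∧ 9 / 2 ≤ q)) (p : ℝ[X])
    (hp : ∀ n : ℕ, p.eval (n : ℝ) = (Nat.card (G.Coloring (Fin n)) : ℝ)) : 0 < p.eval q := by
  classical
  rcases T.eq_empty_or_nonempty with h0 | hne
  · -- no special vertex
    by_cases hV : ∃ s : V, s ∉ C
    · obtain ⟨s, hs⟩ := hV
      have hn : ∀ v, v ∉ T := fun v hv => by
        rw [h0] at hv
        exact Finset.notMem_empty v hv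
      refine hubs_pos_nonempty D hGH {s} ⟨s, Finset.mem_singleton_self s⟩ ?_ C κ
        (fun u v h _ _ h5 h6 => hκ u v h (hn u) (hn v) h5 h6) ?_ hq
        (Or.inl (by rw [Finset.card_singleton]; norm_num)) p hp
      · intro a b
        have ha : a = b := by
          apply Subtype.ext
          have h1 := a.2
          have h2 := b.2
          rw [Finset.mem_coe, Finset.mem_singleton] at h1 h2
          rw [h1, h2]
        rw [ha]
      · intro v hv
        obtain ⟨h1, a, b, c, d, h2, h3, h4, h5, h6, h7, h8, h9⟩ := hC v hv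
        refine ⟨fun h => ?_, a, b, c, d, h2, h3, h4, h5, h6, h7, fun _ _ => h8 (hn a) (hn c),
          fun _ _ => h9 (hn b) (hn d)⟩
        rw [Finset.mem_singleton] at h
        exact hs (h ▸ hv)
    · push Not at hV
      -- then the graph is empty
      have hemp : IsEmpty V := by
        constructor
        intro v
        obtain ⟨_, a, b, c, d, _, _, _, _, _, ⟨h7, _⟩, _⟩ := hC v (hV v)
        exact h7 (hV a)
      have h1 : p = 1 := by
        apply Polynomial.eq_of_infinite_eval_eq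
        apply Set.Infinite.mono (s := Set.range (fun n : ℕ => (n : ℝ)))
        · rintro _ ⟨N, rfl⟩
          show eval (N : ℝ) p = eval (N : ℝ) 1
          rw [hp N, eval_one]
          have : Nat.card (G.Coloring (Fin N)) = 1 := by
            rw [Nat.card_eq_one_iff_unique]
            refine ⟨⟨fun a b => RelHom.ext fun v => (hemp.false v).elim⟩,
              ⟨SimpleGraph.Coloring.mk (fun v => (hemp.false v).elim)
                (fun {v} => (hemp.false v).elim)⟩⟩
          rw [this]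
          simp
        · exact Set.infinite_range_of_injective Nat.cast_injective
      rw [h1, eval_one]
      exact one_pos
  · exact hubs_pos_nonempty D hGH T hne hT C κ hκ hC hq hq2 p hp

end Pool.Agent.Helper55.BLE
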